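import Pool.Agent.Helper84.TP.Sel
set_option autoImplicit false

/-!
Mixed cells of systems in blocks of variables, and simplicial systems.
-/

namespace Pool.Agent.Helper84.TP

section blocks

variable {K : Type*} [Field K] {ν : Type*} [Fintype ν] {k : ℕ}

/-- The polynomials `F_i` involve the variables of disjoint blocks `B_i` only, and the exponents of
`F_i` affinely span `ℚ^(B_i)`: a linear form which is constant on them vanishes on the variables of
`B_i`. -/
structure InBlocks (F : Fin k → Lau K ν) (B : Fin k → Finset ν) : Prop where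
  disj : ∀ i j, i ≠ j → Disjoint (B i) (B j)
  supp : ∀ i u, (F i).coeff u ≠ 0 → ∀ l, l ∉ B i → u l = 0
  full : ∀ i (w : ν → ℤ), (∀ u u', (F i).coeff u ≠ 0 → (F i).coeff u' ≠ 0 →
    dotp w u = dotp w u') → ∀ l ∈ B i, w l = 0

theorem exists_not_span (hk : k < Fintype.card ν) (m : Fin k → ν → ℤ) :
    ∃ z : ν → ℤ, ∀ (q : ℤ) (c : Fin k → ℤ), q • z = ∑ i, c i • m i → q = 0 := by
  classical
  by_contra hcon
  push Not at hcon
  set mQ : Fin k → ν → ℚ := fun i l => (m i l : ℚ) with hmQ
  have h1 : Submodule.span ℚ (Set.range mQ) = ⊤ := by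
    rw [eq_top_iff, ← (Pi.basisFun ℚ ν).span_eq, Submodule.span_le]
    rintro _ ⟨l, rfl⟩
    obtain ⟨q, c, h, hq⟩ := hcon (Pi.single l 1)
    refine (Submodule.mem_span_range_iff_exists_fun ℚ).2 ⟨fun i => (c i : ℚ) / q, ?_⟩
    have hq' : (q : ℚ) ≠ 0 := by exact_mod_cast hq
    funext j
    rw [Finset.sum_apply, Pi.basisFun_apply]
    have h2 : (((q • (Pi.single l 1 : ν → ℤ)) j : ℤ) : ℚ) = (((∑ i, c i • m i) j : ℤ) : ℚ) := by
      rw [h]
    rw [Finset.sum_apply] at h2
    simp only [Pi.smul_apply, smul_eq_mul] at h2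
    push_cast at h2
    have h3 : (((Pi.single l 1 : ν → ℤ) j : ℤ) : ℚ) = (Pi.single l 1 : ν → ℚ) j := by
      by_cases hj : j = l
      · subst hj
        simp
      · simp [Pi.single_eq_of_ne hj]
    rw [h3] at h2
    rw [← mul_right_inj' hq', h2, Finset.mul_sum]
    refine Finset.sum_congr rfl fun i _ => ?_
    rw [Pi.smul_apply, smul_eq_mul, hmQ]
    field_simp
  have h2 := finrank_range_le_card (R := ℚ) mQ
  rw [Set.finrank, h1, finrank_top, Module.finrank_fintype_fun_eq_card, Fintype.card_fin] at h2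
  omega

theorem exists_mixedCell {F : Fin k → Lau K ν} {W : Lau K ν} {B : Fin k → Finset ν}
    (hk : k < Fintype.card ν) (hB : InBlocks F B)
    (hI : ∀ φ, φ ≠ 0 → Indep (Fin.cons W F : Fin (k + 1) → Lau K ν) φ) (hint : Interior W)
    {ψ a b : Fin k → ν → ℤ} (hE : ∀ i, Edge (F i) (ψ i) (a i) (b i)) :
    ∃ c : MixedCell F W, c.a = a ∧ c.b = b := by
  classical
  set m : Fin k → ν → ℤ := fun i => a i - b i with hm
  -- the direction given by the edges
  set ψb : ν → ℤ := fun l => ∑ i, if l ∈ B i then ψ i l else 0 with hψb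
  have hψbi : ∀ i u, (F i).coeff u ≠ 0 → dotp ψb u = dotp (ψ i) u := by
    intro i u hu
    unfold dotp
    refine Finset.sum_congr rfl fun l _ => ?_
    by_cases hl : l ∈ B i
    · have h1 : ψb l = ψ i l := by
        rw [hψb]
        simp only
        rw [Finset.sum_eq_single i]
        · rw [if_pos hl]
        · intro j _ hj
          rw [if_neg]
          intro hlj
          exact (Finset.disjoint_left.1 (hB.disj i j (Ne.symm hj)) hl) hlj
        · intro h
          exact absurd (Finset.mem_univ i) h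
      rw [h1]
    · rw [hB.supp i u hu l hl, mul_zero, mul_zero]
  -- the generic perturbation
  obtain ⟨z₀, hz₀⟩ := exists_not_span hk m
  set S := W.coeff.support with hS
  set Z : Finset (ν → ℤ) := insert z₀ (((S ×ˢ S).image fun p => p.1 - p.2).filter
    fun z => ∀ (q : ℤ) (c : Fin k → ℤ), q • z = ∑ i, c i • m i → q = 0) with hZ
  set N : Submodule ℤ (ν → ℤ) :=
    { carrier := {ρ | ∀ i, dotp ρ (m i) = 0}
      add_mem' := fun {x y} hx hy i => by rw [dotp_add_left, hx i, hy i, add_zero]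
      zero_mem' := fun i => dotp_zero_left _
      smul_mem' := fun n x hx i => by rw [dotp_smul_left, hx i, mul_zero] } with hN
  have hZspan : ∀ z ∈ Z, ∀ (q : ℤ) (c : Fin k → ℤ), q • z = ∑ i, c i • m i → q = 0 := by
    intro z hz
    rcases Finset.mem_insert.1 hz with rfl | hz
    · exact hz₀
    · exact (Finset.mem_filter.1 hz).2
  obtain ⟨ρ, hρN, hρZ⟩ := exists_generic N Z fun z hz => by
    obtain ⟨ρ, h1, h2⟩ := exists_orth m z (hZspan z hz)
    exact ⟨ρ, h1, h2⟩
  have hρm : ∀ i, dotp ρ (m i) = 0 := hρN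
  set Y : Finset (ν → ℤ) := Z ∪ Finset.univ.biUnion fun i =>
    ((F i).coeff.support ×ˢ (F i).coeff.support).image fun p => p.1 - p.2 with hY
  set M : ℤ := ∑ y ∈ Y, |dotp ρ y| + 1 with hM
  have hMY : ∀ y ∈ Y, |dotp ρ y| < M := by
    intro y hy
    have h1 : |dotp ρ y| ≤ ∑ y ∈ Y, |dotp ρ y| :=
      Finset.single_le_sum (f := fun y => |dotp ρ y|) (fun y _ => abs_nonneg _) hy
    linarith
  set Ψ : ν → ℤ := M • ψb + ρ with hΨ
  have hΨd : ∀ u, dotp Ψ u = M * dotp ψb u + dotp ρ u := fun u => by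
    rw [hΨ, dotp_add_left, dotp_smul_left]
  have hΨZ : ∀ z ∈ Z, dotp Ψ z ≠ 0 := by
    intro z hz
    rw [hΨd]
    by_cases h : dotp ψb z = 0
    · rw [h, mul_zero, zero_add]
      exact hρZ z hz
    · exact mul_add_ne_zero h (hMY z (Finset.mem_union_left _ hz))
  have hΨ0 : Ψ ≠ 0 := by
    intro h0
    apply hΨZ z₀ (Finset.mem_insert_self _ _)
    rw [h0, dotp_zero_left]
  have hΨab : ∀ i, dotp Ψ (a i) = dotp Ψ (b i) := by
    intro i
    have h1 := hρm i
    rw [hm, dotp_sub] at h1
    rw [hΨd, hΨd, hψbi i _ (hE i).ha, hψbi i _ (hE i).hb, (hE i).hab]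
    linarith
  have hΨlt : ∀ i u, (F i).coeff u ≠ 0 → u ≠ a i → u ≠ b i → dotp Ψ u < dotp Ψ (b i) := by
    intro i u hu hua hub
    have h1 := (hE i).lt u hu hua hub
    rw [hΨd, hΨd, hψbi i _ hu, hψbi i _ (hE i).hb]
    have h2 : |dotp ρ (u - b i)| < M := by
      refine hMY _ (Finset.mem_union_right _ (Finset.mem_biUnion.2 ⟨i, Finset.mem_univ _,
        Finset.mem_image.2 ⟨(u, b i), Finset.mem_product.2 ⟨Finsupp.mem_support_iff.2 hu,
        Finsupp.mem_support_iff.2 (hE i).hb⟩, rfl⟩⟩))
    rw [dotp_sub] at h2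
    have h3 := (abs_lt.1 h2).2
    have h4 : 1 ≤ dotp (ψ i) (b i) - dotp (ψ i) u := by linarith
    have hM0 : 0 < M := (abs_nonneg _).trans_lt h2
    nlinarith
  -- the maximum on the support of `W`
  have hSne : S.Nonempty := by
    obtain ⟨u, hu, -⟩ := hint Ψ hΨ0
    exact ⟨u, Finsupp.mem_support_iff.2 hu⟩
  obtain ⟨v, hvS, hvmax⟩ := Finset.exists_max_image S (fun u => dotp Ψ u) hSne
  have hv : W.coeff v ≠ 0 := Finsupp.mem_support_iff.1 hvS
  have hWin : ∀ u, W.coeff u ≠ 0 → dotp Ψ u = dotp Ψ v → (inForm (-Ψ) W).coeff u ≠ 0 := by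
    intro u hu huv
    rw [inForm_neg_iff]
    refine ⟨hu, fun w hw => ?_⟩
    rw [huv]
    exact hvmax w (Finsupp.mem_support_iff.2 hw)
  have hFmax : ∀ i w, (F i).coeff w ≠ 0 → dotp Ψ w ≤ dotp Ψ (b i) := by
    intro i w hw
    by_cases hwa : w = a i
    · rw [hwa]
      exact (hΨab i).le
    by_cases hwb : w = b i
    · rw [hwb]
    exact (hΨlt i w hw hwa hwb).le
  refine ⟨⟨Ψ, a, b, v, fun i => (hE i).ha, fun i => (hE i).hb, hΨab, hΨlt, hv, ?_, ?_⟩, rfl, rfl⟩
  · intro u hu huv
    have h1 := hvmax u (Finsupp.mem_support_iff.2 hu)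
    refine lt_of_le_of_ne h1 fun h2 => ?_
    have h3 : ∀ (q : ℤ) (c : Fin k → ℤ), q • (u - v) = ∑ i, c i • m i → q = 0 := by
      intro q c hq
      refine (hI (-Ψ) (neg_ne_zero.2 hΨ0)).transversal (a := a) (b := b) (fun i => ?_)
        (fun i => ?_) (hWin u hu h2) (hWin v hv rfl) huv hq
      · rw [inForm_neg_iff]
        exact ⟨(hE i).ha, fun w hw => (hFmax i w hw).trans (hΨab i).ge⟩
      · rw [inForm_neg_iff]
        exact ⟨(hE i).hb, hFmax i⟩
    have h4 : u - v ∈ Z := Finset.mem_insert_of_mem (Finset.mem_filter.2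
      ⟨Finset.mem_image.2 ⟨(u, v), Finset.mem_product.2
        ⟨Finsupp.mem_support_iff.2 hu, hvS⟩, rfl⟩, h3⟩)
    apply hΨZ _ h4
    rw [dotp_sub]
    have h5 : dotp Ψ u = dotp Ψ v := h2
    rw [h5, sub_self]
  · obtain ⟨u, hu, hu0⟩ := hint (-Ψ) (neg_ne_zero.2 hΨ0)
    rw [dotp_neg_left] at hu0
    have h1 : dotp Ψ u ≤ dotp Ψ v := hvmax u (Finsupp.mem_support_iff.2 hu)
    linarith

/-- The mixed cells of a system in blocks. -/
theorem exists_mixedCells [DecidableEq ν] {F : Fin k → Lau K ν} {W : Lau K ν}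
    {B : Fin k → Finset ν} {d : ℕ} (hν : Fintype.card ν = k + (d + 1)) (hB : InBlocks F B)
    (hI : ∀ φ, φ ≠ 0 → Indep (Fin.cons W F : Fin (k + 1) → Lau K ν) φ) (hint : Interior W) :
    ∃ c : (∀ i, B i) → MixedCell F W, (Matrix.of fun t t' : ∀ i, B i =>
      (Matrix.of fun i j => (c t).m i (t' j : ν)).det).det ≠ 0 := by
  classical
  have hsel : ∀ i, ∃ m : B i → ν → ℤ, (∀ x, ∃ ψ a b, Edge (F i) ψ a b ∧ m x = a - b) ∧
      (Matrix.of fun x y : B i => m x y).det ≠ 0 := by
    intro i
    refine exists_sel (B i) (fun m => ∃ ψ a b, Edge (F i) ψ a b ∧ m = a - b) fun w hwB hw0 => ?_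
    have h1 : ∃ u₁ u₂, (F i).coeff u₁ ≠ 0 ∧ (F i).coeff u₂ ≠ 0 ∧ dotp w u₁ ≠ dotp w u₂ := by
      by_contra hcon
      push Not at hcon
      apply hw0
      funext l
      by_cases hl : l ∈ B i
      · exact hB.full i w (fun u u' hu hu' => hcon u u' hu hu') l hl
      · exact hwB l hl
    have h2 : 1 < Fintype.card ν := by
      have := i.pos
      omega
    obtain ⟨ψ, a, b, h3, h4⟩ := exists_edge hI i.succ h2 (w := w) (by
      simpa only [Fin.cons_succ] using h1)
    rw [Fin.cons_succ] at h3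
    exact ⟨a - b, ⟨ψ, a, b, h3, rfl⟩, h4⟩
  choose m hm hdet using hsel
  choose ψ a b hE hmab using hm
  choose c hca hcb using fun t : ∀ i, B i =>
    exists_mixedCell (by omega) hB hI hint (fun i => hE i (t i))
  refine ⟨c, ?_⟩
  have h1 := det_kron_ne_zero (fun i => Matrix.of fun x y : B i => m i x y) hdet
  have h2 : (Matrix.of fun t t' : ∀ i, B i =>
      (Matrix.of fun i j => (c t).m i (t' j : ν)).det) =
      Matrix.of fun t t' : ∀ i, B i => ∏ i, (Matrix.of fun x y : B i => m i x y) (t i) (t' i) := by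
    ext t t'
    rw [Matrix.of_apply, Matrix.of_apply]
    have h3 : (Matrix.of fun i j => (c t).m i (t' j : ν)) =
        Matrix.diagonal fun i => m i (t i) (t' i : ν) := by
      ext i j
      have h4 : (c t).m i = m i (t i) := by
        unfold MixedCell.m
        rw [hca, hcb, hmab]
      rw [Matrix.of_apply, h4]
      by_cases hij : i = j
      · subst hij
        rw [Matrix.diagonal_apply_eq]
      · rw [Matrix.diagonal_apply_ne _ hij, hmab, Pi.sub_apply]
        have h5 : (t' j : ν) ∉ B i := fun h6 =>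
          Finset.disjoint_left.1 (hB.disj i j hij) h6 (t' j).2
        rw [hB.supp i _ (hE i (t i)).ha _ h5, hB.supp i _ (hE i (t i)).hb _ h5, sub_zero]
    rw [h3, Matrix.det_diagonal]
    rfl
  rw [h2]
  exact h1

end blocks

section simplicial

variable {K : Type*} [Field K] {ν : Type*} [Fintype ν]

/-- Simplicial systems: the `H_i` do not vanish, and for all `φ ≠ 0` the coefficients of the initial
forms of the `H_i` are roots of unity, and their exponents are jointly affinely independent. -/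
structure Simplicial {c : ℕ} (H : Fin c → Lau K ν) : Prop where
  ne_zero : ∀ i, H i ≠ 0
  unity : ∀ φ, φ ≠ 0 → ∀ i u, (inForm φ (H i)).coeff u ≠ 0 →
    ∃ m : ℕ, 0 < m ∧ ((inForm φ (H i)).coeff u) ^ m = 1
  indep : ∀ φ, φ ≠ 0 → Indep H φ

theorem Simplicial.tempered {c : ℕ} {H : Fin c → Lau K ν} (h : Simplicial H) : Tempered H := by
  classical
  intro φ hφ
  set S : Fin c → Finset (ν → ℤ) := fun i => (inForm φ (H i)).coeff.support with hS
  have hSne : ∀ i, (S i).Nonempty := fun i => exists_mem_inForm (h.ne_zero i)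
  have hcard : ∀ i, Fintype.card (Fin ((S i).card - 1 + 1)) = Fintype.card (S i) := by
    intro i
    have := (hSne i).card_pos
    rw [Fintype.card_fin, Fintype.card_coe]
    omega
  choose e he using fun i => (⟨Fintype.equivOfCardEq (hcard i), rfl⟩ :
    ∃ e : Fin ((S i).card - 1 + 1) ≃ S i, e = e)
  set P : Fin c → Sums K ν := fun i =>
    { k := (S i).card - 1
      exp := fun j => (e i j : ν → ℤ)
      co := fun j => (inForm φ (H i)).coeff (e i j : ν → ℤ)
      tors := fun j => h.unity φ hφ i _ (Finsupp.mem_support_iff.1 (e i j).2) } with hP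
  refine ⟨fun _ => 1, fun _ => 1, fun i _ => P i, fun i u => ?_, fun i => ?_, fun j _ => ?_⟩
  · have h1 : (1 : Lau K ν).coeff u = if u = 0 then 1 else 0 := by
      rw [AddMonoidAlgebra.one_def, AddMonoidAlgebra.coeff_single, Finsupp.single_apply]
      by_cases hu : u = 0
      · rw [if_pos hu, if_pos hu.symm]
      · rw [if_neg hu, if_neg (Ne.symm hu)]
    rw [h1]
    split_ifs
    · exact isIntegral_one
    · exact isIntegral_zero
  · rw [mul_one, Finset.prod_const, Finset.card_univ, Fintype.card_fin, pow_one]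
    conv_lhs => rw [← AddMonoidAlgebra.sum_coeff_single (inForm φ (H i))]
    rw [Finsupp.sum]
    unfold Sums.poly
    have h1 : ∑ u ∈ S i, AddMonoidAlgebra.single u ((inForm φ (H i)).coeff u) =
        ∑ u : S i, AddMonoidAlgebra.single (u : ν → ℤ) ((inForm φ (H i)).coeff (u : ν → ℤ)) :=
      (Finset.sum_coe_sort (S i) fun u =>
        AddMonoidAlgebra.single u ((inForm φ (H i)).coeff u)).symm
    rw [h1]
    exact (Equiv.sum_comp (e i) fun u : S i =>
      AddMonoidAlgebra.single (u : ν → ℤ) ((inForm φ (H i)).coeff (u : ν → ℤ))).symm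
  · rw [Fintype.linearIndependent_iff]
    intro g hg
    set x : Fin c → ((ν → ℤ) →₀ ℤ) := fun i => ∑ l : Fin ((P i).k), g ⟨i, l⟩ •
      df ((P i).exp l.succ) ((P i).exp 0) with hx
    have hinj : ∀ i (l l' : Fin ((P i).k + 1)), (P i).exp l = (P i).exp l' → l = l' := by
      intro i l l' hl
      exact (e i).injective (Subtype.ext hl)
    have h1 := (h.indep φ hφ).eq_zero x (fun i u hu => ?_) (fun i => ?_) ?_
    · rintro ⟨i, l⟩
      have h2 : x i ((P i).exp l.succ) = 0 := by rw [h1]; rfl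
      rw [hx] at h2
      simp only at h2
      rw [Finsupp.finsetSum_apply, Finset.sum_eq_single l] at h2
      · unfold df at h2
        rw [Finsupp.smul_apply, Finsupp.sub_apply, Finsupp.single_apply, Finsupp.single_apply,
          if_pos rfl, if_neg (fun h0 => Fin.succ_ne_zero l (hinj i _ _ h0).symm), sub_zero,
          smul_eq_mul, mul_one] at h2
        exact h2
      · intro l' _ hl'
        rw [Finsupp.smul_apply, df_of_ne, smul_zero]
        · intro h0
          exact hl' (Fin.succ_injective _ (hinj i _ _ h0)).symm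
        · intro h0
          exact Fin.succ_ne_zero l (hinj i _ _ h0)
      · intro h0
        exact absurd (Finset.mem_univ _) h0
    · by_contra h0
      apply hu
      rw [hx]
      simp only
      rw [Finsupp.finsetSum_apply]
      refine Finset.sum_eq_zero fun l _ => ?_
      have h3 : ∀ l : Fin ((P i).k + 1), u ≠ (P i).exp l := by
        rintro l rfl
        exact (Finsupp.mem_support_iff.1 (e i l).2) h0
      rw [Finsupp.smul_apply, df_of_ne (h3 _) (h3 _), smul_zero]
    · rw [hx]
      simp only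
      rw [map_sum]
      exact Finset.sum_eq_zero fun l _ => by rw [map_smul, L1_df, smul_zero]
    · rw [← hg, Fintype.sum_sigma]
      refine Finset.sum_congr rfl fun i _ => ?_
      rw [hx]
      simp only
      rw [map_sum]
      exact Finset.sum_congr rfl fun l _ => by rw [map_smul, L2_df]; rfl

end simplicial

end Pool.Agent.Helper84.TP
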