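import Pool.Agent.Helper84.TP.Laurent
set_option autoImplicit false

/-!
Linear algebra of a cell: dual vectors, the lattice orthogonal to the exponents, and determinants.
-/

namespace Pool.Agent.Helper84.TP

section cell

variable {ν : Type*} [Fintype ν] [DecidableEq ν] {k d : ℕ}

/-- The matrix with the columns `p_1, …, p_k`, `ψ / (ψ · v)`, `τ_1, …, τ_d`. -/
def cellMat (p : Fin k → ν → ℚ) (ψ v : ν → ℤ) (τ : Fin d → ν → ℤ) :
    Matrix ν (Fin k ⊕ Fin (d + 1)) ℚ :=
  Matrix.of fun l x => Sum.elim (fun i => p i l)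
    (Fin.cons ((ψ l : ℚ) / dotp ψ v) fun j => (τ j l : ℚ)) x

omit [DecidableEq ν] in
theorem exists_cell (hν : Fintype.card ν = k + (d + 1)) {m : Fin k → ν → ℤ}
    (hm : LinearIndependent ℤ m) {ψ v : ν → ℤ} (hψm : ∀ i, dotp ψ (m i) = 0)
    (hψv : 0 < dotp ψ v) :
    ∃ (p : Fin k → ν → ℚ) (τ : Fin d → ν → ℤ),
      (∀ i j, ∑ l, (m i l : ℚ) * p j l = if i = j then 1 else 0) ∧
      (∀ j, ∑ l, (v l : ℚ) * p j l = 0) ∧ (∀ i j, dotp (m i) (τ j) = 0) ∧
      (∀ j, dotp v (τ j) = 0) ∧
      ∀ x, (cellMat p ψ v τ).mulVec x = 0 → x = 0 := by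
  classical
  set M : Matrix (Fin k ⊕ Unit) ν ℚ :=
    Matrix.of (Sum.elim (fun i l => (m i l : ℚ)) fun _ l => (v l : ℚ)) with hMdef
  have hmQ : LinearIndependent ℚ (fun i l => (m i l : ℚ)) := by
    refine (LinearIndependent.iff_fractionRing ℤ ℚ).1 ?_
    set F : (ν → ℤ) →ₗ[ℤ] (ν → ℚ) :=
      LinearMap.pi fun i => (Int.castAddHom ℚ).toIntLinearMap.comp (LinearMap.proj i) with hF
    refine hm.map' F ?_
    rw [LinearMap.ker_eq_bot]
    intro x z hxz
    funext i
    have := congrFun hxz i
    simpa [hF] using this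
  have hψmQ : ∀ i, ∑ l, (ψ l : ℚ) * (m i l : ℚ) = 0 := by
    intro i
    have h := hψm i
    unfold dotp at h
    exact_mod_cast h
  have hψvQ : ∑ l, (ψ l : ℚ) * (v l : ℚ) = dotp ψ v := by
    unfold dotp
    push_cast
    rfl
  have hv0 : (dotp ψ v : ℚ) ≠ 0 := by exact_mod_cast hψv.ne'
  have hM : LinearIndependent ℚ M.row := by
    rw [Fintype.linearIndependent_iff]
    intro g hg
    have h1 : ∀ l, ∑ i, g (Sum.inl i) * (m i l : ℚ) + g (Sum.inr ()) * (v l : ℚ) = 0 := by
      intro l
      have h2 := congrFun hg l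
      rw [Finset.sum_apply, Fintype.sum_sum_type] at h2
      simpa [hMdef] using h2
    have h3 : g (Sum.inr ()) = 0 := by
      have h4 : ∑ l, (ψ l : ℚ) * (∑ i, g (Sum.inl i) * (m i l : ℚ) +
          g (Sum.inr ()) * (v l : ℚ)) = 0 :=
        Finset.sum_eq_zero fun l _ => by rw [h1, mul_zero]
      have h5 : ∑ l, (ψ l : ℚ) * (∑ i, g (Sum.inl i) * (m i l : ℚ) +
          g (Sum.inr ()) * (v l : ℚ)) =
          ∑ i, g (Sum.inl i) * ∑ l, (ψ l : ℚ) * (m i l : ℚ) + g (Sum.inr ()) *
            ∑ l, (ψ l : ℚ) * (v l : ℚ) := by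
        simp only [mul_add, Finset.sum_add_distrib, Finset.mul_sum]
        rw [Finset.sum_comm]
        congr 1
        · refine Finset.sum_congr rfl fun i _ => Finset.sum_congr rfl fun l _ => by ring
        · refine Finset.sum_congr rfl fun l _ => by ring
      rw [h5] at h4
      simp only [hψmQ, mul_zero, Finset.sum_const_zero, zero_add] at h4
      rw [hψvQ] at h4
      exact (mul_eq_zero.1 h4).resolve_right hv0
    have h6 : ∀ i, g (Sum.inl i) = 0 := by
      refine Fintype.linearIndependent_iff.1 hmQ (fun i => g (Sum.inl i)) ?_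
      funext l
      have h7 := h1 l
      rw [h3, zero_mul, add_zero] at h7
      rw [Finset.sum_apply]
      exact h7
    rintro (i | u)
    · exact h6 i
    · exact h3
  have hrank : M.rank = k + 1 := by
    rw [LinearIndependent.rank_matrix hM]
    simp
  have hsurj : LinearMap.range M.mulVecLin = ⊤ := by
    apply Submodule.eq_top_of_finrank_eq
    have h1 : Module.finrank ℚ (LinearMap.range M.mulVecLin) = M.rank := rfl
    rw [h1, hrank, Module.finrank_fintype_fun_eq_card]
    simp
  have hker : Module.finrank ℚ (LinearMap.ker M.mulVecLin) = d := by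
    have h1 := LinearMap.finrank_range_add_finrank_ker M.mulVecLin
    have h2 : Module.finrank ℚ (LinearMap.range M.mulVecLin) = M.rank := rfl
    rw [h2, hrank, Module.finrank_fintype_fun_eq_card, hν] at h1
    omega
  set b := Module.finBasisOfFinrankEq ℚ (LinearMap.ker M.mulVecLin) hker with hb
  choose c τ hc hτ using fun j => exists_int_multiple ((b j : LinearMap.ker M.mulVecLin) : ν → ℚ)
  have hp : ∀ j : Fin k, ∃ x : ν → ℚ, M.mulVecLin x = Pi.single (Sum.inl j) 1 := by
    intro j
    have : (Pi.single (Sum.inl j) 1 : Fin k ⊕ Unit → ℚ) ∈ LinearMap.range M.mulVecLin := by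
      rw [hsurj]; trivial
    exact this
  choose p hp using hp
  have hM1 : ∀ (x : ν → ℚ) (i : Fin k), M.mulVecLin x (Sum.inl i) = ∑ l, (m i l : ℚ) * x l :=
    fun x i => rfl
  have hM2 : ∀ (x : ν → ℚ), M.mulVecLin x (Sum.inr ()) = ∑ l, (v l : ℚ) * x l := fun x => rfl
  have hτk : ∀ j, M.mulVecLin (fun l => (τ j l : ℚ)) = 0 := by
    intro j
    rw [← hτ j, map_smul]
    have h1 : M.mulVecLin ((b j : LinearMap.ker M.mulVecLin) : ν → ℚ) = 0 :=
      LinearMap.mem_ker.1 (b j).2
    rw [h1, smul_zero]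
  have hpm : ∀ i j, ∑ l, (m i l : ℚ) * p j l = if i = j then 1 else 0 := by
    intro i j
    rw [← hM1, hp]
    by_cases h : i = j
    · subst h; simp
    · rw [if_neg h, Pi.single_eq_of_ne (fun e => h (Sum.inl_injective e))]
  have hpv : ∀ j, ∑ l, (v l : ℚ) * p j l = 0 := by
    intro j
    rw [← hM2, hp]
    simp
  have hτm : ∀ i j, ∑ l, (m i l : ℚ) * (τ j l : ℚ) = 0 := by
    intro i j
    have h1 := congrFun (hτk j) (Sum.inl i)
    rw [hM1] at h1
    exact h1
  have hτv : ∀ j, ∑ l, (v l : ℚ) * (τ j l : ℚ) = 0 := by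
    intro j
    have h1 := congrFun (hτk j) (Sum.inr ())
    rw [hM2] at h1
    exact h1
  refine ⟨p, τ, hpm, hpv, ?_, ?_, ?_⟩
  · intro i j
    unfold dotp
    exact_mod_cast hτm i j
  · intro j
    unfold dotp
    exact_mod_cast hτv j
  · intro x hx
    have h1 : ∀ l, ∑ i, p i l * x (Sum.inl i) + ((ψ l : ℚ) / dotp ψ v * x (Sum.inr 0) +
        ∑ j, (τ j l : ℚ) * x (Sum.inr j.succ)) = 0 := by
      intro l
      have h2 := congrFun hx l
      unfold Matrix.mulVec dotProduct cellMat at h2
      rw [Fintype.sum_sum_type, Fin.sum_univ_succ] at h2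
      simpa using h2
    have key : ∀ w : ν → ℚ, ∑ i, (∑ l, w l * p i l) * x (Sum.inl i) +
        ((∑ l, w l * (ψ l : ℚ)) / dotp ψ v * x (Sum.inr 0) +
          ∑ j, (∑ l, w l * (τ j l : ℚ)) * x (Sum.inr j.succ)) = 0 := by
      intro w
      have h2 : ∑ l, w l * (∑ i, p i l * x (Sum.inl i) + ((ψ l : ℚ) / dotp ψ v * x (Sum.inr 0) +
        ∑ j, (τ j l : ℚ) * x (Sum.inr j.succ))) = 0 :=
        Finset.sum_eq_zero fun l _ => by rw [h1, mul_zero]
      rw [← h2]
      simp only [mul_add, Finset.sum_add_distrib, Finset.mul_sum, Finset.sum_mul,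
        Finset.sum_div]
      congr 1
      · rw [Finset.sum_comm]
        refine Finset.sum_congr rfl fun i _ => Finset.sum_congr rfl fun l _ => by ring
      · congr 1
        · refine Finset.sum_congr rfl fun l _ => by ring
        · rw [Finset.sum_comm]
          refine Finset.sum_congr rfl fun i _ => Finset.sum_congr rfl fun l _ => by ring
    have hx1 : ∀ i, x (Sum.inl i) = 0 := by
      intro i
      have h2 := key fun l => (m i l : ℚ)
      simp only [hpm, hτm] at h2
      have h3 : ∑ l, (m i l : ℚ) * (ψ l : ℚ) = 0 := by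
        rw [← hψmQ i]
        exact Finset.sum_congr rfl fun l _ => mul_comm _ _
      rw [h3] at h2
      simpa using h2
    have hx2 : x (Sum.inr 0) = 0 := by
      have h2 := key fun l => (v l : ℚ)
      simp only [hpv, hτv] at h2
      have h3 : ∑ l, (v l : ℚ) * (ψ l : ℚ) = dotp ψ v := by
        rw [← hψvQ]
        exact Finset.sum_congr rfl fun l _ => mul_comm _ _
      rw [h3, div_self hv0] at h2
      simpa using h2
    have hx3 : ∀ j : Fin d, x (Sum.inr j.succ) = 0 := by
      have h2 : ∑ j, (c j * x (Sum.inr j.succ)) • b j = 0 := by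
        apply Subtype.ext
        rw [AddSubmonoidClass.coe_finsetSum]
        funext l
        rw [Finset.sum_apply]
        have h3 := h1 l
        rw [hx2] at h3
        simp only [hx1, mul_zero, Finset.sum_const_zero, zero_add] at h3
        rw [ZeroMemClass.coe_zero, Pi.zero_apply, ← h3]
        refine Finset.sum_congr rfl fun j _ => ?_
        have h4 := congrFun (hτ j) l
        rw [Pi.smul_apply, smul_eq_mul] at h4
        rw [← h4, Submodule.coe_smul, Pi.smul_apply, smul_eq_mul]
        ring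
      have h5 := Fintype.linearIndependent_iff.1 b.linearIndependent _ h2
      intro j
      exact (mul_eq_zero.1 (h5 j)).resolve_left (hc j)
    funext y
    rcases y with i | j
    · exact hx1 i
    · refine Fin.cases ?_ (fun j => ?_) j
      · exact hx2
      · exact hx3 j

end cell

end Pool.Agent.Helper84.TP
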