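import Pool.Agent.Helper84.TP.Cell
set_option autoImplicit false

/-!
The determinants of a cell as minors of the exponents.
-/

namespace Pool.Agent.Helper84.TP

section det

variable {ν : Type*} [Fintype ν] [DecidableEq ν] {k d : ℕ}

/-- The sign of the permutation of `(s, g)` with respect to a fixed order. -/
noncomputable def sgn (e0 : Fin k ⊕ Fin (d + 1) ≃ ν) {s : Fin k → ν} {g : Fin (d + 1) → ν}
    (h : Function.Bijective (Sum.elim s g)) : ℚ :=
  ((Equiv.Perm.sign (e0.trans (Equiv.ofBijective _ h).symm) : ℤˣ) : ℤ)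

omit [Fintype ν] [DecidableEq ν] in
theorem sgn_ne_zero (e0 : Fin k ⊕ Fin (d + 1) ≃ ν) {s : Fin k → ν} {g : Fin (d + 1) → ν}
    (h : Function.Bijective (Sum.elim s g)) : sgn e0 h ≠ 0 := by
  unfold sgn
  exact_mod_cast Units.ne_zero _

theorem det_cell (e0 : Fin k ⊕ Fin (d + 1) ≃ ν) {m : Fin k → ν → ℤ} {ψ v : ν → ℤ}
    {p : Fin k → ν → ℚ} {τ : Fin d → ν → ℤ} (hψm : ∀ i, dotp ψ (m i) = 0)
    (hpm : ∀ i j, ∑ l, (m i l : ℚ) * p j l = if i = j then 1 else 0)
    (hτm : ∀ i j, dotp (m i) (τ j) = 0) {s : Fin k → ν} {g : Fin (d + 1) → ν}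
    (h : Function.Bijective (Sum.elim s g)) :
    (Matrix.of fun l j => cellMat p ψ v τ (g l) (Sum.inr j)).det =
      sgn e0 h * (Matrix.of fun i j => (m i (s j) : ℚ)).det *
        ((cellMat p ψ v τ).submatrix e0 id).det := by
  set e : Fin k ⊕ Fin (d + 1) ≃ ν := Equiv.ofBijective _ h with he
  have hel : ∀ i, e (Sum.inl i) = s i := fun i => rfl
  have her : ∀ l, e (Sum.inr l) = g l := fun l => rfl
  set B := cellMat p ψ v τ with hB
  set M : Matrix (Fin k ⊕ Fin (d + 1)) ν ℚ :=
    Matrix.of (Sum.elim (fun i l => (m i l : ℚ)) fun l => Pi.single (g l) 1) with hM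
  have hψmQ : ∀ i, ∑ l, (m i l : ℚ) * ((ψ l : ℚ) / dotp ψ v) = 0 := by
    intro i
    have h1 := hψm i
    unfold dotp at h1
    have h2 : ∑ l, (ψ l : ℚ) * (m i l : ℚ) = 0 := by exact_mod_cast h1
    have h3 : ∑ l, (m i l : ℚ) * ((ψ l : ℚ) / dotp ψ v) =
        (∑ l, (ψ l : ℚ) * (m i l : ℚ)) / dotp ψ v := by
      rw [Finset.sum_div]
      refine Finset.sum_congr rfl fun l _ => by ring
    rw [h3, h2, zero_div]
  have hτmQ : ∀ i j, ∑ l, (m i l : ℚ) * (τ j l : ℚ) = 0 := by
    intro i j
    have h1 := hτm i j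
    unfold dotp at h1
    exact_mod_cast h1
  have h1 : M * B = Matrix.fromBlocks 1 0 (Matrix.of fun l j => B (g l) (Sum.inl j))
      (Matrix.of fun l j => B (g l) (Sum.inr j)) := by
    ext x y
    rw [Matrix.mul_apply]
    rcases x with i | l <;> rcases y with j | j
    · rw [Matrix.fromBlocks_apply₁₁, Matrix.one_apply]
      exact hpm i j
    · rw [Matrix.fromBlocks_apply₁₂, Matrix.zero_apply]
      refine Fin.cases ?_ (fun j => ?_) j
      · exact hψmQ i
      · exact hτmQ i j
    · rw [Matrix.fromBlocks_apply₂₁, Matrix.of_apply, Finset.sum_eq_single (g l)]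
      · simp [hM]
      · intro b _ hb
        simp [hM, Pi.single_eq_of_ne hb]
      · intro h
        exact absurd (Finset.mem_univ _) h
    · rw [Matrix.fromBlocks_apply₂₂, Matrix.of_apply, Finset.sum_eq_single (g l)]
      · simp [hM]
      · intro b _ hb
        simp [hM, Pi.single_eq_of_ne hb]
      · intro h
        exact absurd (Finset.mem_univ _) h
  have h2 : (M * B).det = (Matrix.of fun l j => B (g l) (Sum.inr j)).det := by
    rw [h1, Matrix.det_fromBlocks_zero₁₂, Matrix.det_one, one_mul]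
  have h3 : (M * B).det = (M.submatrix id e0).det * (B.submatrix e0 id).det := by
    rw [← Matrix.det_mul, Matrix.submatrix_mul_equiv, Matrix.submatrix_id_id]
  have h4 : (M.submatrix id e0).det = sgn e0 h * (M.submatrix id e).det := by
    have h5 : M.submatrix id e0 = (M.submatrix id e).submatrix id (e0.trans e.symm) := by
      ext x y
      simp
    rw [h5, Matrix.det_permute']
    rfl
  have h6 : (M.submatrix id e) = Matrix.fromBlocks (Matrix.of fun i j => (m i (s j) : ℚ))
      (Matrix.of fun i l => (m i (g l) : ℚ)) 0 1 := by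
    ext x y
    rcases x with i | l <;> rcases y with j | j
    · rw [Matrix.fromBlocks_apply₁₁]
      rfl
    · rw [Matrix.fromBlocks_apply₁₂]
      rfl
    · rw [Matrix.fromBlocks_apply₂₁, Matrix.submatrix_apply, hel]
      have h7 : s j ≠ g l := by
        intro h8
        have h9 : (Sum.inl j : Fin k ⊕ Fin (d + 1)) = Sum.inr l := h.1 h8
        exact absurd h9 (by simp)
      simp [hM, Pi.single_eq_of_ne h7]
    · rw [Matrix.fromBlocks_apply₂₂, Matrix.submatrix_apply, her, Matrix.one_apply]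
      by_cases h7 : l = j
      · subst h7; simp [hM]
      · have h8 : g j ≠ g l := by
          intro h9
          have h10 : (Sum.inr j : Fin k ⊕ Fin (d + 1)) = Sum.inr l := h.1 h9
          exact h7 (Sum.inr_injective h10).symm
        simp [hM, Pi.single_eq_of_ne h8, h7]
  have h7 : (M.submatrix id e).det = (Matrix.of fun i j => (m i (s j) : ℚ)).det := by
    rw [h6, Matrix.det_fromBlocks_zero₂₁, Matrix.det_one, mul_one]
  rw [← h2, h3, h4, h7]

omit [DecidableEq ν] in
theorem cellMat_det_ne_zero (e0 : Fin k ⊕ Fin (d + 1) ≃ ν) {ψ v : ν → ℤ} {p : Fin k → ν → ℚ}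
    {τ : Fin d → ν → ℤ} (h : ∀ x, (cellMat p ψ v τ).mulVec x = 0 → x = 0) :
    ((cellMat p ψ v τ).submatrix e0 id).det ≠ 0 := by
  intro h0
  obtain ⟨x, hx0, hx⟩ := Matrix.exists_mulVec_eq_zero_iff.2 h0
  refine hx0 (h x ?_)
  funext l
  have h1 := congrFun hx (e0.symm l)
  unfold Matrix.mulVec dotProduct at h1 ⊢
  simpa using h1

end det

end Pool.Agent.Helper84.TP
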