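import Pool.Agent.Helper84.TP.Eqs
set_option autoImplicit false

/-!
The logarithmic coordinates of the torus of a mixed cell.
-/

namespace Pool.Agent.Helper84.TP

open Pool.Agent.TH826.MK

section cellz

variable {K : Type*} [Field K] {ν : Type*} [Fintype ν] {k d : ℕ}
  {F : Fin k → Lau K ν} {W : Lau K ν}

/-- the dual vectors -/
noncomputable def phat (psi v : ν → ℤ) (p : Fin k → ν → ℚ) : Fin (k + 1) → ν → ℝ :=
  Fin.cons (fun l => -((psi l : ℝ) / dotp psi v)) fun i l => (p i l : ℝ)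

/-- the exponents -/
noncomputable def mhat (c : MixedCell F W) : Fin (k + 1) → ν → ℤ := Fin.cons (-c.v) c.m

/-- the base exponents -/
noncomputable def obase (c : MixedCell F W) : Fin (k + 1) → ν → ℤ := Fin.cons c.v c.b

/-- the coefficients -/
noncomputable def tco (σ : K →+* ℂ) (c : MixedCell F W) (x : Fin (k + 1)) (u : ν → ℤ) : ℂ :=
  Fin.cases (restW σ W c.v u) (fun i => restP σ (F i) (c.a i) (c.b i) u) x

theorem dual_phat (c : MixedCell F W) {p : Fin k → ν → ℚ}
    (hpm : ∀ i j, ∑ l, (c.m i l : ℚ) * p j l = if i = j then 1 else 0)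
    (hpv : ∀ j, ∑ l, (c.v l : ℚ) * p j l = 0) (x y : Fin (k + 1)) :
    ∑ l, (mhat c x l : ℝ) * phat c.psi c.v p y l = if x = y then 1 else 0 := by
  have hv0 : (dotp c.psi c.v : ℝ) ≠ 0 := by exact_mod_cast c.hpos.ne'
  have hm0 : ∀ i, ∑ l, (c.m i l : ℝ) * (c.psi l : ℝ) = 0 := by
    intro i
    have h1 : dotp c.psi (c.m i) = 0 := by
      unfold MixedCell.m
      rw [dotp_sub, c.hab i, sub_self]
    unfold dotp at h1
    rw [← Int.cast_zero, ← h1]
    push_cast
    exact Finset.sum_congr rfl fun l _ => mul_comm _ _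
  have hvv : ∑ l, (c.v l : ℝ) * (c.psi l : ℝ) = dotp c.psi c.v := by
    unfold dotp
    push_cast
    exact Finset.sum_congr rfl fun l _ => mul_comm _ _
  refine Fin.cases ?_ (fun i => ?_) x
  · refine Fin.cases ?_ (fun j => ?_) y
    · simp only [mhat, phat, Fin.cons_zero, if_true, Pi.neg_apply, Int.cast_neg]
      have e : ∑ l, -(c.v l : ℝ) * -((c.psi l : ℝ) / dotp c.psi c.v) =
          (∑ l, (c.v l : ℝ) * (c.psi l : ℝ)) / dotp c.psi c.v := by
        rw [Finset.sum_div]
        exact Finset.sum_congr rfl fun l _ => by ring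
      rw [e, hvv, div_self hv0]
    · simp only [mhat, phat, Fin.cons_zero, Fin.cons_succ, Pi.neg_apply, Int.cast_neg]
      rw [if_neg (Fin.succ_ne_zero j).symm]
      have h1 : (((∑ l, (c.v l : ℚ) * p j l : ℚ)) : ℝ) = 0 := by rw [hpv j]; simp
      push_cast at h1
      simp only [neg_mul, Finset.sum_neg_distrib, h1, neg_zero]
  · refine Fin.cases ?_ (fun j => ?_) y
    · simp only [mhat, phat, Fin.cons_zero, Fin.cons_succ]
      rw [if_neg (Fin.succ_ne_zero i)]
      have e : ∑ l, (c.m i l : ℝ) * -((c.psi l : ℝ) / dotp c.psi c.v) =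
          -((∑ l, (c.m i l : ℝ) * (c.psi l : ℝ)) / dotp c.psi c.v) := by
        rw [Finset.sum_div, ← Finset.sum_neg_distrib]
        exact Finset.sum_congr rfl fun l _ => by ring
      rw [e, hm0, zero_div, neg_zero]
    · simp only [mhat, phat, Fin.cons_succ, Fin.succ_inj]
      have h1 : (((∑ l, (c.m i l : ℚ) * p j l : ℚ)) : ℝ) = ((if i = j then 1 else 0 : ℚ) : ℝ) := by
        rw [hpm i j]
      push_cast at h1
      rw [h1]
      split_ifs <;> simp

theorem tco_pos (σ : K →+* ℂ) (c : MixedCell F W) (p : Fin k → ν → ℚ) (x : Fin (k + 1))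
    (u : ν → ℤ) (h : tco σ c x u ≠ 0) :
    0 < ∑ l, ((u - obase c x) l : ℝ) * phat c.psi c.v p 0 l := by
  have hv0 : (0 : ℝ) < dotp c.psi c.v := by exact_mod_cast c.hpos
  have h1 : dotp c.psi u < dotp c.psi (obase c x) := by
    revert h
    refine Fin.cases ?_ (fun i => ?_) x
    · intro h
      simp only [tco, Fin.cases_zero, restW] at h
      by_cases huv : u = c.v
      · exact absurd (if_pos huv) h
      rw [if_neg huv] at h
      refine c.hW u (fun h0 => h ?_) huv
      rw [h0, map_zero, zero_div]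
    · intro h
      simp only [tco, Fin.cases_succ, restP] at h
      by_cases huv : u = c.a i ∨ u = c.b i
      · exact absurd (if_pos huv) h
      rw [if_neg huv] at h
      rw [not_or] at huv
      refine c.hF i u (fun h0 => h ?_) huv.1 huv.2
      rw [h0, map_zero, zero_div]
  have e : ∑ l, ((u - obase c x) l : ℝ) * phat c.psi c.v p 0 l =
      ((dotp c.psi (obase c x) - dotp c.psi u : ℤ) : ℝ) / dotp c.psi c.v := by
    unfold phat
    simp only [Fin.cons_zero]
    rw [← dotp_sub]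
    unfold dotp
    push_cast
    rw [Finset.sum_div]
    refine Finset.sum_congr rfl fun l _ => ?_
    rw [Pi.sub_apply, Pi.sub_apply]
    push_cast
    ring
  rw [e]
  refine div_pos ?_ hv0
  have : 0 < dotp c.psi (obase c x) - dotp c.psi u := by linarith
  exact_mod_cast this

/-- The logarithmic coordinates of the torus. -/
theorem exists_zeta (σ : K →+* ℂ) (c : MixedCell F W) {p : Fin k → ν → ℚ} {τ : Fin d → ν → ℤ}
    (hpm : ∀ i j, ∑ l, (c.m i l : ℚ) * p j l = if i = j then 1 else 0)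
    (hpv : ∀ j, ∑ l, (c.v l : ℚ) * p j l = 0) (hτm : ∀ i j, dotp (c.m i) (τ j) = 0)
    (hτv : ∀ j, dotp c.v (τ j) = 0) {ε : ℝ} (hε : 0 < ε) :
    ∃ (Λ : ℝ) (q : Fin k → ℂ), ∀ lam : K, Λ ≤ ‖σ lam‖ → ∃ h : (Fin d → ℝ) → Fin (k + 1) → ℂ,
      ContDiff ℝ 2 h ∧ (∀ θ j, h (θ + Pi.single j 1) = h θ) ∧
      (∀ θ i, evz σ (zeta (Fin.cons (Complex.log (σ (W.coeff c.v) / σ lam)) q)
        (phat c.psi c.v p) τ h θ) (sys F W lam i) = 0) ∧
      (∀ θ, ‖h θ‖ ≤ ε) ∧ ∀ θ j, ‖fderiv ℝ h θ (Pi.single j 1)‖ ≤ ε := by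
  classical
  set U : Finset (ν → ℤ) := W.coeff.support ∪
    Finset.univ.biUnion fun i => (F i).coeff.support with hU
  have hWU : W.coeff.support ⊆ U := Finset.subset_union_left
  have hFU : ∀ i, (F i).coeff.support ⊆ U := fun i =>
    (Finset.subset_biUnion_of_mem (fun i => (F i).coeff.support) (Finset.mem_univ i)).trans
      Finset.subset_union_right
  set ph := phat c.psi c.v p with hph
  set q : Fin k → ℂ := fun i =>
    Complex.log (-σ ((F i).coeff (c.b i)) / σ ((F i).coeff (c.a i))) with hq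
  set e : Fin (k + 1) × U → ν → ℤ := fun s => s.2.1 - obase c s.1 with he
  set αr : Fin (k + 1) × U → Fin (k + 1) → ℝ := fun s y => ∑ l, (e s l : ℝ) * ph y l with hαr
  set T : Fin (k + 1) × U → ℂ := fun s => tco σ c s.1 s.2.1 with hT
  obtain ⟨η, hη, hper⟩ := exists_periodic (S := Fin (k + 1) × U) (c := k + 1) (d := d) Prod.fst
    (fun s y => (αr s y : ℂ)) (fun s j => dotp (e s) (τ j)) hε
  obtain ⟨M, hM⟩ := exists_tiny T αr q (fun s hs => tco_pos σ c p s.1 s.2.1 hs) hη
  have hσv : σ (W.coeff c.v) ≠ 0 := (map_ne_zero σ).2 c.hv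
  refine ⟨Real.exp (Real.log ‖σ (W.coeff c.v)‖ - M), q, fun lam hlam => ?_⟩
  have hl0 : 0 < ‖σ lam‖ := (Real.exp_pos _).trans_le hlam
  have hσl : σ lam ≠ 0 := norm_pos_iff.1 hl0
  have hlam0 : lam ≠ 0 := fun h => hσl (by rw [h, map_zero])
  set q0 : ℂ := Complex.log (σ (W.coeff c.v) / σ lam) with hq0
  set Q : Fin (k + 1) → ℂ := Fin.cons q0 q with hQ
  have hq0re : q0.re ≤ M := by
    rw [hq0, Complex.log_re, norm_div, Real.log_div (norm_ne_zero_iff.2 hσv) hl0.ne']
    have h1 := Real.log_le_log (Real.exp_pos _) hlam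
    rw [Real.log_exp] at h1
    linarith
  obtain ⟨h, hh1, hh2, hh3, hh4, hh5⟩ := hper
    (fun s => T s * Complex.exp (∑ y, Q y * (αr s y : ℂ))) (hM q0 hq0re)
  refine ⟨h, hh1, hh2, fun θ => ?_, hh4, hh5⟩
  set ζ := zeta Q ph τ h θ with hζ
  -- the perturbed equation in terms of `ζ`
  have key : ∀ x, 1 - Complex.exp (h θ x) + ∑ u ∈ U, tco σ c x u *
      Complex.exp (dotz (u - obase c x) ζ) = 0 := by
    intro x
    have h1 := hh3 θ x
    have h2 : ∀ s : Fin (k + 1) × U, wt (fun s j => dotp (e s) (τ j))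
        (fun s => T s * Complex.exp (∑ y, Q y * (αr s y : ℂ))) θ s *
        Complex.exp (∑ j, h θ j * (αr s j : ℂ)) =
        tco σ c s.1 s.2.1 * Complex.exp (dotz (s.2.1 - obase c s.1) ζ) := by
      intro s
      unfold wt
      rw [hζ, dotz_zeta]
      simp only [add_mul, Finset.sum_add_distrib]
      rw [mul_assoc (T s), ← Complex.exp_add, mul_assoc (T s), ← Complex.exp_add]
      have e1 : (∑ y, Q y * (αr s y : ℂ) + 2 * Real.pi * Complex.I *
          ∑ j, (θ j : ℂ) * (dotp (e s) (τ j) : ℂ) + ∑ j, h θ j * (αr s j : ℂ)) =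
          (∑ y, Q y * (αr s y : ℂ) + ∑ j, h θ j * (αr s j : ℂ) + 2 * Real.pi * Complex.I *
          ∑ j, (θ j : ℂ) * (dotp (e s) (τ j) : ℂ)) := by ring
      rw [e1]
    rw [← h1]
    congr 1
    rw [Fintype.sum_prod_type]
    have h3 : ∀ y : Fin (k + 1), ∑ u : U, (if (y, u).1 = x then (1 : ℂ) else 0) *
        (wt (fun s j => dotp (e s) (τ j))
        (fun s => T s * Complex.exp (∑ y, Q y * (αr s y : ℂ))) θ (y, u) *
        Complex.exp (∑ j, h θ j * (αr (y, u) j : ℂ))) =
        if y = x then ∑ u : U, tco σ c y u.1 * Complex.exp (dotz (u.1 - obase c y) ζ) else 0 := by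
      intro y
      by_cases hyx : y = x
      · rw [if_pos hyx]
        refine Finset.sum_congr rfl fun u _ => ?_
        rw [if_pos hyx, one_mul, h2]
      · rw [if_neg hyx]
        refine Finset.sum_eq_zero fun u _ => ?_
        rw [if_neg hyx, zero_mul]
    rw [Finset.sum_congr rfl fun y _ => h3 y, Finset.sum_ite_eq' Finset.univ x,
      if_pos (Finset.mem_univ x)]
    exact (Finset.sum_coe_sort U
      fun u => tco σ c x u * Complex.exp (dotz (u - obase c x) ζ)).symm
  -- the dominating terms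
  have hdual : ∀ x, dotz (mhat c x) ζ = Q x + h θ x := by
    intro x
    refine dotz_zeta_of_dual Q ph τ h θ _ x (fun y => dual_phat c hpm hpv x y) fun j => ?_
    refine Fin.cases ?_ (fun i => ?_) x
    · simp only [mhat, Fin.cons_zero]
      have h1 : dotp (-c.v) (τ j) = -dotp c.v (τ j) := by
        unfold dotp
        rw [← Finset.sum_neg_distrib]
        exact Finset.sum_congr rfl fun l _ => by rw [Pi.neg_apply, neg_mul]
      rw [h1, hτv j, neg_zero]
    · simp only [mhat, Fin.cons_succ]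
      exact hτm i j
  intro x
  refine Fin.cases ?_ (fun i => ?_) x
  · unfold sys
    rw [Fin.cons_zero]
    refine evz_lam_eq_zero c.hv hWU (x := h θ 0) hlam0 ?_ ?_
    · have h1 := hdual 0
      simp only [mhat, Fin.cons_zero] at h1
      rw [h1, Complex.exp_add, hQ, Fin.cons_zero, hq0, Complex.exp_log (div_ne_zero hσv hσl)]
    · exact key 0
  · unfold sys
    rw [Fin.cons_succ]
    have ha : σ ((F i).coeff (c.a i)) ≠ 0 := (map_ne_zero σ).2 (c.ha i)
    have hb : σ ((F i).coeff (c.b i)) ≠ 0 := (map_ne_zero σ).2 (c.hb i)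
    have hab : c.a i ≠ c.b i := by
      intro h0
      have h1 := hpm i i
      rw [if_pos rfl] at h1
      have h2 : c.m i = 0 := by
        unfold MixedCell.m
        rw [h0, sub_self]
      rw [h2] at h1
      simp at h1
    refine evz_eq_zero (c.ha i) (c.hb i) hab (hFU i) (x := h θ i.succ) ?_ ?_
    · have h1 := hdual i.succ
      simp only [mhat, Fin.cons_succ] at h1
      have h2 : dotz (c.a i - c.b i) ζ = Q i.succ + h θ i.succ := h1
      rw [h2, Complex.exp_add, hQ, Fin.cons_succ, hq]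
      simp only
      rw [Complex.exp_log (div_ne_zero (neg_ne_zero.2 hb) ha)]
    · exact key i.succ

end cellz

end Pool.Agent.Helper84.TP
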