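import Pool.Agent.Helper84.TP.Unram
import Pool.Agent.TH826.SX.Final
set_option autoImplicit false

/-!
Evaluation at complex points `y = exp ζ`, the coordinate ring, and tori.
-/

namespace Pool.Agent.Helper84.TP

open Pool.Agent.TH826.MK

section ev

variable {K : Type*} [Field K] {ν : Type*} [Fintype ν] {σ : K →+* ℂ}

/-- `u · ζ` -/
noncomputable def dotz (u : ν → ℤ) (ζ : ν → ℂ) : ℂ := ∑ l, (u l : ℂ) * ζ l

theorem dotz_add (u w : ν → ℤ) (ζ : ν → ℂ) : dotz (u + w) ζ = dotz u ζ + dotz w ζ := by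
  unfold dotz
  rw [← Finset.sum_add_distrib]
  exact Finset.sum_congr rfl fun l _ => by rw [Pi.add_apply, Int.cast_add, add_mul]

theorem dotz_sub (u w : ν → ℤ) (ζ : ν → ℂ) : dotz (u - w) ζ = dotz u ζ - dotz w ζ := by
  unfold dotz
  rw [← Finset.sum_sub_distrib]
  exact Finset.sum_congr rfl fun l _ => by rw [Pi.sub_apply, Int.cast_sub, sub_mul]

theorem dotz_neg (u : ν → ℤ) (ζ : ν → ℂ) : dotz (-u) ζ = -dotz u ζ := by
  unfold dotz
  rw [← Finset.sum_neg_distrib]
  exact Finset.sum_congr rfl fun l _ => by rw [Pi.neg_apply, Int.cast_neg, neg_mul]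

theorem dotz_zero (ζ : ν → ℂ) : dotz (0 : ν → ℤ) ζ = 0 := by
  unfold dotz
  simp

theorem dotz_single [DecidableEq ν] (i : ν) (ζ : ν → ℂ) :
    dotz (Pi.single i 1 : ν → ℤ) ζ = ζ i := by
  unfold dotz
  rw [Finset.sum_eq_single i]
  · simp
  · intro j _ hj
    simp [Pi.single_eq_of_ne hj]
  · intro h
    exact absurd (Finset.mem_univ i) h

/-- the character `u ↦ exp (u · ζ)` -/
noncomputable def chz (ζ : ν → ℂ) : Multiplicative (ν → ℤ) →* ℂ where
  toFun u := Complex.exp (dotz u.toAdd ζ)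
  map_one' := by
    rw [toAdd_one, dotz_zero, Complex.exp_zero]
  map_mul' u w := by
    rw [toAdd_mul, dotz_add, Complex.exp_add]

/-- Evaluation of Laurent polynomials at the point `y = exp ζ`. -/
noncomputable def evz (σ : K →+* ℂ) (ζ : ν → ℂ) : Lau K ν →+* ℂ :=
  AddMonoidAlgebra.liftNCRingHom σ (chz ζ) fun _ _ => Commute.all _ _

theorem evz_single (ζ : ν → ℂ) (u : ν → ℤ) (x : K) :
    evz σ ζ (AddMonoidAlgebra.single u x) = σ x * Complex.exp (dotz u ζ) :=
  AddMonoidAlgebra.liftNCRingHom_single _ _ _ _ _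

theorem evz_eq (ζ : ν → ℂ) (P : Lau K ν) :
    evz σ ζ P = ∑ u ∈ P.coeff.support, σ (P.coeff u) * Complex.exp (dotz u ζ) := by
  conv_lhs => rw [← AddMonoidAlgebra.sum_coeff_single P]
  rw [Finsupp.sum, map_sum]
  exact Finset.sum_congr rfl fun u _ => evz_single ζ u _

theorem evz_eq_of_subset (ζ : ν → ℂ) (P : Lau K ν) {U : Finset (ν → ℤ)}
    (hU : P.coeff.support ⊆ U) :
    evz σ ζ P = ∑ u ∈ U, σ (P.coeff u) * Complex.exp (dotz u ζ) := by
  rw [evz_eq]
  refine Finset.sum_subset hU fun u _ hu => ?_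
  rw [Finsupp.notMem_support_iff.1 hu, map_zero, zero_mul]

end ev

section ring

variable {K : Type*} [Field K] {ν : Type*} {k : ℕ}

/-- The equations `W - λ = 0`, `F_0 = 0`, …, `F_(k-1) = 0`. -/
noncomputable def sys (F : Fin k → Lau K ν) (W : Lau K ν) (lam : K) : Fin (k + 1) → Lau K ν :=
  Fin.cons (W - AddMonoidAlgebra.single 0 lam) F

/-- The coordinate ring of the complete intersection `F_0 = 0, …, F_(k-1) = 0, W = λ` in the torus
with the coordinates `y_i`, `i ∈ ν`. -/
def XRing (F : Fin k → Lau K ν) (W : Lau K ν) (lam : K) : Type _ :=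
  Lau K ν ⧸ Ideal.span (Set.range (sys F W lam))

variable (F : Fin k → Lau K ν) (W : Lau K ν) (lam : K)

noncomputable instance : CommRing (XRing F W lam) :=
  Ideal.Quotient.commRing (Ideal.span (Set.range (sys F W lam)))

/-- The restriction of Laurent polynomials. -/
noncomputable def toX : Lau K ν →+* XRing F W lam :=
  Ideal.Quotient.mk (Ideal.span (Set.range (sys F W lam)))

/-- The constants. -/
noncomputable def xcst : K →+* XRing F W lam :=
  (toX F W lam).comp AddMonoidAlgebra.singleZeroRingHom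

/-- The coordinate `y_i` as a unit of the coordinate ring. -/
noncomputable def xu [DecidableEq ν] (i : ν) : (XRing F W lam)ˣ :=
  Units.map (toX F W lam : Lau K ν →* XRing F W lam) (yu K i)

theorem toX_sys (i : Fin (k + 1)) : toX F W lam (sys F W lam i) = 0 :=
  Ideal.Quotient.eq_zero_iff_mem.2 (Ideal.subset_span ⟨i, rfl⟩)

end ring

section torus

variable {K : Type*} [Field K] {ν : Type*} [Fintype ν] {k n : ℕ} {σ : K →+* ℂ}
  {F : Fin k → Lau K ν} {W : Lau K ν} {lam : K}

/-- Evaluation of the regular functions. -/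
noncomputable def evX {ζ : ν → ℂ} (h : ∀ i, evz σ ζ (sys F W lam i) = 0) :
    XRing F W lam →+* ℂ :=
  Ideal.Quotient.lift (Ideal.span (Set.range (sys F W lam))) (evz σ ζ) (by
    intro a ha
    have h1 : Ideal.span (Set.range (sys F W lam)) ≤ RingHom.ker (evz σ ζ) := by
      rw [Ideal.span_le]
      rintro _ ⟨i, rfl⟩
      exact h i
    exact h1 ha)

theorem evX_toX {ζ : ν → ℂ} (h : ∀ i, evz σ ζ (sys F W lam i) = 0) (P : Lau K ν) :
    evX h (toX F W lam P) = evz σ ζ P := by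
  unfold evX toX
  exact Ideal.Quotient.lift_mk _ _ _

theorem evX_xu [DecidableEq ν] {ζ : ν → ℂ} (h : ∀ i, evz σ ζ (sys F W lam i) = 0) (i : ν) :
    evX h (xu F W lam i : XRing F W lam) = Complex.exp (ζ i) := by
  have h1 : (xu F W lam i : XRing F W lam) =
      toX F W lam (AddMonoidAlgebra.single (Pi.single i 1) 1) := rfl
  rw [h1, evX_toX, evz_single, map_one, one_mul, dotz_single]

theorem evX_xcst {ζ : ν → ℂ} (h : ∀ i, evz σ ζ (sys F W lam i) = 0) (x : K) :
    evX h (xcst F W lam x) = σ x := by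
  have h1 : xcst F W lam x = toX F W lam (AddMonoidAlgebra.single 0 x) := rfl
  rw [h1, evX_toX, evz_single, dotz_zero, Complex.exp_zero, mul_one]

/-- The torus `exp ζ(θ)`. -/
noncomputable def mkT (ζ : (Fin n → ℝ) → ν → ℂ) (τ : Fin n → ν → ℤ) (hc : ContDiff ℝ 2 ζ)
    (hp : ∀ θ j, ζ (θ + Pi.single j 1) = ζ θ + fun l => 2 * Real.pi * Complex.I * (τ j l : ℂ))
    (h : ∀ θ i, evz σ (ζ θ) (sys F W lam i) = 0) : Torus (XRing F W lam) n where
  e θ := evX (h θ)
  smooth a := by
    obtain ⟨P, rfl⟩ : ∃ P, toX F W lam P = a := Ideal.Quotient.mk_surjective a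
    simp only [evX_toX, evz_eq]
    refine ContDiff.sum fun u _ => contDiff_const.mul ?_
    apply ContDiff.cexp
    unfold dotz
    exact ContDiff.sum fun l _ => contDiff_const.mul (contDiff_pi.1 hc l)
  periodic θ j := by
    refine RingHom.ext fun a => ?_
    obtain ⟨P, rfl⟩ : ∃ P, toX F W lam P = a := Ideal.Quotient.mk_surjective a
    rw [evX_toX, evX_toX, evz_eq, evz_eq]
    refine Finset.sum_congr rfl fun u _ => ?_
    congr 1
    have h1 : dotz u (ζ (θ + Pi.single j 1)) = dotz u (ζ θ) +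
        (dotp u (τ j) : ℤ) * (2 * Real.pi * Complex.I) := by
      rw [hp]
      unfold dotz dotp
      push_cast
      rw [Finset.sum_mul, ← Finset.sum_add_distrib]
      refine Finset.sum_congr rfl fun l _ => ?_
      rw [Pi.add_apply]
      ring
    rw [h1, Complex.exp_add, Complex.exp_int_mul_two_pi_mul_I, mul_one]

variable [DecidableEq ν] (ζ : (Fin n → ℝ) → ν → ℂ) (τ : Fin n → ν → ℤ) (hc : ContDiff ℝ 2 ζ)
    (hp : ∀ θ j, ζ (θ + Pi.single j 1) = ζ θ + fun l => 2 * Real.pi * Complex.I * (τ j l : ℂ))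
    (h : ∀ θ i, evz σ (ζ θ) (sys F W lam i) = 0)

theorem mkT_xu (i : ν) : (mkT ζ τ hc hp h).fn (xu F W lam i : XRing F W lam) =
    fun θ => Complex.exp (ζ θ i) := by
  funext θ
  exact evX_xu (h θ) i

omit [DecidableEq ν] in
theorem mkT_xcst (θ : Fin n → ℝ) (x : K) : (mkT ζ τ hc hp h).e θ (xcst F W lam x) = σ x :=
  evX_xcst (h θ) x

end torus

section lw

variable {n : ℕ}

theorem lw_exp {f : (Fin n → ℝ) → ℂ} (hf : ContDiff ℝ 2 f) (j : Fin n) (θ : Fin n → ℝ) :
    lw (fun θ => Complex.exp (f θ)) j θ = fderiv ℝ f θ (Pi.single j 1) := by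
  have h1 : HasFDerivAt f (fderiv ℝ f θ) θ := ((hf.differentiable (by norm_num)) θ).hasFDerivAt
  unfold lw
  rw [h1.cexp.fderiv]
  rw [smul_apply, smul_eq_mul, mul_comm, mul_div_assoc, div_self (Complex.exp_ne_zero _), mul_one]

theorem log_norm_exp (z : ℂ) : Real.log ‖Complex.exp z‖ = z.re := by
  rw [Complex.norm_exp, Real.log_exp]

end lw

end Pool.Agent.Helper84.TP
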