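import Pool.Agent.Helper84.TP.Unram
import Pool.Agent.Helper84.TP.Point
set_option autoImplicit false

/-!
The symbols of the coordinates of tempered complete intersections are unramified.
-/

namespace Pool.Agent.Helper84.TP

open Pool.Agent.TH826.MK

section interior

variable {K : Type*} [Field K] {ν : Type*} [Fintype ν] {k : ℕ}

/-- `0` is an interior point of the Newton polytope of `W`: every `φ ≠ 0` is negative on some
exponent of `W`. -/
def Interior (W : Lau K ν) : Prop :=
  ∀ φ : ν → ℤ, φ ≠ 0 → ∃ u : ν → ℤ, W.coeff u ≠ 0 ∧ dotp φ u < 0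

theorem inForm_coeff_pos (φ : ν → ℤ) (P : Lau K ν) (u : ν → ℤ)
    (h : ∀ w ∈ P.coeff.support, dotp φ u ≤ dotp φ w) : (inForm φ P).coeff u = P.coeff u :=
  inForm_apply_of_mem h

theorem inForm_coeff_neg (φ : ν → ℤ) (P : Lau K ν) (u : ν → ℤ)
    (h : ¬ ∀ w ∈ P.coeff.support, dotp φ u ≤ dotp φ w) : (inForm φ P).coeff u = 0 := by
  unfold inForm
  rw [AddMonoidAlgebra.coeff_ofCoeff]
  exact Finsupp.filter_apply_neg _ _ h

theorem coeff_sub_single_of_ne (W : Lau K ν) (lam : K) {u : ν → ℤ} (hu : u ≠ 0) :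
    (W - AddMonoidAlgebra.single 0 lam).coeff u = W.coeff u := by
  rw [AddMonoidAlgebra.coeff_sub, Finsupp.sub_apply, AddMonoidAlgebra.coeff_single,
    Finsupp.single_apply, if_neg (Ne.symm hu), sub_zero]

theorem inForm_sub_single {φ : ν → ℤ} {W : Lau K ν} (lam : K) {u₀ : ν → ℤ}
    (h0 : W.coeff u₀ ≠ 0) (h1 : dotp φ u₀ < 0) :
    inForm φ (W - AddMonoidAlgebra.single 0 lam) = inForm φ W := by
  have hne : ∀ {u : ν → ℤ}, dotp φ u < 0 → u ≠ 0 := by
    rintro u hu rfl
    rw [dotp_zero] at hu
    exact lt_irrefl _ hu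
  have hu0 : (W - AddMonoidAlgebra.single 0 lam).coeff u₀ ≠ 0 := by
    rw [coeff_sub_single_of_ne W lam (hne h1)]
    exact h0
  refine AddMonoidAlgebra.ext (Finsupp.ext fun u => ?_)
  by_cases hu : dotp φ u < 0
  · have e1 : (∀ w ∈ (W - AddMonoidAlgebra.single 0 lam).coeff.support, dotp φ u ≤ dotp φ w) ↔
        ∀ w ∈ W.coeff.support, dotp φ u ≤ dotp φ w := by
      constructor
      · intro h w hw
        by_cases hw0 : w = 0
        · rw [hw0, dotp_zero]
          exact hu.le
        · refine h w (Finsupp.mem_support_iff.2 ?_)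
          rw [coeff_sub_single_of_ne W lam hw0]
          exact Finsupp.mem_support_iff.1 hw
      · intro h w hw
        by_cases hw0 : w = 0
        · rw [hw0, dotp_zero]
          exact hu.le
        · refine h w (Finsupp.mem_support_iff.2 ?_)
          rw [← coeff_sub_single_of_ne W lam hw0]
          exact Finsupp.mem_support_iff.1 hw
    by_cases h : ∀ w ∈ W.coeff.support, dotp φ u ≤ dotp φ w
    · rw [inForm_coeff_pos φ W u h, inForm_coeff_pos φ _ u (e1.2 h),
        coeff_sub_single_of_ne W lam (hne hu)]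
    · rw [inForm_coeff_neg φ W u h, inForm_coeff_neg φ _ u fun h' => h (e1.1 h')]
  · rw [inForm_coeff_neg φ _ u, inForm_coeff_neg φ _ u]
    · intro h
      have := h u₀ (Finsupp.mem_support_iff.2 h0)
      omega
    · intro h
      have := h u₀ (Finsupp.mem_support_iff.2 hu0)
      omega

/-- If `0` is an interior point of the Newton polytope of `W`, then the system `W - λ, F` is
tempered for all `λ` if `W, F` is. -/
theorem tempered_sys {F : Fin k → Lau K ν} {W : Lau K ν} (hI : Interior W)
    (hT : Tempered (Fin.cons W F : Fin (k + 1) → Lau K ν)) (lam : K) :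
    Tempered (sys F W lam) := by
  intro φ hφ
  obtain ⟨u₀, h0, h1⟩ := hI φ hφ
  obtain ⟨R, l, P, hR, hprod, hind⟩ := hT φ hφ
  refine ⟨R, l, P, hR, fun i => ?_, hind⟩
  rw [← hprod i]
  congr 1
  unfold sys
  refine Fin.cases ?_ (fun i => ?_) i
  · rw [Fin.cons_zero, Fin.cons_zero]
    exact inForm_sub_single lam h0 h1
  · rw [Fin.cons_succ, Fin.cons_succ]

end interior

section unr

variable {K : Type*} [Field K] {ν : Type*} [Fintype ν] [DecidableEq ν] {k d : ℕ}
  {F : Fin k → Lau K ν} {W : Lau K ν} {lam : K}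

theorem symb_mem_unramified {L : Type*} [Field L] (hν : Fintype.card ν = k + (d + 1))
    (hint : ∀ i u, IsIntegral ℤ ((sys F W lam i).coeff u)) (hT : Tempered (sys F W lam))
    (f : XRing F W lam →+* L) (g : Fin (d + 1) → ν) :
    KQ.map (d + 1) f (symb fun l => xu F W lam (g l)) ∈ Unramified L (d + 1) := by
  rw [KQ.map_symb]
  unfold Unramified
  simp only [Submodule.mem_iInf]
  intro v _
  have h1 : (fun l => Units.map (f : XRing F W lam →* L) (xu F W lam (g l))) =
      fun l => yL (f.comp (toX F W lam)) (g l) := by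
    funext l
    exact Units.ext rfl
  rw [h1]
  refine symb_mem_unitPart (F := f.comp (toX F W lam)) hint hT (fun i => ?_) (by omega) v g
  rw [RingHom.comp_apply, toX_sys, map_zero]

omit [DecidableEq ν] in
theorem isIntegral_sys {F : Fin k → Lau K ν} {W : Lau K ν}
    (hF : ∀ i u, IsIntegral ℤ ((F i).coeff u)) (hW : ∀ u, IsIntegral ℤ (W.coeff u))
    (hl : IsIntegral ℤ lam) (i : Fin (k + 1)) (u : ν → ℤ) :
    IsIntegral ℤ ((sys F W lam i).coeff u) := by
  unfold sys
  refine Fin.cases ?_ (fun i => ?_) i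
  · rw [Fin.cons_zero, AddMonoidAlgebra.coeff_sub, Finsupp.sub_apply,
      AddMonoidAlgebra.coeff_single, Finsupp.single_apply]
    refine (hW u).sub ?_
    split_ifs
    · exact hl
    · exact isIntegral_zero
  · rw [Fin.cons_succ]
    exact hF i u

end unr

end Pool.Agent.Helper84.TP
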