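import Pool.Agent.Helper84.TP.Generic
import Pool.Agent.Helper84.TP.Unr
set_option autoImplicit false

/-!
Edges of the Newton polytopes of simplicial systems.
-/

namespace Pool.Agent.Helper84.TP

section indep

variable {K : Type*} [Field K] {ν : Type*} [Fintype ν]

/-- The exponents of the initial forms in the direction `φ` are jointly affinely independent:
integral combinations `x_i` of the exponents of the initial forms of the `H_i`, such that the sum of
the coefficients of each `x_i` vanishes and the sum of the vectors `∑_u x_{i,u} u` vanishes, are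
trivial. -/
def Indep {c : ℕ} (H : Fin c → Lau K ν) (φ : ν → ℤ) : Prop :=
  ∀ x : Fin c → ((ν → ℤ) →₀ ℤ), (∀ i u, x i u ≠ 0 → (inForm φ (H i)).coeff u ≠ 0) →
    (∀ i, (x i).sum (fun _ n => n) = 0) → ∑ i, (x i).sum (fun u n => n • u) = 0 → x = 0

/-- the sum of the coefficients -/
noncomputable def L1 (ν : Type*) : ((ν → ℤ) →₀ ℤ) →ₗ[ℤ] ℤ :=
  Finsupp.linearCombination ℤ fun _ => (1 : ℤ)

/-- the vector -/
noncomputable def L2 (ν : Type*) : ((ν → ℤ) →₀ ℤ) →ₗ[ℤ] (ν → ℤ) := Finsupp.linearCombination ℤ id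

omit [Fintype ν] in
theorem L1_eq (x : (ν → ℤ) →₀ ℤ) : L1 ν x = x.sum fun _ n => n := by
  unfold L1
  rw [Finsupp.linearCombination_apply]
  simp

omit [Fintype ν] in
theorem L2_eq (x : (ν → ℤ) →₀ ℤ) : L2 ν x = x.sum fun u n => n • u := rfl

/-- the difference of two points -/
noncomputable def df (a b : ν → ℤ) : (ν → ℤ) →₀ ℤ := Finsupp.single a 1 - Finsupp.single b 1

omit [Fintype ν] in
theorem L1_df (a b : ν → ℤ) : L1 ν (df a b) = 0 := by
  unfold L1 df
  rw [map_sub, Finsupp.linearCombination_single, Finsupp.linearCombination_single, sub_self]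

omit [Fintype ν] in
theorem L2_df (a b : ν → ℤ) : L2 ν (df a b) = a - b := by
  unfold L2 df
  rw [map_sub, Finsupp.linearCombination_single, Finsupp.linearCombination_single, one_smul,
    one_smul]
  rfl

omit [Fintype ν] in
theorem df_of_ne {a b u : ν → ℤ} (ha : u ≠ a) (hb : u ≠ b) : df a b u = 0 := by
  classical
  unfold df
  rw [Finsupp.sub_apply, Finsupp.single_apply, Finsupp.single_apply, if_neg (Ne.symm ha),
    if_neg (Ne.symm hb), sub_zero]

theorem Indep.eq_zero {c : ℕ} {H : Fin c → Lau K ν} {φ : ν → ℤ} (h : Indep H φ)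
    (x : Fin c → ((ν → ℤ) →₀ ℤ)) (h0 : ∀ i u, x i u ≠ 0 → (inForm φ (H i)).coeff u ≠ 0)
    (h1 : ∀ i, L1 ν (x i) = 0) (h2 : ∑ i, L2 ν (x i) = 0) : x = 0 :=
  h x h0 (fun i => by rw [← L1_eq, h1]) h2

/-- There are no three collinear exponents in an initial form. -/
theorem Indep.not_collinear {c : ℕ} {H : Fin c → Lau K ν} {φ : ν → ℤ} (h : Indep H φ) (i : Fin c)
    {a u b : ν → ℤ} (ha : (inForm φ (H i)).coeff a ≠ 0) (hu : (inForm φ (H i)).coeff u ≠ 0)
    (hb : (inForm φ (H i)).coeff b ≠ 0) (hau : a ≠ u) (hub : u ≠ b) {α β : ℤ}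
    (hc : α • (a - u) - β • (a - b) = 0) : α = 0 := by
  classical
  set y : (ν → ℤ) →₀ ℤ := α • df a u - β • df a b with hy
  have h1 := h.eq_zero (Pi.single i y) (fun j w hw => ?_) (fun j => ?_) ?_
  · have h2 : y = 0 := by
      have := congrFun h1 i
      rwa [Pi.single_eq_same] at this
    have h3 : y u = 0 := by rw [h2]; rfl
    rw [hy, Finsupp.sub_apply, Finsupp.smul_apply, Finsupp.smul_apply,
      df_of_ne (Ne.symm hau) hub, smul_zero, sub_zero] at h3
    unfold df at h3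
    rw [Finsupp.sub_apply, Finsupp.single_apply, Finsupp.single_apply, if_neg hau,
      if_pos rfl] at h3
    simpa using h3
  · by_cases hj : j = i
    · subst hj
      rw [Pi.single_eq_same] at hw
      by_cases hwa : w = a
      · rw [hwa]; exact ha
      by_cases hwu : w = u
      · rw [hwu]; exact hu
      by_cases hwb : w = b
      · rw [hwb]; exact hb
      rw [hy, Finsupp.sub_apply, Finsupp.smul_apply, Finsupp.smul_apply, df_of_ne hwa hwu,
        df_of_ne hwa hwb, smul_zero, smul_zero, sub_zero] at hw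
      exact absurd rfl hw
    · rw [Pi.single_eq_of_ne hj] at hw
      exact absurd rfl hw
  · by_cases hj : j = i
    · subst hj
      rw [Pi.single_eq_same, hy, map_sub, map_smul, map_smul, L1_df, L1_df, smul_zero, smul_zero,
        sub_zero]
    · rw [Pi.single_eq_of_ne hj, map_zero]
  · rw [Finset.sum_eq_single i]
    · rw [Pi.single_eq_same, hy, map_sub, map_smul, map_smul, L2_df, L2_df]
      exact hc
    · intro j _ hj
      rw [Pi.single_eq_of_ne hj, map_zero]
    · intro hn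
      exact absurd (Finset.mem_univ i) hn

/-- The differences of the exponents of different initial forms are transversal. -/
theorem Indep.transversal {k : ℕ} {F : Fin k → Lau K ν} {W : Lau K ν} {φ : ν → ℤ}
    (h : Indep (Fin.cons W F : Fin (k + 1) → Lau K ν) φ) {a b : Fin k → ν → ℤ} {u v : ν → ℤ}
    (ha : ∀ i, (inForm φ (F i)).coeff (a i) ≠ 0) (hb : ∀ i, (inForm φ (F i)).coeff (b i) ≠ 0)
    (hu : (inForm φ W).coeff u ≠ 0) (hv : (inForm φ W).coeff v ≠ 0) (huv : u ≠ v) {q : ℤ}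
    {c : Fin k → ℤ} (hq : q • (u - v) = ∑ i, c i • (a i - b i)) : q = 0 := by
  classical
  set x : Fin (k + 1) → ((ν → ℤ) →₀ ℤ) := Fin.cons (q • df u v) fun i => -c i • df (a i) (b i)
    with hx
  have h1 := h.eq_zero x (fun j w hw => ?_) (fun j => ?_) ?_
  · have h2 := congrFun h1 0
    rw [hx, Fin.cons_zero] at h2
    have h3 : (q • df u v) u = 0 := by rw [h2]; rfl
    unfold df at h3
    rw [Finsupp.smul_apply, Finsupp.sub_apply, Finsupp.single_apply, Finsupp.single_apply,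
      if_pos rfl, if_neg (Ne.symm huv)] at h3
    simpa using h3
  · revert hw
    refine Fin.cases ?_ (fun i => ?_) j
    · rw [hx, Fin.cons_zero, Fin.cons_zero]
      intro hw
      by_cases hwa : w = u
      · rw [hwa]; exact hu
      by_cases hwu : w = v
      · rw [hwu]; exact hv
      rw [Finsupp.smul_apply, df_of_ne hwa hwu, smul_zero] at hw
      exact absurd rfl hw
    · rw [hx, Fin.cons_succ, Fin.cons_succ]
      intro hw
      by_cases hwa : w = a i
      · rw [hwa]; exact ha i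
      by_cases hwu : w = b i
      · rw [hwu]; exact hb i
      rw [Finsupp.smul_apply, df_of_ne hwa hwu, smul_zero] at hw
      exact absurd rfl hw
  · refine Fin.cases ?_ (fun i => ?_) j
    · rw [hx, Fin.cons_zero, map_smul, L1_df, smul_zero]
    · rw [hx, Fin.cons_succ, map_smul, L1_df, smul_zero]
  · rw [Fin.sum_univ_succ, hx]
    simp only [Fin.cons_zero, Fin.cons_succ, map_smul, L2_df]
    rw [hq, ← Finset.sum_add_distrib]
    exact Finset.sum_eq_zero fun i _ => by rw [neg_smul, add_neg_cancel]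

theorem inForm_neg_iff {P : Lau K ν} {ψ u : ν → ℤ} : (inForm (-ψ) P).coeff u ≠ 0 ↔
    P.coeff u ≠ 0 ∧ ∀ w, P.coeff w ≠ 0 → dotp ψ w ≤ dotp ψ u := by
  have e : (∀ w ∈ P.coeff.support, dotp (-ψ) u ≤ dotp (-ψ) w) ↔
      ∀ w, P.coeff w ≠ 0 → dotp ψ w ≤ dotp ψ u := by
    constructor
    · intro h w hw
      have := h w (Finsupp.mem_support_iff.2 hw)
      rw [dotp_neg_left, dotp_neg_left] at this
      linarith
    · intro h w hw
      rw [dotp_neg_left, dotp_neg_left]
      linarith [h w (Finsupp.mem_support_iff.1 hw)]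
  by_cases h : ∀ w ∈ P.coeff.support, dotp (-ψ) u ≤ dotp (-ψ) w
  · rw [inForm_coeff_pos _ P u h]
    exact ⟨fun h1 => ⟨h1, e.1 h⟩, fun h1 => h1.1⟩
  · rw [inForm_coeff_neg _ P u h]
    exact ⟨fun h1 => absurd rfl h1, fun h1 => absurd (e.2 h1.2) h⟩

end indep

section edges

variable {K : Type*} [Field K] {ν : Type*} [Fintype ν]

/-- `ψ` has its maximum on the support of `P` exactly at `a` and `b`. -/
structure Edge (P : Lau K ν) (ψ a b : ν → ℤ) : Prop where
  ha : P.coeff a ≠ 0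
  hb : P.coeff b ≠ 0
  hab : dotp ψ a = dotp ψ b
  lt : ∀ u, P.coeff u ≠ 0 → u ≠ a → u ≠ b → dotp ψ u < dotp ψ b

theorem edge_of_generic {c : ℕ} {H : Fin c → Lau K ν} (hI : ∀ φ, φ ≠ 0 → Indep H φ) (i : Fin c)
    {ψ₀ w a zw : ν → ℤ} (ha : (H i).coeff a ≠ 0)
    (hmax : ∀ u, (H i).coeff u ≠ 0 → u ≠ a → dotp ψ₀ u < dotp ψ₀ a)
    (hw : ∃ u, (H i).coeff u ≠ 0 ∧ dotp w a < dotp w u)
    (hg : ∀ u b, (H i).coeff u ≠ 0 → (H i).coeff b ≠ 0 →
      dotp w (b - a) • (a - u) - dotp w (u - a) • (a - b) ≠ 0 →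
      dotp ψ₀ (dotp w (b - a) • (a - u) - dotp w (u - a) • (a - b)) ≠ 0)
    (hzw : dotp w zw = 0) (hzw0 : dotp ψ₀ zw ≠ 0) :
    ∃ ψ b, Edge (H i) ψ a b ∧ dotp w (a - b) ≠ 0 := by
  classical
  set S : Finset (ν → ℤ) := (H i).coeff.support.filter fun u => dotp w a < dotp w u with hS
  have hSne : S.Nonempty := by
    obtain ⟨u, hu, hwu⟩ := hw
    exact ⟨u, Finset.mem_filter.2 ⟨Finsupp.mem_support_iff.2 hu, hwu⟩⟩
  obtain ⟨b, hbS, hbmin⟩ := Finset.exists_min_image S
    (fun u => (dotp ψ₀ (a - u) : ℚ) / dotp w (u - a)) hSne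
  obtain ⟨hb1, hb2⟩ := Finset.mem_filter.1 hbS
  have hb : (H i).coeff b ≠ 0 := Finsupp.mem_support_iff.1 hb1
  set D : ℤ := dotp w (b - a) with hD
  set N : ℤ := dotp ψ₀ (a - b) with hN
  have hD0 : 0 < D := by
    rw [hD, dotp_sub]
    linarith
  have hba : b ≠ a := by
    rintro rfl
    exact lt_irrefl _ hb2
  have hN0 : 0 < N := by
    rw [hN, dotp_sub]
    linarith [hmax b hb hba]
  have hψ : ∀ u, dotp (D • ψ₀ + N • w) (a - u) = D * dotp ψ₀ (a - u) - N * dotp w (u - a) := by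
    intro u
    rw [dotp_add_left, dotp_smul_left, dotp_smul_left, dotp_sub w a u, dotp_sub w u a]
    ring
  have hle : ∀ u, (H i).coeff u ≠ 0 → 0 ≤ dotp (D • ψ₀ + N • w) (a - u) := by
    intro u hu
    rw [hψ]
    by_cases hwu : dotp w a < dotp w u
    · have h1 := hbmin u (Finset.mem_filter.2 ⟨Finsupp.mem_support_iff.2 hu, hwu⟩)
      have h2 : 0 < dotp w (u - a) := by
        rw [dotp_sub]
        linarith
      rw [div_le_div_iff₀ (by exact_mod_cast hD0) (by exact_mod_cast h2)] at h1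
      have h3 : dotp ψ₀ (a - b) * dotp w (u - a) ≤ dotp ψ₀ (a - u) * dotp w (b - a) := by
        exact_mod_cast h1
      rw [← hN, ← hD] at h3
      linarith
    · by_cases hua : u = a
      · subst hua
        rw [sub_self, dotp_zero, dotp_zero]
        simp
      · have h1 := hmax u hu hua
        have h2 : dotp w (u - a) ≤ 0 := by
          rw [dotp_sub]
          linarith
        have h3 : 0 < dotp ψ₀ (a - u) := by
          rw [dotp_sub]
          linarith
        nlinarith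
  have hb0 : dotp (D • ψ₀ + N • w) (a - b) = 0 := by
    rw [hψ]
    ring
  have hψ0 : D • ψ₀ + N • w ≠ 0 := by
    intro h0
    have h1 : dotp (D • ψ₀ + N • w) zw = 0 := by rw [h0, dotp_zero_left]
    rw [dotp_add_left, dotp_smul_left, dotp_smul_left, hzw, mul_zero, add_zero] at h1
    rcases mul_eq_zero.1 h1 with h2 | h2
    · exact hD0.ne' h2
    · exact hzw0 h2
  refine ⟨D • ψ₀ + N • w, b, ⟨ha, hb, ?_, fun u hu hua hub => ?_⟩, ?_⟩
  · rw [dotp_sub] at hb0
    linarith
  · have h1 := hle u hu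
    have h2 : dotp (D • ψ₀ + N • w) (a - u) ≠ 0 := by
      intro h0
      have h3 : dotp ψ₀ (D • (a - u) - dotp w (u - a) • (a - b)) = 0 := by
        rw [dotp_sub, dotp_smul_right, dotp_smul_right, ← hN]
        rw [hψ] at h0
        linarith
      have h4 : D • (a - u) - dotp w (u - a) • (a - b) = 0 := by
        by_contra h5
        exact hg u b hu hb h5 h3
      have h5 := hI (-(D • ψ₀ + N • w)) (neg_ne_zero.2 hψ0)
      have hmaxψ : ∀ x, (∀ y, (H i).coeff y ≠ 0 → dotp (D • ψ₀ + N • w) y ≤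
          dotp (D • ψ₀ + N • w) a) → (H i).coeff x ≠ 0 → dotp (D • ψ₀ + N • w) (a - x) = 0 →
          (inForm (-(D • ψ₀ + N • w)) (H i)).coeff x ≠ 0 := by
        intro x hall hx hx0
        rw [inForm_neg_iff]
        refine ⟨hx, fun y hy => (hall y hy).trans ?_⟩
        rw [dotp_sub] at hx0
        linarith
      have hall : ∀ y, (H i).coeff y ≠ 0 → dotp (D • ψ₀ + N • w) y ≤
          dotp (D • ψ₀ + N • w) a := by
        intro y hy
        have := hle y hy
        rw [dotp_sub] at this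
        linarith
      have h6 := h5.not_collinear i (hmaxψ a hall ha (by rw [sub_self, dotp_zero]))
        (hmaxψ u hall hu h0) (hmaxψ b hall hb hb0) (Ne.symm hua) hub h4
      exact hD0.ne' h6
    rw [dotp_sub] at h1 h2 hb0
    have h3 : dotp (D • ψ₀ + N • w) a - dotp (D • ψ₀ + N • w) u ≠ 0 := h2
    have h4 : 0 < dotp (D • ψ₀ + N • w) a - dotp (D • ψ₀ + N • w) u := lt_of_le_of_ne h1 (Ne.symm h3)
    linarith
  · have : dotp w (a - b) = -D := by
      rw [hD, dotp_sub, dotp_sub]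
      ring
    rw [this]
    exact neg_ne_zero.2 hD0.ne'

theorem dotp_self_ne_zero {z : ν → ℤ} (hz : z ≠ 0) : dotp z z ≠ 0 := by
  unfold dotp
  intro h
  apply hz
  funext l
  have h1 := (Finset.sum_eq_zero_iff_of_nonneg fun i _ => mul_self_nonneg (z i)).1 h l
    (Finset.mem_univ l)
  exact mul_self_eq_zero.1 h1

theorem exists_edge {c : ℕ} {H : Fin c → Lau K ν} (hI : ∀ φ, φ ≠ 0 → Indep H φ) (i : Fin c)
    (hν : 1 < Fintype.card ν) {w : ν → ℤ}
    (hw : ∃ u₁ u₂, (H i).coeff u₁ ≠ 0 ∧ (H i).coeff u₂ ≠ 0 ∧ dotp w u₁ ≠ dotp w u₂) :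
    ∃ ψ a b, Edge (H i) ψ a b ∧ dotp w (a - b) ≠ 0 := by
  classical
  -- a vector orthogonal to `w`
  obtain ⟨zw, hzw0, hzw⟩ : ∃ zw : ν → ℤ, zw ≠ 0 ∧ dotp w zw = 0 := by
    have hw0 : w ≠ 0 := by
      rintro rfl
      obtain ⟨u₁, u₂, -, -, h⟩ := hw
      rw [dotp_zero_left, dotp_zero_left] at h
      exact h rfl
    obtain ⟨l, hl⟩ : ∃ l, w l ≠ 0 := by
      by_contra h
      push Not at h
      exact hw0 (funext h)
    obtain ⟨l', hl'⟩ := Fintype.exists_ne_of_one_lt_card hν l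
    refine ⟨Pi.single l' (w l) - Pi.single l (w l'), fun h => ?_, ?_⟩
    · have h1 := congrFun h l'
      rw [Pi.sub_apply, Pi.single_eq_same, Pi.single_eq_of_ne hl', sub_zero] at h1
      exact hl h1
    · rw [dotp_sub]
      have e : ∀ (j : ν) (n : ℤ), dotp w (Pi.single j n) = w j * n := by
        intro j n
        unfold dotp
        rw [Finset.sum_eq_single j]
        · rw [Pi.single_eq_same]
        · intro j' _ hj
          rw [Pi.single_eq_of_ne hj, mul_zero]
        · intro h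
          exact absurd (Finset.mem_univ j) h
      rw [e, e]
      ring
  set S := (H i).coeff.support with hS
  set zz : (ν → ℤ) → (ν → ℤ) → (ν → ℤ) → (ν → ℤ) := fun a u b =>
    dotp w (b - a) • (a - u) - dotp w (u - a) • (a - b) with hzz
  set Z : Finset (ν → ℤ) := (((S ×ˢ S).image fun p => p.1 - p.2) ∪
    ((S ×ˢ S ×ˢ S).image fun p => zz p.1 p.2.1 p.2.2) ∪ {zw}).erase 0 with hZ
  obtain ⟨ψ₀, -, hψ₀⟩ := exists_generic (⊤ : Submodule ℤ (ν → ℤ)) Z fun z hz =>
    ⟨z, trivial, dotp_self_ne_zero (Finset.ne_of_mem_erase hz)⟩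
  have hg1 : ∀ u u', u ∈ S → u' ∈ S → u ≠ u' → dotp ψ₀ u ≠ dotp ψ₀ u' := by
    intro u u' hu hu' hne h
    refine hψ₀ (u - u') (Finset.mem_erase.2 ⟨sub_ne_zero.2 hne, ?_⟩) ?_
    · exact Finset.mem_union_left _ (Finset.mem_union_left _ (Finset.mem_image.2
        ⟨(u, u'), Finset.mem_product.2 ⟨hu, hu'⟩, rfl⟩))
    · rw [dotp_sub, h, sub_self]
  have hg2 : ∀ a u b, a ∈ S → u ∈ S → b ∈ S → zz a u b ≠ 0 → dotp ψ₀ (zz a u b) ≠ 0 := by
    intro a u b ha hu hb hne
    refine hψ₀ _ (Finset.mem_erase.2 ⟨hne, ?_⟩)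
    exact Finset.mem_union_left _ (Finset.mem_union_right _ (Finset.mem_image.2
        ⟨(a, u, b), Finset.mem_product.2 ⟨ha, Finset.mem_product.2 ⟨hu, hb⟩⟩, rfl⟩))
  have hg3 : dotp ψ₀ zw ≠ 0 := hψ₀ _ (Finset.mem_erase.2 ⟨hzw0,
    Finset.mem_union_right _ (Finset.mem_singleton_self _)⟩)
  obtain ⟨u₁, u₂, hu₁, hu₂, hu⟩ := hw
  obtain ⟨a, haS, hamax⟩ := Finset.exists_max_image S (fun u => dotp ψ₀ u)
    ⟨u₁, Finsupp.mem_support_iff.2 hu₁⟩
  have ha : (H i).coeff a ≠ 0 := Finsupp.mem_support_iff.1 haS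
  have hmax : ∀ u, (H i).coeff u ≠ 0 → u ≠ a → dotp ψ₀ u < dotp ψ₀ a := by
    intro u hu hua
    have hu' : u ∈ S := Finsupp.mem_support_iff.2 hu
    exact lt_of_le_of_ne (hamax u hu') (hg1 u a hu' haS hua)
  have h1 : ∃ u, (H i).coeff u ≠ 0 ∧ dotp w a ≠ dotp w u := by
    by_contra h
    push Not at h
    exact hu ((h u₁ hu₁).symm.trans (h u₂ hu₂))
  obtain ⟨u, hu, hau⟩ := h1
  rcases lt_or_gt_of_ne hau with h | h
  · obtain ⟨ψ, b, h2, h3⟩ := edge_of_generic hI i ha hmax ⟨u, hu, h⟩ (fun x y hx hy hxy =>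
      hg2 a x y haS (Finsupp.mem_support_iff.2 hx) (Finsupp.mem_support_iff.2 hy) hxy) hzw hg3
    exact ⟨ψ, a, b, h2, h3⟩
  · have hneg : ∀ x y : ν → ℤ, dotp (-w) (y - a) • (a - x) - dotp (-w) (x - a) • (a - y) =
        -zz a x y := by
      intro x y
      rw [hzz, dotp_neg_left, dotp_neg_left]
      simp only [neg_smul]
      abel
    obtain ⟨ψ, b, h2, h3⟩ := edge_of_generic (w := -w) hI i ha hmax
      ⟨u, hu, by rw [dotp_neg_left, dotp_neg_left]; linarith⟩ (fun x y hx hy hxy => by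
        rw [hneg] at hxy ⊢
        have h4 := hg2 a x y haS (Finsupp.mem_support_iff.2 hx) (Finsupp.mem_support_iff.2 hy)
          (neg_ne_zero.1 hxy)
        have h5 : dotp ψ₀ (-zz a x y) = -dotp ψ₀ (zz a x y) := by
          unfold dotp
          rw [← Finset.sum_neg_distrib]
          exact Finset.sum_congr rfl fun l _ => by rw [Pi.neg_apply, mul_neg]
        rw [h5]
        exact neg_ne_zero.2 h4) (by rw [dotp_neg_left, hzw, neg_zero]) hg3
    refine ⟨ψ, a, b, h2, fun h4 => h3 ?_⟩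
    rw [dotp_neg_left, h4, neg_zero]

end edges

end Pool.Agent.Helper84.TP
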