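import Pool.Agent.Helper84.TP.Zeta
set_option autoImplicit false

/-!
The equations at a point, in terms of the dominating terms.
-/

namespace Pool.Agent.Helper84.TP

section eqs

variable {K : Type*} [Field K] {ν : Type*} [Fintype ν] {σ : K →+* ℂ}

open Classical in
/-- the coefficients of the other terms of `W` -/
noncomputable def restW (σ : K →+* ℂ) (W : Lau K ν) (v u : ν → ℤ) : ℂ :=
  if u = v then 0 else σ (W.coeff u) / σ (W.coeff v)

open Classical in
/-- the coefficients of the other terms of `P` -/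
noncomputable def restP (σ : K →+* ℂ) (P : Lau K ν) (a b u : ν → ℤ) : ℂ :=
  if u = a ∨ u = b then 0 else σ (P.coeff u) / σ (P.coeff b)

theorem evz_lam_eq_zero {ζ : ν → ℂ} {W : Lau K ν} {lam : K} {v : ν → ℤ} (hv : W.coeff v ≠ 0)
    {U : Finset (ν → ℤ)} (hU : W.coeff.support ⊆ U) {x : ℂ} (hl : lam ≠ 0)
    (hx : Complex.exp (dotz (-v) ζ) = σ (W.coeff v) / σ lam * Complex.exp x)
    (h : 1 - Complex.exp x + ∑ u ∈ U, restW σ W v u * Complex.exp (dotz (u - v) ζ) = 0) :
    evz σ ζ (W - AddMonoidAlgebra.single 0 lam) = 0 := by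
  classical
  have hvU : v ∈ U := hU (Finsupp.mem_support_iff.2 hv)
  have hσv : σ (W.coeff v) ≠ 0 := (map_ne_zero σ).2 hv
  have hσl : σ lam ≠ 0 := (map_ne_zero σ).2 hl
  rw [map_sub, evz_eq_of_subset ζ W hU, evz_single, dotz_zero, Complex.exp_zero, mul_one]
  set E : ℂ := Complex.exp (dotz v ζ) with hE
  have hE0 : E ≠ 0 := Complex.exp_ne_zero _
  have h1 : σ lam = σ (W.coeff v) * E * Complex.exp x := by
    rw [dotz_neg, Complex.exp_neg, ← hE] at hx
    field_simp at hx
    rw [hx]
    ring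
  have h2 : ∀ u ∈ U, σ (W.coeff u) * Complex.exp (dotz u ζ) =
      (if u = v then σ (W.coeff v) * E else 0) +
        σ (W.coeff v) * E * (restW σ W v u * Complex.exp (dotz (u - v) ζ)) := by
    intro u _
    unfold restW
    by_cases huv : u = v
    · subst huv
      rw [if_pos rfl, if_pos rfl]
      ring
    · rw [if_neg huv, if_neg huv, dotz_sub, Complex.exp_sub, ← hE]
      field_simp
      ring
  rw [Finset.sum_congr rfl h2, Finset.sum_add_distrib, Finset.sum_ite_eq' U v, if_pos hvU,
    ← Finset.mul_sum, h1]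
  linear_combination (σ (W.coeff v) * E) * h

theorem evz_eq_zero {ζ : ν → ℂ} {P : Lau K ν} {a b : ν → ℤ} (ha : P.coeff a ≠ 0)
    (hb : P.coeff b ≠ 0) (hab : a ≠ b) {U : Finset (ν → ℤ)} (hU : P.coeff.support ⊆ U) {x : ℂ}
    (hx : Complex.exp (dotz (a - b) ζ) = -σ (P.coeff b) / σ (P.coeff a) * Complex.exp x)
    (h : 1 - Complex.exp x + ∑ u ∈ U, restP σ P a b u * Complex.exp (dotz (u - b) ζ) = 0) :
    evz σ ζ P = 0 := by
  classical
  have haU : a ∈ U := hU (Finsupp.mem_support_iff.2 ha)
  have hbU : b ∈ U := hU (Finsupp.mem_support_iff.2 hb)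
  have hσa : σ (P.coeff a) ≠ 0 := (map_ne_zero σ).2 ha
  have hσb : σ (P.coeff b) ≠ 0 := (map_ne_zero σ).2 hb
  rw [evz_eq_of_subset ζ P hU]
  set E : ℂ := Complex.exp (dotz b ζ) with hE
  have hE0 : E ≠ 0 := Complex.exp_ne_zero _
  have h1 : σ (P.coeff a) * Complex.exp (dotz a ζ) = -(σ (P.coeff b) * E * Complex.exp x) := by
    rw [dotz_sub, Complex.exp_sub, ← hE] at hx
    field_simp at hx
    linear_combination hx
  have h2 : ∀ u ∈ U, σ (P.coeff u) * Complex.exp (dotz u ζ) =
      (if u = b then σ (P.coeff b) * E else 0) +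
      (if u = a then σ (P.coeff a) * Complex.exp (dotz a ζ) else 0) +
        σ (P.coeff b) * E * (restP σ P a b u * Complex.exp (dotz (u - b) ζ)) := by
    intro u _
    unfold restP
    by_cases hub : u = b
    · subst hub
      rw [if_pos rfl, if_neg (Ne.symm hab), if_pos (Or.inr rfl)]
      ring
    · by_cases hua : u = a
      · subst hua
        rw [if_neg hub, if_pos rfl, if_pos (Or.inl rfl)]
        ring
      · rw [if_neg hub, if_neg hua, if_neg (not_or.2 ⟨hua, hub⟩), dotz_sub, Complex.exp_sub, ← hE]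
        field_simp
        ring
  rw [Finset.sum_congr rfl h2, Finset.sum_add_distrib, Finset.sum_add_distrib,
    Finset.sum_ite_eq' U b, if_pos hbU, Finset.sum_ite_eq' U a, if_pos haU, ← Finset.mul_sum, h1]
  linear_combination (σ (P.coeff b) * E) * h

end eqs

section cell

variable {K : Type*} [Field K] {ν : Type*} [Fintype ν] {k : ℕ}

/-- A mixed cell at infinity of the system `F_0 = 0, …, F_(k-1) = 0`, `W = λ`: a direction `ψ`, for
which `ψ · u` has its maximum on the support of each `F_i` exactly at two exponents `a_i`, `b_i`,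
and on the support of `W` exactly at one exponent `v`, where it is positive. -/
structure MixedCell (F : Fin k → Lau K ν) (W : Lau K ν) where
  psi : ν → ℤ
  a : Fin k → ν → ℤ
  b : Fin k → ν → ℤ
  v : ν → ℤ
  ha : ∀ i, (F i).coeff (a i) ≠ 0
  hb : ∀ i, (F i).coeff (b i) ≠ 0
  hab : ∀ i, dotp psi (a i) = dotp psi (b i)
  hF : ∀ i u, (F i).coeff u ≠ 0 → u ≠ a i → u ≠ b i → dotp psi u < dotp psi (b i)
  hv : W.coeff v ≠ 0
  hW : ∀ u, W.coeff u ≠ 0 → u ≠ v → dotp psi u < dotp psi v
  hpos : 0 < dotp psi v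

/-- The differences `a_i - b_i` of the exponents of the dominating terms. -/
def MixedCell.m {F : Fin k → Lau K ν} {W : Lau K ν} (c : MixedCell F W) (i : Fin k) : ν → ℤ :=
  c.a i - c.b i

end cell

end Pool.Agent.Helper84.TP
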