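import Pool.Agent.Helper84.TP.Eqs
set_option autoImplicit false

/-!
Generic directions, and edges of Newton polytopes.
-/

namespace Pool.Agent.Helper84.TP

section generic

variable {ν : Type*} [Fintype ν]

theorem dotp_smul_left (n : ℤ) (φ u : ν → ℤ) : dotp (n • φ) u = n * dotp φ u := by
  unfold dotp
  rw [Finset.mul_sum]
  exact Finset.sum_congr rfl fun i _ => by rw [Pi.smul_apply, smul_eq_mul, mul_assoc]

theorem dotp_add_left (φ φ' u : ν → ℤ) : dotp (φ + φ') u = dotp φ u + dotp φ' u := by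
  unfold dotp
  rw [← Finset.sum_add_distrib]
  exact Finset.sum_congr rfl fun i _ => by rw [Pi.add_apply, add_mul]

theorem dotp_neg_left (φ u : ν → ℤ) : dotp (-φ) u = -dotp φ u := by
  unfold dotp
  rw [← Finset.sum_neg_distrib]
  exact Finset.sum_congr rfl fun i _ => by rw [Pi.neg_apply, neg_mul]

theorem dotp_smul_right (n : ℤ) (φ u : ν → ℤ) : dotp φ (n • u) = n * dotp φ u := by
  unfold dotp
  rw [Finset.mul_sum]
  exact Finset.sum_congr rfl fun i _ => by
    rw [Pi.smul_apply, smul_eq_mul]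
    ring

theorem dotp_zero_left (u : ν → ℤ) : dotp (0 : ν → ℤ) u = 0 := by
  unfold dotp
  simp

theorem dotp_single_left [DecidableEq ν] (l : ν) (n : ℤ) (u : ν → ℤ) :
    dotp (Pi.single l n) u = n * u l := by
  unfold dotp
  rw [Finset.sum_eq_single l]
  · rw [Pi.single_eq_same]
  · intro j _ hj
    rw [Pi.single_eq_of_ne hj, zero_mul]
  · intro h
    exact absurd (Finset.mem_univ l) h

theorem mul_add_ne_zero {M x y : ℤ} (hx : x ≠ 0) (hy : |y| < M) : M * x + y ≠ 0 := by
  intro h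
  have h1 : |y| = |M * x| := by
    have : y = -(M * x) := by linarith
    rw [this, abs_neg]
  have h2 : 1 ≤ |x| := Int.one_le_abs hx
  have hM : 0 < M := (abs_nonneg y).trans_lt hy
  rw [abs_mul, abs_of_pos hM] at h1
  nlinarith

theorem exists_generic (N : Submodule ℤ (ν → ℤ)) (Z : Finset (ν → ℤ))
    (hZ : ∀ z ∈ Z, ∃ ρ ∈ N, dotp ρ z ≠ 0) : ∃ ρ ∈ N, ∀ z ∈ Z, dotp ρ z ≠ 0 := by
  classical
  induction Z using Finset.induction_on with
  | empty => exact ⟨0, N.zero_mem, by simp⟩
  | insert z Z hz ih =>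
    obtain ⟨ρ, hρN, hρ⟩ := ih fun y hy => hZ y (Finset.mem_insert_of_mem hy)
    by_cases h : dotp ρ z = 0
    · obtain ⟨ρ', hρ'N, hρ'⟩ := hZ z (Finset.mem_insert_self _ _)
      refine ⟨(∑ y ∈ Z, |dotp ρ' y| + 1) • ρ + ρ', N.add_mem (N.smul_mem _ hρN) hρ'N,
        fun y hy => ?_⟩
      rw [dotp_add_left, dotp_smul_left]
      rcases Finset.mem_insert.1 hy with rfl | hy
      · rw [h, mul_zero, zero_add]
        exact hρ'
      · have h1 : |dotp ρ' y| ≤ ∑ y ∈ Z, |dotp ρ' y| :=
          Finset.single_le_sum (f := fun y => |dotp ρ' y|) (fun y _ => abs_nonneg _) hy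
        exact mul_add_ne_zero (hρ y hy) (by linarith)
    · refine ⟨ρ, hρN, fun y hy => ?_⟩
      rcases Finset.mem_insert.1 hy with rfl | hy
      · exact h
      · exact hρ y hy

theorem exists_orth {k : ℕ} (m : Fin k → ν → ℤ) (z : ν → ℤ)
    (hz : ∀ (q : ℤ) (c : Fin k → ℤ), q • z = ∑ i, c i • m i → q = 0) :
    ∃ ρ : ν → ℤ, (∀ i, dotp ρ (m i) = 0) ∧ dotp ρ z ≠ 0 := by
  classical
  set mQ : Fin k → ν → ℚ := fun i l => (m i l : ℚ) with hmQ
  set zQ : ν → ℚ := fun l => (z l : ℚ) with hzQ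
  have h1 : zQ ∉ Submodule.span ℚ (Set.range mQ) := by
    intro h
    obtain ⟨c, hc⟩ := (Submodule.mem_span_range_iff_exists_fun ℚ).1 h
    obtain ⟨n, e, hn, he⟩ := exists_int_multiple (Fin.cons 1 c : Fin (k + 1) → ℚ)
    have h0 := congrFun he 0
    rw [Pi.smul_apply, Fin.cons_zero, smul_eq_mul, mul_one] at h0
    have h2 : ∀ i : Fin k, n * c i = e i.succ := by
      intro i
      have h3 := congrFun he i.succ
      rw [Pi.smul_apply, Fin.cons_succ, smul_eq_mul] at h3
      exact h3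
    have h3 : e 0 = 0 := by
      refine hz (e 0) (fun i => e i.succ) ?_
      funext l
      have h4 := congrFun hc l
      have h5 : (((e 0 • z) l : ℤ) : ℚ) = (((∑ i, e i.succ • m i) l : ℤ) : ℚ) := by
        rw [Finset.sum_apply]
        simp only [Pi.smul_apply, smul_eq_mul]
        push_cast
        have h6 : (z l : ℚ) = ∑ i, c i * (m i l : ℚ) := by
          rw [Finset.sum_apply] at h4
          exact h4.symm
        rw [← h0, h6, Finset.mul_sum]
        refine Finset.sum_congr rfl fun i _ => ?_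
        rw [← h2, mul_assoc]
      exact_mod_cast h5
    rw [h3, Int.cast_zero] at h0
    exact hn h0
  obtain ⟨f, hf, hfb⟩ := Submodule.exists_dual_map_eq_bot_of_notMem h1 inferInstance
  have h2 : ∀ x : ν → ℚ, f x = ∑ l, x l * f (fun j => if l = j then 1 else 0) := fun x => by
    conv_lhs => rw [LinearMap.pi_apply_eq_sum_univ f x]
    exact Finset.sum_congr rfl fun l _ => smul_eq_mul ..
  obtain ⟨n, ρ, hn, hρ⟩ := exists_int_multiple
    (fun l => f (fun j => if l = j then 1 else 0) : ν → ℚ)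
  have h3 : ∀ u : ν → ℤ, ((dotp ρ u : ℤ) : ℚ) = n * f fun l => (u l : ℚ) := by
    intro u
    rw [h2, Finset.mul_sum]
    unfold dotp
    push_cast
    refine Finset.sum_congr rfl fun l _ => ?_
    have h4 := congrFun hρ l
    rw [Pi.smul_apply, smul_eq_mul] at h4
    rw [← h4]
    ring
  refine ⟨ρ, fun i => ?_, fun h => ?_⟩
  · have h4 : f (mQ i) = 0 := by
      have h5 : f (mQ i) ∈ (Submodule.span ℚ (Set.range mQ)).map f :=
        Submodule.mem_map_of_mem (Submodule.subset_span ⟨i, rfl⟩)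
      rw [hfb, Submodule.mem_bot] at h5
      exact h5
    have h5 := h3 (m i)
    have h6 : (f fun l => (m i l : ℚ)) = 0 := h4
    rw [h6, mul_zero] at h5
    exact_mod_cast h5
  · have h5 := h3 z
    rw [h, Int.cast_zero] at h5
    exact hf ((mul_eq_zero.1 h5.symm).resolve_left hn)

end generic

end Pool.Agent.Helper84.TP
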