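import Mathlib
set_option autoImplicit false

/-!
The implicit function of the system `1 - exp h_i + ∑_s w_s exp (∑_j h_j α_(s,j)) = 0`.
-/

namespace Pool.Agent.Helper84.TP

open Filter Topology

section impl

variable {c : ℕ} {S : Type*} [Fintype S]

/-- The functions `1 - exp h_i + ∑_s w_s exp (∑_j h_j α_(s,j))`, the sum over the `s` with
`idx s = i`. -/
noncomputable def gf (idx : S → Fin c) (α : S → Fin c → ℂ) (x : (S → ℂ) × (Fin c → ℂ)) :
    Fin c → ℂ := fun i =>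
  1 - Complex.exp (x.2 i) + ∑ s, (if idx s = i then 1 else 0) *
    (x.1 s * Complex.exp (∑ j, x.2 j * α s j))

theorem contDiff_gf (idx : S → Fin c) (α : S → Fin c → ℂ) : ContDiff ℂ 2 (gf idx α) := by
  unfold gf
  refine contDiff_pi.2 fun i => ?_
  fun_prop

theorem gf_zero (idx : S → Fin c) (α : S → Fin c → ℂ) : gf idx α 0 = 0 := by
  funext i
  simp [gf]

theorem fderiv_gf (idx : S → Fin c) (α : S → Fin c → ℂ) :
    fderiv ℂ (gf idx α) 0 ∘L ContinuousLinearMap.inr ℂ (S → ℂ) (Fin c → ℂ) =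
      -ContinuousLinearMap.id ℂ (Fin c → ℂ) := by
  have h1 : HasFDerivAt (gf idx α) (fderiv ℂ (gf idx α) 0) (0, 0) :=
    (((contDiff_gf idx α).differentiable (by norm_num)) 0).hasFDerivAt
  have h2 : HasFDerivAt (fun h : Fin c → ℂ => ((0, h) : (S → ℂ) × (Fin c → ℂ)))
      (ContinuousLinearMap.inr ℂ (S → ℂ) (Fin c → ℂ)) 0 := hasFDerivAt_prodMk_right 0 0
  have h3 : HasFDerivAt (fun h : Fin c → ℂ => gf idx α (0, h)) (fderiv ℂ (gf idx α) 0 ∘L
      ContinuousLinearMap.inr ℂ (S → ℂ) (Fin c → ℂ)) 0 := HasFDerivAt.comp 0 h1 h2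
  have h4 : (fun h : Fin c → ℂ => gf idx α (0, h)) = fun h i => 1 - Complex.exp (h i) := by
    funext h i
    simp [gf]
  rw [h4] at h3
  have h5 : HasFDerivAt (fun (h : Fin c → ℂ) i => 1 - Complex.exp (h i))
      (-ContinuousLinearMap.id ℂ (Fin c → ℂ)) 0 := by
    rw [hasFDerivAt_pi']
    intro i
    have h6 : HasFDerivAt (fun h : Fin c → ℂ => h i)
      (ContinuousLinearMap.proj i : (Fin c → ℂ) →L[ℂ] ℂ) 0 := hasFDerivAt_apply i 0
    have h7 := (h6.cexp).const_sub 1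
    refine h7.congr_fderiv ?_
    ext v
    simp
  exact h3.unique h5

/-- The solution of the system for small `w`. -/
theorem exists_implicit (idx : S → Fin c) (α : S → Fin c → ℂ) :
    ∃ (H : (S → ℂ) → (Fin c → ℂ)) (δ C : ℝ), 0 < δ ∧ 0 < C ∧ ∀ w : S → ℂ, ‖w‖ < δ →
      ContDiffAt ℂ 2 H w ∧ gf idx α (w, H w) = 0 ∧ ‖H w‖ ≤ C * ‖w‖ ∧ ‖fderiv ℂ H w‖ ≤ C := by
  have cdf : ContDiffAt ℂ 2 (gf idx α) ((0, 0) : (S → ℂ) × (Fin c → ℂ)) :=
    (contDiff_gf idx α).contDiffAt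
  have hinv : (fderiv ℂ (gf idx α) ((0, 0) : (S → ℂ) × (Fin c → ℂ)) ∘L
      ContinuousLinearMap.inr ℂ (S → ℂ) (Fin c → ℂ)).IsInvertible := by
    have h := fderiv_gf idx α
    rw [← Prod.zero_eq_mk, h]
    exact ⟨ContinuousLinearEquiv.neg ℂ, by ext v; simp⟩
  set H := cdf.implicitFunction (by norm_num) hinv with hH
  have h0 : H 0 = 0 := cdf.implicitFunction_apply_self (by norm_num) hinv
  have h1 : ∀ᶠ w in 𝓝 (0 : S → ℂ), gf idx α (w, H w) = 0 := by
    have h := cdf.eventually_apply_implicitFunction (by norm_num) hinv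
    have h' : gf idx α ((0, 0) : (S → ℂ) × (Fin c → ℂ)) = 0 := gf_zero idx α
    rw [h'] at h
    exact h
  have h2 : ContDiffAt ℂ 2 H 0 := cdf.contDiffAt_implicitFunction (by norm_num) hinv
  have h3 : ∀ᶠ w in 𝓝 (0 : S → ℂ), ContDiffAt ℂ 2 H w := h2.eventually (by simp)
  have h4 : ContinuousAt (fderiv ℂ H) 0 :=
    (h2.fderiv_right (m := 1) (by norm_num)).continuousAt
  have h5 : ∀ᶠ w in 𝓝 (0 : S → ℂ), ‖fderiv ℂ H w‖ < ‖fderiv ℂ H 0‖ + 1 :=
    h4.norm.eventually_lt_const (by linarith)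
  obtain ⟨δ, hδ, hball⟩ := Metric.eventually_nhds_iff_ball.1 (h1.and (h3.and h5))
  refine ⟨H, δ, ‖fderiv ℂ H 0‖ + 1, hδ, by positivity, fun w hw => ?_⟩
  have hw' : w ∈ Metric.ball (0 : S → ℂ) δ := by simpa using hw
  obtain ⟨h6, h7, h8⟩ := hball w hw'
  refine ⟨h7, h6, ?_, h8.le⟩
  have h9 := (convex_ball (0 : S → ℂ) δ).norm_image_sub_le_of_norm_fderiv_le (𝕜 := ℂ) (f := H)
    (C := ‖fderiv ℂ H 0‖ + 1) (fun x hx => (hball x hx).2.1.differentiableAt (by norm_num))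
    (fun x hx => (hball x hx).2.2.le) (Metric.mem_ball_self hδ) hw'
  rwa [h0, sub_zero, sub_zero] at h9

end impl

end Pool.Agent.Helper84.TP
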