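import Pool.Agent.Helper84.TP.Milnor
set_option autoImplicit false

/-!
Laurent polynomials, their initial forms, and tempered systems.
-/

namespace Pool.Agent.Helper84.TP

open scoped WithZero

/-- Laurent polynomials in the variables `y_i`, `i ∈ ν`, with coefficients in `K`: the group ring of
`ℤ^ν`, where `y_i` is the standard basis vector. -/
abbrev Lau (K : Type*) [Field K] (ν : Type*) := AddMonoidAlgebra K (ν → ℤ)

section defs

variable {K : Type*} [Field K] {ν : Type*} [Fintype ν]

/-- The scalar product `φ · u = ∑ φ_i u_i`. -/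
def dotp (φ u : ν → ℤ) : ℤ := ∑ i, φ i * u i

theorem dotp_add (φ u w : ν → ℤ) : dotp φ (u + w) = dotp φ u + dotp φ w := by
  unfold dotp
  rw [← Finset.sum_add_distrib]
  exact Finset.sum_congr rfl fun i _ => by rw [Pi.add_apply, mul_add]

theorem dotp_sub (φ u w : ν → ℤ) : dotp φ (u - w) = dotp φ u - dotp φ w := by
  unfold dotp
  rw [← Finset.sum_sub_distrib]
  exact Finset.sum_congr rfl fun i _ => by rw [Pi.sub_apply, mul_sub]

theorem dotp_zero (φ : ν → ℤ) : dotp φ 0 = 0 := by
  unfold dotp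
  simp

/-- The initial form of `P` in the direction `φ`: the sum of the terms with exponents `u`, for which
`φ · u` is minimal. -/
noncomputable def inForm (φ : ν → ℤ) (P : Lau K ν) : Lau K ν :=
  AddMonoidAlgebra.ofCoeff (P.coeff.filter fun u => ∀ w ∈ P.coeff.support, dotp φ u ≤ dotp φ w)

/-- A nonempty sum of monomials, whose coefficients are roots of unity. -/
structure Sums (K : Type*) [Field K] (ν : Type*) where
  k : ℕ
  exp : Fin (k + 1) → (ν → ℤ)
  co : Fin (k + 1) → K
  tors : ∀ j, ∃ m : ℕ, 0 < m ∧ co j ^ m = 1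

/-- The Laurent polynomial `∑ ε_j y^(a_j)`. -/
noncomputable def Sums.poly (P : Sums K ν) : Lau K ν :=
  ∑ j, AddMonoidAlgebra.single (P.exp j) (P.co j)

/-- The difference `a_(j+1) - a_0` of two exponents. -/
def Sums.diff (P : Sums K ν) (j : Fin P.k) : ν → ℤ := P.exp j.succ - P.exp 0

/-- Laurent polynomials `H_i` form a tempered system, if for all `φ ≠ 0` the initial form of each
`H_i` divides, in the ring of the Laurent polynomials with integral coefficients, a product of sums
`P_(i,j)` of monomials with roots of unity as coefficients, such that for all choices of one factor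
`P_(i, j(i))` with at least two terms for each `i`, the differences of the exponents of the terms of
`P_(i, j(i))` and of its first term are, for all `i` together, linearly independent. -/
def Tempered {c : ℕ} (H : Fin c → Lau K ν) : Prop :=
  ∀ φ : ν → ℤ, φ ≠ 0 → ∃ (R : Fin c → Lau K ν) (l : Fin c → ℕ) (P : ∀ i, Fin (l i) → Sums K ν),
    (∀ i u, IsIntegral ℤ ((R i).coeff u)) ∧
    (∀ i, inForm φ (H i) * R i = ∏ j, (P i j).poly) ∧
    ∀ j : ∀ i, Fin (l i), (∀ i, 0 < (P i (j i)).k) →
      LinearIndependent ℤ (fun x : Σ i, Fin (P i (j i)).k => (P x.1 (j x.1)).diff x.2)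

/-- The unit `y_i`. -/
noncomputable def yu (K : Type*) [Field K] {ν : Type*} [DecidableEq ν] (i : ν) : (Lau K ν)ˣ :=
  (AddMonoidAlgebra.of K (ν → ℤ)).toHomUnits (Multiplicative.ofAdd (Pi.single i 1))

theorem mono_yu [DecidableEq ν] (u : ν → ℤ) :
    mono (yu K : ν → (Lau K ν)ˣ) u =
      (AddMonoidAlgebra.of K (ν → ℤ)).toHomUnits (Multiplicative.ofAdd u) := by
  unfold mono yu
  simp only [← map_zpow, ← map_prod]
  congr 1
  apply Multiplicative.toAdd.injective
  rw [toAdd_prod, toAdd_ofAdd]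
  simp only [toAdd_zpow, toAdd_ofAdd]
  funext j
  rw [Finset.sum_apply, Finset.sum_eq_single j]
  · simp
  · intro i _ hi
    simp [Pi.single_eq_of_ne hi.symm]
  · intro h
    exact absurd (Finset.mem_univ j) h

theorem coe_mono_yu [DecidableEq ν] (u : ν → ℤ) :
    ((mono (yu K : ν → (Lau K ν)ˣ) u : (Lau K ν)ˣ) : Lau K ν) = AddMonoidAlgebra.single u 1 := by
  rw [mono_yu]
  rfl

end defs

section prod

variable {K : Type*} [Field K] {ν : Type*} [Fintype ν]

theorem exists_of_mem_mul {P Q : Lau K ν} {u : ν → ℤ} (h : u ∈ (P * Q).coeff.support) :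
    ∃ a ∈ P.coeff.support, ∃ b ∈ Q.coeff.support, a + b = u := by
  classical
  have h1 := AddMonoidAlgebra.support_coeff_mul_subset P Q h
  rw [Finset.mem_add] at h1
  exact h1

theorem inForm_le {φ : ν → ℤ} {P : Lau K ν} {u : ν → ℤ} (h : u ∈ (inForm φ P).coeff.support)
    {w : ν → ℤ} (hw : w ∈ P.coeff.support) : dotp φ u ≤ dotp φ w := by
  unfold inForm at h
  rw [AddMonoidAlgebra.coeff_ofCoeff, Finsupp.mem_support_iff] at h
  by_contra hcon
  refine h (Finsupp.filter_apply_neg _ _ fun h1 => hcon (h1 w hw))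

theorem inForm_subset {φ : ν → ℤ} {P : Lau K ν} {u : ν → ℤ}
    (h : u ∈ (inForm φ P).coeff.support) : u ∈ P.coeff.support := by
  unfold inForm at h
  rw [AddMonoidAlgebra.coeff_ofCoeff, Finsupp.support_filter, Finset.mem_filter] at h
  exact h.1

theorem exists_mem_inForm {φ : ν → ℤ} {P : Lau K ν} (h : P ≠ 0) :
    ∃ u, u ∈ (inForm φ P).coeff.support := by
  have h1 : P.coeff.support.Nonempty := by
    rw [Finsupp.support_nonempty_iff]
    intro h0
    exact h (AddMonoidAlgebra.ext h0)
  obtain ⟨u, hu, hmin⟩ := Finset.exists_min_image P.coeff.support (dotp φ) h1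
  refine ⟨u, ?_⟩
  unfold inForm
  rw [AddMonoidAlgebra.coeff_ofCoeff, Finsupp.support_filter, Finset.mem_filter]
  exact ⟨hu, hmin⟩

theorem inForm_apply_of_mem {φ : ν → ℤ} {P : Lau K ν} {u : ν → ℤ}
    (h : ∀ w ∈ P.coeff.support, dotp φ u ≤ dotp φ w) : (inForm φ P).coeff u = P.coeff u := by
  unfold inForm
  rw [AddMonoidAlgebra.coeff_ofCoeff]
  exact Finsupp.filter_apply_pos _ _ h

/-- The rest of `P` without its initial form. -/
theorem sub_inForm_lt {φ : ν → ℤ} {P : Lau K ν} {u w : ν → ℤ}
    (h : u ∈ (P - inForm φ P).coeff.support) (hw : w ∈ (inForm φ P).coeff.support) :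
    dotp φ w < dotp φ u := by
  by_contra hcon
  rw [not_lt] at hcon
  rw [Finsupp.mem_support_iff] at h
  apply h
  rw [AddMonoidAlgebra.coeff_sub, Finsupp.sub_apply, inForm_apply_of_mem, sub_self]
  intro w' hw'
  exact hcon.trans (inForm_le hw hw')

/-- The exponents of a product of a form, homogeneous with respect to `φ`, and of `Q`. -/
theorem exists_mem_mul {φ : ν → ℤ} {P Q : Lau K ν} (hP : P ≠ 0) (hQ : Q ≠ 0) {μ β : ℤ}
    (hμ : ∀ u ∈ P.coeff.support, dotp φ u = μ)
    (hβ : ∀ u ∈ (inForm φ Q).coeff.support, dotp φ u = β) :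
    ∃ u ∈ (P * Q).coeff.support, dotp φ u = μ + β := by
  classical
  have h0 : inForm φ Q ≠ 0 := by
    obtain ⟨u, hu⟩ := exists_mem_inForm (φ := φ) hQ
    intro h
    rw [h] at hu
    simp at hu
  have h1 : P * inForm φ Q ≠ 0 := mul_ne_zero hP h0
  have h2 : ∃ u, u ∈ (P * inForm φ Q).coeff.support := by
    by_contra hcon
    push Not at hcon
    refine h1 (AddMonoidAlgebra.ext (Finsupp.ext fun u => ?_))
    exact Finsupp.notMem_support_iff.1 (hcon u)
  obtain ⟨u, hu⟩ := h2
  have hud : dotp φ u = μ + β := by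
    obtain ⟨a, ha, b, hb, rfl⟩ := exists_of_mem_mul hu
    rw [dotp_add, hμ a ha, hβ b hb]
  refine ⟨u, ?_, hud⟩
  rw [Finsupp.mem_support_iff]
  have h3 : (P * Q).coeff u = (P * inForm φ Q).coeff u := by
    have h4 : P * Q = P * inForm φ Q + P * (Q - inForm φ Q) := by ring
    rw [h4, AddMonoidAlgebra.coeff_add, Finsupp.add_apply]
    have h5 : (P * (Q - inForm φ Q)).coeff u = 0 := by
      by_contra hcon
      obtain ⟨a, ha, b, hb, hab⟩ := exists_of_mem_mul (Finsupp.mem_support_iff.2 hcon)
      obtain ⟨w, hw⟩ := exists_mem_inForm (φ := φ) hQ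
      have h6 := sub_inForm_lt hb hw
      rw [hβ w hw] at h6
      have h7 := hμ a ha
      rw [← hab, dotp_add] at hud
      omega
    rw [h5, add_zero]
  rw [h3]
  exact Finsupp.mem_support_iff.1 hu

/-- The exponents of a product. -/
theorem le_of_mem_prod {φ : ν → ℤ} {ι : Type*} (s : Finset ι) (P : ι → Lau K ν) (M : ι → ℤ)
    (hM : ∀ i ∈ s, ∀ u ∈ (P i).coeff.support, M i ≤ dotp φ u) {u : ν → ℤ}
    (hu : u ∈ (∏ i ∈ s, P i).coeff.support) : ∑ i ∈ s, M i ≤ dotp φ u := by
  classical
  induction s using Finset.induction_on generalizing u with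
  | empty =>
    rw [Finset.prod_empty] at hu
    have h1 := AddMonoidAlgebra.support_coeff_one_subset hu
    rw [Finset.mem_zero] at h1
    rw [h1, dotp_zero, Finset.sum_empty]
  | insert j s hj ih =>
    rw [Finset.prod_insert hj] at hu
    rw [Finset.sum_insert hj]
    obtain ⟨a, ha, b, hb, rfl⟩ := exists_of_mem_mul hu
    rw [dotp_add]
    exact add_le_add (hM j (Finset.mem_insert_self _ _) a ha)
      (ih (fun i hi => hM i (Finset.mem_insert_of_mem hi)) hb)

theorem Sums.exists_of_mem {P : Sums K ν} {u : ν → ℤ} (h : u ∈ P.poly.coeff.support) :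
    ∃ j, u = P.exp j := by
  classical
  unfold Sums.poly at h
  by_contra hcon
  push Not at hcon
  rw [Finsupp.mem_support_iff, AddMonoidAlgebra.coeff_sum, Finsupp.finsetSum_apply] at h
  refine h (Finset.sum_eq_zero fun j _ => ?_)
  rw [AddMonoidAlgebra.coeff_single, Finsupp.single_apply, if_neg (hcon j).symm]

end prod

end Pool.Agent.Helper84.TP
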