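import Pool.Agent.TH690.SF.Milnor
set_option autoImplicit false

/-!
Symbols of monomials, and the symbols of the coordinates if there are several Steinberg relations
with jointly independent exponents.
-/

namespace Pool.Agent.Helper84.TP

open scoped WithZero

open Pool.Agent.TH826.MK

open Pool.Agent.TH826.SX

open Pool.Agent.TH826.EF

open Pool.Agent.TH690.SF

section mono

variable {M : Type*} [CommGroup M] {ν : Type*} [Fintype ν]

/-- The monomial `∏ y_i ^ u_i`. -/
def mono (y : ν → M) (u : ν → ℤ) : M := ∏ i, y i ^ u i

theorem mono_zero (y : ν → M) : mono y 0 = 1 := by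
  simp [mono]

theorem mono_add (y : ν → M) (u w : ν → ℤ) : mono y (u + w) = mono y u * mono y w := by
  unfold mono
  rw [← Finset.prod_mul_distrib]
  exact Finset.prod_congr rfl fun i _ => by rw [Pi.add_apply, zpow_add]

theorem mono_neg (y : ν → M) (u : ν → ℤ) : mono y (-u) = (mono y u)⁻¹ := by
  have h := mono_add y u (-u)
  rw [add_neg_cancel, mono_zero] at h
  exact (inv_eq_of_mul_eq_one_right h.symm).symm

theorem mono_sub (y : ν → M) (u w : ν → ℤ) : mono y (u - w) = mono y u / mono y w := by
  rw [sub_eq_add_neg, mono_add, mono_neg, div_eq_mul_inv]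

theorem mono_zsmul (y : ν → M) (k : ℤ) (u : ν → ℤ) : mono y (k • u) = mono y u ^ k := by
  unfold mono
  rw [← Finset.prod_zpow]
  exact Finset.prod_congr rfl fun i _ => by
    rw [Pi.smul_apply, smul_eq_mul, mul_comm, zpow_mul]

theorem mono_single [DecidableEq ν] (y : ν → M) (i : ν) (k : ℤ) :
    mono y (Pi.single i k) = y i ^ k := by
  unfold mono
  rw [Finset.prod_eq_single i]
  · rw [Pi.single_eq_same]
  · intro j _ hj
    rw [Pi.single_eq_of_ne hj, zpow_zero]
  · intro h
    exact absurd (Finset.mem_univ i) h

end mono

section mult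

variable {L : Type*} [Field L] {ν : Type*} [Fintype ν]

/-- The symbols as a multilinear map. -/
noncomputable def sZ (L : Type*) [Field L] (p : ℕ) :
    MultilinearMap ℤ (fun _ : Fin p => Additive Lˣ) (KQ L p) where
  toFun a := symb fun l => (a l).toMul
  map_update_add' := by
    intro inst a i x y
    obtain rfl : inst = instDecidableEqFin p := Subsingleton.elim _ _
    have e : ∀ z : Additive Lˣ, (fun l => (Function.update a i z l).toMul) =
        Function.update (fun l => (a l).toMul) i z.toMul := by
      intro z
      funext l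
      by_cases h : l = i
      · subst h; simp
      · simp [Function.update_of_ne h]
    rw [e, e, e, toMul_add]
    exact symb_update_mul (fun l => (a l).toMul) i x.toMul y.toMul
  map_update_smul' := by
    intro inst a i c x
    obtain rfl : inst = instDecidableEqFin p := Subsingleton.elim _ _
    have e : ∀ z : Additive Lˣ, (fun l => (Function.update a i z l).toMul) =
        Function.update (fun l => (a l).toMul) i z.toMul := by
      intro z
      funext l
      by_cases h : l = i
      · subst h; simp
      · simp [Function.update_of_ne h]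
    rw [e, e, toMul_zsmul]
    have h := symb_update_zpow (fun l => (a l).toMul) i x.toMul c
    rw [Int.cast_smul_eq_zsmul] at h
    exact h

theorem sZ_apply {p : ℕ} (a : Fin p → Additive Lˣ) : sZ L p a = symb fun l => (a l).toMul := rfl

/-- The symbols `{y^x_0, …, y^x_(p-1)}` for rational exponents. -/
noncomputable def fQ (y : ν → Lˣ) (p : ℕ) :
    MultilinearMap ℚ (fun _ : Fin p => ν → ℚ) (KQ L p) :=
  ∑ g : Fin p → ν, (MultilinearMap.mkPiRing ℚ (Fin p) (symb fun l => y (g l))).compLinearMap
    fun l => LinearMap.proj (g l)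

theorem fQ_apply (y : ν → Lˣ) {p : ℕ} (x : Fin p → ν → ℚ) :
    fQ y p x = ∑ g : Fin p → ν, (∏ l, x l (g l)) • symb fun l => y (g l) := by
  unfold fQ
  rw [sum_apply]
  refine Finset.sum_congr rfl fun g _ => ?_
  rw [MultilinearMap.compLinearMap_apply, MultilinearMap.mkPiRing_apply]
  rfl

theorem fQ_int (y : ν → Lˣ) {p : ℕ} (b : Fin p → ν → ℤ) :
    fQ y p (fun l i => (b l i : ℚ)) = symb fun l => mono y (b l) := by
  classical
  have h1 : (symb fun l => mono y (b l)) =
      sZ L p fun l => ∑ i, b l i • Additive.ofMul (y i) := by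
    rw [sZ_apply]
    congr 1
  rw [h1, MultilinearMap.map_sum, fQ_apply]
  refine Finset.sum_congr rfl fun g _ => ?_
  rw [MultilinearMap.map_smul_univ, ← Int.cast_smul_eq_zsmul ℚ, Int.cast_prod]
  rfl

theorem fQ_coord [DecidableEq ν] (y : ν → Lˣ) {p : ℕ} (g : Fin p → ν) :
    fQ y p (fun l => Pi.single (g l) 1) = symb fun l => y (g l) := by
  have h := fQ_int y fun l => (Pi.single (g l) 1 : ν → ℤ)
  have e : (fun l i => ((Pi.single (g l) 1 : ν → ℤ) i : ℚ)) =
      fun l => (Pi.single (g l) 1 : ν → ℚ) := by
    funext l i
    by_cases hi : i = g l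
    · subst hi; simp
    · simp [Pi.single_eq_of_ne hi]
  rw [e] at h
  rw [h]
  congr 1
  funext l
  rw [mono_single, zpow_one]

end mult

section tors

variable {L : Type*} [Field L] {n : ℕ}

theorem symb_update_tors (a : Fin n → Lˣ) (i : Fin n) (x t : Lˣ) {m : ℕ} (hm : 0 < m)
    (ht : t ^ m = 1) : symb (Function.update a i (t * x)) = symb (Function.update a i x) := by
  have h1 : (m : ℚ) • symb (Function.update a i t) = 0 := by
    have h := symb_update_zpow a i t (m : ℤ)
    rw [zpow_natCast, ht, symb_upd_one] at h
    rw [Int.cast_natCast] at h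
    exact h.symm
  have hm' : (m : ℚ) ≠ 0 := by exact_mod_cast hm.ne'
  rw [symb_update_mul, (smul_eq_zero.1 h1).resolve_left hm', zero_add]

theorem symb_tors (u t : Fin n → Lˣ) (ht : ∀ l, ∃ m : ℕ, 0 < m ∧ t l ^ m = 1) :
    symb (fun l => t l * u l) = symb u := by
  classical
  have key : ∀ T : Finset (Fin n), symb (fun l => if l ∈ T then t l * u l else u l) = symb u := by
    intro T
    induction T using Finset.induction_on with
    | empty => simp
    | insert j T hj ih =>
      rw [← ih]
      obtain ⟨m, hm, h⟩ := ht j
      set b : Fin n → Lˣ := fun l => if l ∈ T then t l * u l else u l with hb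
      have e : (fun l => if l ∈ insert j T then t l * u l else u l) =
          Function.update b j (t j * u j) := by
        funext l
        by_cases h : l = j
        · subst h; simp
        · simp [h, hb]
      have e2 : Function.update b j (u j) = b := by
        rw [Function.update_eq_self_iff]
        simp [hb, hj]
      rw [e, symb_update_tors b j (u j) (t j) hm h, e2]
  have h := key Finset.univ
  simpa using h

end tors

section blocks

variable {L : Type*} [Field L] {ν : Type*} [Fintype ν]

theorem sumExtend_inl {V : Type*} [AddCommGroup V] [Module ℚ V] {ι : Type*} {w : ι → V}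
    (hs : LinearIndependent ℚ w) (x : ι) : Module.Basis.sumExtend hs (Sum.inl x) = w x := by
  classical
  simp only [Module.Basis.sumExtend, Module.Basis.reindex_apply, Module.Basis.extend_apply_self]
  exact congrArg Subtype.val (Equiv.Set.sumDiffSubset_apply_inl
    (hs.linearIndepOn_id.subset_extend (Set.subset_univ (Set.range w)))
    (Equiv.ofInjective w hs.injective x))

theorem exists_int_multiple (x : ν → ℚ) : ∃ (m : ℚ) (e : ν → ℤ), m ≠ 0 ∧
    m • x = fun i => (e i : ℚ) := by
  classical
  refine ⟨(∏ i, (x i).den : ℕ), fun i => (x i).num * (∏ j ∈ Finset.univ.erase i, (x j).den : ℕ),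
    ?_, ?_⟩
  · exact_mod_cast Finset.prod_ne_zero_iff.2 fun i _ => (x i).den_nz
  · funext i
    rw [Pi.smul_apply, smul_eq_mul, ← Finset.mul_prod_erase Finset.univ (fun j => (x j).den)
      (Finset.mem_univ i)]
    have h := Rat.den_mul_eq_num (x i)
    push_cast
    rw [mul_comm ((x i).den : ℚ), mul_assoc, mul_comm, h]

/-- If there are Steinberg relations between monomials with jointly independent exponents, their
number being larger than the codimension, all the symbols of the coordinates lie in `onePart`. -/
theorem mem_onePart_of_blocks (v : Valuation L ℤᵐ⁰) (y : ν → Lˣ) {c : ℕ} (k : Fin c → ℕ)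
    (b : ∀ i, Fin (k i) → (ν → ℤ))
    (hb : LinearIndependent ℤ (fun x : (Σ i, Fin (k i)) => b x.1 x.2))
    (hone : ∀ i, symb (fun j => mono y (b i j)) ∈ onePart v (k i)) {p : ℕ}
    (hp : Fintype.card ν < p + c) (g : Fin p → ν) :
    symb (fun l => y (g l)) ∈ onePart v p := by
  classical
  set I : Type := Σ i, Fin (k i) with hI
  set bQ : I → (ν → ℚ) := fun x i => (b x.1 x.2 i : ℚ) with hbQ
  have h1 : LinearIndependent ℤ bQ := by
    set F : (ν → ℤ) →ₗ[ℤ] (ν → ℚ) :=
      LinearMap.pi fun i => (Int.castAddHom ℚ).toIntLinearMap.comp (LinearMap.proj i) with hF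
    refine hb.map' F ?_
    rw [LinearMap.ker_eq_bot]
    intro x z hxz
    funext i
    have := congrFun hxz i
    simpa [hF] using this
  have h2 : LinearIndependent ℚ bQ := (LinearIndependent.iff_fractionRing ℤ ℚ).1 h1
  set B := Module.Basis.sumExtend h2 with hB
  have hBl : ∀ x : I, B (Sum.inl x) = bQ x := fun x => by
    rw [hB]
    exact sumExtend_inl h2 x
  have hm : ∀ x, ∃ (m : ℚ) (e : ν → ℤ), m ≠ 0 ∧ m • B x = (fun i => (e i : ℚ)) ∧
      ∀ z : I, x = Sum.inl z → e = b z.1 z.2 := by
    intro x
    rcases x with z | x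
    · refine ⟨1, b z.1 z.2, one_ne_zero, ?_, ?_⟩
      · rw [one_smul, hBl]
      · intro z' hz'
        rw [Sum.inl_injective hz']
    · obtain ⟨m, e, hm0, hm⟩ := exists_int_multiple (B (Sum.inr x))
      refine ⟨m, e, hm0, hm, ?_⟩
      intro z hz
      exact absurd hz (by simp)
  choose m e hm0 hme hel using hm
  have : Fintype (I ⊕ ↑(Module.Basis.sumExtendIndex h2)) := FiniteDimensional.fintypeBasisIndex B
  have hcard : Fintype.card (I ⊕ ↑(Module.Basis.sumExtendIndex h2)) = Fintype.card ν := by
    rw [← Module.finrank_eq_card_basis B, Module.finrank_fintype_fun_eq_card]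
  have hzero : (onePart v p).mkQ.compMultilinearMap (fQ y p) = 0 := by
    refine Module.Basis.ext_multilinear (fun _ => B) fun κ => ?_
    rw [LinearMap.compMultilinearMap_apply, zero_apply,
      Submodule.mkQ_apply, Submodule.Quotient.mk_eq_zero]
    have h3 : fQ y p (fun l => B (κ l)) = (∏ l, (m (κ l))⁻¹) • symb fun l => mono y (e (κ l)) := by
      rw [← fQ_int, ← MultilinearMap.map_smul_univ]
      congr 1
      funext l
      rw [← hme, smul_smul, inv_mul_cancel₀ (hm0 _), one_smul]
    rw [h3]
    refine Submodule.smul_mem _ _ ?_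
    by_cases hκ : Function.Injective κ
    · have h4 : ∃ i, ∀ j : Fin (k i), ∃ l, κ l = Sum.inl ⟨i, j⟩ := by
        by_contra hcon
        push Not at hcon
        choose j hj using hcon
        have h5 : Function.Injective (Sum.elim κ fun i => Sum.inl ⟨i, j i⟩ :
            Fin p ⊕ Fin c → I ⊕ ↑(Module.Basis.sumExtendIndex h2)) := by
          rintro (l | i) (l' | i') h
          · exact congrArg Sum.inl (hκ h)
          · exact absurd h (hj i' l)
          · exact absurd h.symm (hj i l')
          · have h' : (⟨i, j i⟩ : Σ i, Fin (k i)) = ⟨i', j i'⟩ := Sum.inl_injective h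
            have h'' : i = i' := congrArg Sigma.fst h'
            rw [h'']
        have h6 := Fintype.card_le_of_injective _ h5
        rw [Fintype.card_sum, Fintype.card_fin, Fintype.card_fin, hcard] at h6
        omega
      obtain ⟨i, hi⟩ := h4
      choose ι hι using hi
      have hιi : Function.Injective ι := by
        intro a a' h
        have h7 := hι a
        rw [h, hι a'] at h7
        have h8 : (⟨i, a'⟩ : Σ i, Fin (k i)) = ⟨i, a⟩ := Sum.inl_injective h7
        have h9 := (Sigma.mk.inj_iff.1 h8).2
        exact (eq_of_heq h9).symm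
      refine mem_onePart_of_comp v _ hιi ?_
      have h8 : (fun l => mono y (e (κ (ι l)))) = fun j => mono y (b i j) := by
        funext j
        rw [hel _ ⟨i, j⟩ (hι j)]
      rw [h8]
      exact hone i
    · rw [Function.Injective] at hκ
      push Not at hκ
      obtain ⟨l, l', hll, hne⟩ := hκ
      have h9 : symb (fun l => mono y (e (κ l))) = 0 :=
        symb_self _ hne (by simp only [hll])
      rw [h9]
      exact Submodule.zero_mem _
  have h4 := congrArg (fun f => f (fun l => (Pi.single (g l) 1 : ν → ℚ))) hzero
  simp only [LinearMap.compMultilinearMap_apply, zero_apply] at h4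
  rw [fQ_coord, Submodule.mkQ_apply, Submodule.Quotient.mk_eq_zero] at h4
  exact h4

end blocks

end Pool.Agent.Helper84.TP
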