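import Pool.Agent.Helper84.TP.Implicit
set_option autoImplicit false

/-!
Periodic solutions of the perturbed system.
-/

namespace Pool.Agent.Helper84.TP

open Filter Topology

section perturb

variable {c d : ℕ} {S : Type*} [Fintype S]

/-- the functions `ω_s exp (2 π i ∑_j θ_j N_(s,j))` -/
noncomputable def wt (N : S → Fin d → ℤ) (ω : S → ℂ) (θ : Fin d → ℝ) : S → ℂ := fun s =>
  ω s * Complex.exp (2 * Real.pi * Complex.I * ∑ j, (θ j : ℂ) * N s j)

theorem contDiff_wt (N : S → Fin d → ℤ) (ω : S → ℂ) : ContDiff ℝ 2 (wt N ω) := by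
  unfold wt
  refine contDiff_pi.2 fun s => ?_
  refine contDiff_const.mul ?_
  apply ContDiff.cexp
  refine contDiff_const.mul ?_
  refine ContDiff.sum fun j _ => ?_
  exact (Complex.ofRealCLM.contDiff.comp (contDiff_apply ℝ ℝ j)).mul contDiff_const

theorem norm_exp_int (x : ℝ) : ‖Complex.exp (2 * Real.pi * Complex.I * x)‖ = 1 := by
  rw [Complex.norm_exp]
  simp

omit [Fintype S] in
theorem norm_wt (N : S → Fin d → ℤ) (ω : S → ℂ) (θ : Fin d → ℝ) (s : S) :
    ‖wt N ω θ s‖ = ‖ω s‖ := by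
  unfold wt
  rw [norm_mul]
  have h : (∑ j, (θ j : ℂ) * N s j) = ((∑ j, θ j * N s j : ℝ) : ℂ) := by
    push_cast
    rfl
  rw [h, norm_exp_int, mul_one]

omit [Fintype S] in
theorem wt_add_single (N : S → Fin d → ℤ) (ω : S → ℂ) (θ : Fin d → ℝ) (i : Fin d) :
    wt N ω (θ + Pi.single i 1) = wt N ω θ := by
  funext s
  unfold wt
  congr 1
  have h : ∑ j, ((θ + Pi.single i 1 : Fin d → ℝ) j : ℂ) * (N s j : ℂ) =
      (∑ j, (θ j : ℂ) * N s j) + N s i := by
    simp only [Pi.add_apply, Complex.ofReal_add, add_mul, Finset.sum_add_distrib]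
    congr 1
    rw [Finset.sum_eq_single i]
    · simp
    · intro j _ hj
      simp [Pi.single_eq_of_ne hj]
    · intro h
      exact absurd (Finset.mem_univ i) h
  rw [h, mul_add, Complex.exp_add]
  have h2 : Complex.exp (2 * Real.pi * Complex.I * (N s i : ℂ)) = 1 := by
    rw [mul_comm, Complex.exp_int_mul_two_pi_mul_I]
  rw [h2, mul_one]

theorem hasFDerivAt_wt (N : S → Fin d → ℤ) (ω : S → ℂ) (θ : Fin d → ℝ) (i : Fin d) :
    fderiv ℝ (wt N ω) θ (Pi.single i 1) = fun s => 2 * Real.pi * Complex.I * N s i * wt N ω θ s := by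
  have h1 : HasFDerivAt (wt N ω) (fderiv ℝ (wt N ω) θ) θ :=
    (((contDiff_wt N ω).differentiable (by norm_num)) θ).hasFDerivAt
  funext s
  have h2 := (hasFDerivAt_pi'.1 h1 s)
  have h3 : HasFDerivAt (fun θ : Fin d → ℝ => ω s * Complex.exp (2 * Real.pi * Complex.I *
      ∑ j, (θ j : ℂ) * N s j)) ((ω s) • ((Complex.exp (2 * Real.pi * Complex.I *
      ∑ j, (θ j : ℂ) * N s j)) • ((2 * Real.pi * Complex.I : ℂ) •
        ∑ j, ((N s j : ℂ) • (Complex.ofRealCLM.comp
          (ContinuousLinearMap.proj j : (Fin d → ℝ) →L[ℝ] ℝ)))))) θ := by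
    refine HasFDerivAt.const_mul (HasFDerivAt.cexp (HasFDerivAt.const_mul ?_ _)) _
    refine HasFDerivAt.fun_sum fun j _ => ?_
    have h4 : HasFDerivAt (fun θ : Fin d → ℝ => (θ j : ℂ)) (Complex.ofRealCLM.comp
        (ContinuousLinearMap.proj j : (Fin d → ℝ) →L[ℝ] ℝ)) θ :=
      Complex.ofRealCLM.hasFDerivAt.comp θ (hasFDerivAt_apply j θ)
    exact h4.mul_const _
  have h5 := h2.unique h3
  have h6 := congrArg (fun f => f (Pi.single i 1)) h5
  have h7 : ((ContinuousLinearMap.proj s : (S → ℂ) →L[ℝ] ℂ).comp (fderiv ℝ (wt N ω) θ))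
      (Pi.single i 1) = fderiv ℝ (wt N ω) θ (Pi.single i 1) s := rfl
  rw [← h7]
  refine h6.trans ?_
  have h8 : (∑ j, ((N s j : ℂ) • (Complex.ofRealCLM.comp
      (ContinuousLinearMap.proj j : (Fin d → ℝ) →L[ℝ] ℝ)))) (Pi.single i 1) = N s i := by
    rw [sum_apply, Finset.sum_eq_single i]
    · simp
    · intro j _ hj
      simp [Pi.single_eq_of_ne hj]
    · intro h
      exact absurd (Finset.mem_univ i) h
  simp only [smul_apply, smul_eq_mul]
  rw [h8]
  unfold wt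
  ring

/-- Periodic solutions of the perturbed system for small perturbations. -/
theorem exists_periodic (idx : S → Fin c) (α : S → Fin c → ℂ) (N : S → Fin d → ℤ) {ε : ℝ}
    (hε : 0 < ε) : ∃ η : ℝ, 0 < η ∧ ∀ ω : S → ℂ, (∀ s, ‖ω s‖ ≤ η) →
      ∃ h : (Fin d → ℝ) → (Fin c → ℂ), ContDiff ℝ 2 h ∧
        (∀ θ i, h (θ + Pi.single i 1) = h θ) ∧
        (∀ θ i, 1 - Complex.exp (h θ i) + ∑ s, (if idx s = i then 1 else 0) *
          (wt N ω θ s * Complex.exp (∑ j, h θ j * α s j)) = 0) ∧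
        (∀ θ, ‖h θ‖ ≤ ε) ∧ ∀ θ i, ‖fderiv ℝ h θ (Pi.single i 1)‖ ≤ ε := by
  obtain ⟨H, δ, C, hδ, hC, hH⟩ := exists_implicit idx α
  set M : ℝ := ∑ s, ∑ j, 2 * Real.pi * |(N s j : ℝ)| with hM
  have hpi := Real.pi_pos
  have hM0 : 0 ≤ M := Finset.sum_nonneg fun s _ => Finset.sum_nonneg fun j _ => by positivity
  have hMs : ∀ s j, 2 * Real.pi * |(N s j : ℝ)| ≤ M := fun s j =>
    (Finset.single_le_sum (f := fun j => 2 * Real.pi * |(N s j : ℝ)|)
      (fun j _ => by positivity) (Finset.mem_univ j)).trans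
    (Finset.single_le_sum (f := fun s => ∑ j, 2 * Real.pi * |(N s j : ℝ)|)
      (fun s _ => Finset.sum_nonneg fun j _ => by positivity) (Finset.mem_univ s))
  set η : ℝ := min (δ / 2) (min (ε / C) (ε / (C * (M + 1)))) with hη
  have hη0 : 0 < η := lt_min (by linarith) (lt_min (by positivity) (by positivity))
  refine ⟨η, hη0, fun ω hω => ⟨fun θ => H (wt N ω θ), ?_, ?_, ?_, ?_, ?_⟩⟩
  · rw [contDiff_iff_contDiffAt]
    intro θ
    have h1 : ‖wt N ω θ‖ < δ := by
      refine ((pi_norm_le_iff_of_nonneg hη0.le).2 fun s => ?_).trans_lt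
        ((min_le_left _ _).trans_lt (half_lt_self hδ))
      rw [norm_wt]
      exact hω s
    exact ((hH _ h1).1.restrict_scalars ℝ).comp θ (contDiff_wt N ω).contDiffAt
  · intro θ i
    simp only [wt_add_single]
  · intro θ i
    have h1 : ‖wt N ω θ‖ < δ := by
      refine ((pi_norm_le_iff_of_nonneg hη0.le).2 fun s => ?_).trans_lt
        ((min_le_left _ _).trans_lt (half_lt_self hδ))
      rw [norm_wt]
      exact hω s
    exact congrFun (hH _ h1).2.1 i
  · intro θ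
    have h2 : ‖wt N ω θ‖ ≤ η := (pi_norm_le_iff_of_nonneg hη0.le).2 fun s => by
      rw [norm_wt]
      exact hω s
    have h1 : ‖wt N ω θ‖ < δ := h2.trans_lt ((min_le_left _ _).trans_lt (half_lt_self hδ))
    refine (hH _ h1).2.2.1.trans ?_
    have h3 : η ≤ ε / C := (min_le_right _ _).trans (min_le_left _ _)
    rw [le_div_iff₀ hC] at h3
    nlinarith
  · intro θ i
    have h2 : ‖wt N ω θ‖ ≤ η := (pi_norm_le_iff_of_nonneg hη0.le).2 fun s => by
      rw [norm_wt]
      exact hω s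
    have h1 : ‖wt N ω θ‖ < δ := h2.trans_lt ((min_le_left _ _).trans_lt (half_lt_self hδ))
    obtain ⟨h3, -, -, h4⟩ := hH _ h1
    have h5 : HasFDerivAt H ((fderiv ℂ H (wt N ω θ)).restrictScalars ℝ) (wt N ω θ) :=
      (h3.differentiableAt (by norm_num)).hasFDerivAt.restrictScalars ℝ
    have h6 : HasFDerivAt (wt N ω) (fderiv ℝ (wt N ω) θ) θ :=
      (((contDiff_wt N ω).differentiable (by norm_num)) θ).hasFDerivAt
    have h7 : fderiv ℝ (fun θ => H (wt N ω θ)) θ = _ := (h5.comp θ h6).fderiv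
    rw [h7]
    show ‖(fderiv ℂ H (wt N ω θ)) (fderiv ℝ (wt N ω) θ (Pi.single i 1))‖ ≤ ε
    refine ((fderiv ℂ H (wt N ω θ)).le_opNorm _).trans ?_
    have h8 : ‖fderiv ℝ (wt N ω) θ (Pi.single i 1)‖ ≤ M * η := by
      rw [hasFDerivAt_wt]
      refine (pi_norm_le_iff_of_nonneg (by positivity)).2 fun s => ?_
      rw [norm_mul, norm_wt, norm_mul, norm_mul, norm_mul, Complex.norm_I, Complex.norm_real,
        Complex.norm_ofNat, mul_one, Real.norm_eq_abs, abs_of_pos hpi, Complex.norm_intCast]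
      exact mul_le_mul (hMs s i) (hω s) (norm_nonneg _) hM0
    have h9 : η ≤ ε / (C * (M + 1)) := (min_le_right _ _).trans (min_le_right _ _)
    rw [le_div_iff₀ (by positivity)] at h9
    calc ‖fderiv ℂ H (wt N ω θ)‖ * ‖fderiv ℝ (wt N ω) θ (Pi.single i 1)‖ ≤ C * (M * η) :=
          mul_le_mul h4 h8 (norm_nonneg _) hC.le
      _ ≤ η * (C * (M + 1)) := by nlinarith
      _ ≤ ε := h9

end perturb

end Pool.Agent.Helper84.TP
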