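import Pool.Agent.Helper84.TP.Edges
set_option autoImplicit false

/-!
Selection of linearly independent edges.
-/

namespace Pool.Agent.Helper84.TP

section sel

variable {ν : Type*} [Fintype ν] [DecidableEq ν]

theorem exists_sel (B : Finset ν) (E : (ν → ℤ) → Prop)
    (hw : ∀ w : ν → ℤ, (∀ l, l ∉ B → w l = 0) → w ≠ 0 → ∃ m, E m ∧ dotp w m ≠ 0) :
    ∃ m : B → ν → ℤ, (∀ x, E (m x)) ∧ (Matrix.of fun x y : B => m x y).det ≠ 0 := by
  classical
  set V : Set (B → ℚ) := {v | ∃ m : ν → ℤ, E m ∧ v = fun y : B => (m y : ℚ)} with hV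
  have hspan : Submodule.span ℚ V = ⊤ := by
    by_contra hne
    obtain ⟨f, hf0, hf⟩ := Submodule.exists_le_ker_of_lt_top _ (lt_top_iff_ne_top.2 hne)
    have h2 : ∀ x : B → ℚ, f x = ∑ l, x l * f (fun j => if l = j then 1 else 0) := fun x => by
      conv_lhs => rw [LinearMap.pi_apply_eq_sum_univ f x]
      exact Finset.sum_congr rfl fun l _ => smul_eq_mul ..
    obtain ⟨n, ρ, hn, hρ⟩ := exists_int_multiple
      (fun l => f (fun j => if l = j then 1 else 0) : B → ℚ)
    set w : ν → ℤ := fun l => if h : l ∈ B then ρ ⟨l, h⟩ else 0 with hwdef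
    have hwB : ∀ l : B, w l = ρ l := fun l => by
      rw [hwdef]
      simp
    have hwout : ∀ l, l ∉ B → w l = 0 := fun l hl => by
      rw [hwdef]
      simp [hl]
    have h3 : ∀ m : ν → ℤ, ((dotp w m : ℤ) : ℚ) = n * f fun y => (m y : ℚ) := by
      intro m
      rw [h2, Finset.mul_sum]
      unfold dotp
      have h4 : ∑ l, w l * m l = ∑ l : B, ρ l * m l := by
        rw [← Finset.sum_subset (Finset.subset_univ B) fun l _ hl => by rw [hwout l hl, zero_mul],
          ← Finset.sum_coe_sort B]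
        exact Finset.sum_congr rfl fun l _ => by rw [hwB]
      rw [h4]
      push_cast
      refine Finset.sum_congr rfl fun l _ => ?_
      have h5 := congrFun hρ l
      rw [Pi.smul_apply, smul_eq_mul] at h5
      rw [← h5]
      ring
    have hw0 : w ≠ 0 := by
      intro h0
      apply hf0
      refine LinearMap.ext fun x => ?_
      rw [h2, LinearMap.zero_apply]
      refine Finset.sum_eq_zero fun l _ => ?_
      have h5 := congrFun hρ l
      rw [Pi.smul_apply, smul_eq_mul, ← hwB, h0, Pi.zero_apply, Int.cast_zero] at h5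
      rw [(mul_eq_zero.1 h5).resolve_left hn, mul_zero]
    obtain ⟨m, hm, hwm⟩ := hw w hwout hw0
    apply hwm
    have h6 : f (fun y => (m y : ℚ)) = 0 :=
      LinearMap.mem_ker.1 (hf (Submodule.subset_span ⟨m, hm, rfl⟩))
    have h7 := h3 m
    rw [h6, mul_zero] at h7
    exact_mod_cast h7
  obtain ⟨b, hbV, hbs, hbi⟩ := exists_linearIndependent ℚ V
  have htop : ⊤ ≤ Submodule.span ℚ (Set.range ((↑) : b → (B → ℚ))) := by
    rw [Subtype.range_coe, hbs, hspan]
  set bas := Module.Basis.mk hbi htop with hbas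
  set e : b ≃ B := bas.indexEquiv (Pi.basisFun ℚ B) with he
  have hmem : ∀ x : B, ∃ m : ν → ℤ, E m ∧ ((e.symm x : b) : B → ℚ) =
      fun y : B => (m y : ℚ) :=
    fun x => hbV (e.symm x).2
  choose m hm hme using hmem
  refine ⟨m, hm, ?_⟩
  have h1 : LinearIndependent ℚ (Matrix.of fun x y : B => (m x y : ℚ)).row := by
    have h2 : LinearIndependent ℚ (fun x : B => ((e.symm x : b) : B → ℚ)) :=
      hbi.comp e.symm e.symm.injective
    have h3 : (fun x : B => ((e.symm x : b) : B → ℚ)) =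
        (Matrix.of fun x y : B => (m x y : ℚ)).row := by
      funext x
      rw [hme]
      rfl
    rw [← h3]
    exact h2
  have h4 := (Matrix.linearIndependent_rows_iff_isUnit.1 h1)
  have h5 : (Matrix.of fun x y : B => (m x y : ℚ)).det ≠ 0 :=
    ((Matrix.isUnit_iff_isUnit_det _).1 h4).ne_zero
  intro h6
  apply h5
  have h7 : (Matrix.of fun x y : B => (m x y : ℚ)).det =
      (((Matrix.of fun x y : B => m x y).det : ℤ) : ℚ) :=
    ((Int.castRingHom ℚ).map_det _).symm
  rw [h7, h6, Int.cast_zero]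

end sel

section kron

variable {k : ℕ} {ι : Fin k → Type*} [∀ i, Fintype (ι i)] [∀ i, DecidableEq (ι i)]

/-- The determinant of a tensor product of matrices does not vanish. -/
theorem det_kron_ne_zero (A : ∀ i, Matrix (ι i) (ι i) ℤ) (hA : ∀ i, (A i).det ≠ 0) :
    (Matrix.of fun t t' : ∀ i, ι i => ∏ i, A i (t i) (t' i)).det ≠ 0 := by
  classical
  set AQ : ∀ i, Matrix (ι i) (ι i) ℚ := fun i => (A i).map (Int.castRingHom ℚ) with hAQ
  have hdet : ∀ i, IsUnit (AQ i).det := by
    intro i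
    rw [isUnit_iff_ne_zero, hAQ]
    show ((A i).map (Int.castRingHom ℚ)).det ≠ 0
    rw [← RingHom.mapMatrix_apply, ← RingHom.map_det]
    simpa using hA i
  set M : Matrix (∀ i, ι i) (∀ i, ι i) ℚ := Matrix.of fun t t' => ∏ i, AQ i (t i) (t' i) with hM
  set M' : Matrix (∀ i, ι i) (∀ i, ι i) ℚ := Matrix.of fun t t' => ∏ i, (AQ i)⁻¹ (t i) (t' i)
    with hM'
  have hmul : M * M' = 1 := by
    ext t t'
    rw [Matrix.mul_apply, Matrix.one_apply]
    have h1 : ∀ s : ∀ i, ι i, M t s * M' s t' = ∏ i, (AQ i (t i) (s i) * (AQ i)⁻¹ (s i) (t' i)) :=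
      fun s => by rw [hM, hM', Matrix.of_apply, Matrix.of_apply, Finset.prod_mul_distrib]
    simp only [h1]
    have h2 : ∑ s : ∀ i, ι i, ∏ i, (AQ i (t i) (s i) * (AQ i)⁻¹ (s i) (t' i)) =
        ∏ i, ∑ x, AQ i (t i) x * (AQ i)⁻¹ x (t' i) := by
      rw [Finset.prod_univ_sum]
      rfl
    rw [h2]
    have h3 : ∀ i, ∑ x, AQ i (t i) x * (AQ i)⁻¹ x (t' i) = if t i = t' i then 1 else 0 := by
      intro i
      rw [← Matrix.mul_apply, Matrix.mul_nonsing_inv _ (hdet i), Matrix.one_apply]
    simp only [h3]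
    by_cases h : t = t'
    · subst h
      simp
    · rw [if_neg h]
      obtain ⟨i, hi⟩ := Function.ne_iff.1 h
      exact Finset.prod_eq_zero (Finset.mem_univ i) (if_neg hi)
  have hMdet : M.det ≠ 0 := by
    intro h0
    have h1 := congrArg Matrix.det hmul
    rw [Matrix.det_mul, h0, zero_mul, Matrix.det_one] at h1
    exact zero_ne_one h1
  intro h0
  apply hMdet
  have h1 : M = (Matrix.of fun t t' : ∀ i, ι i => ∏ i, A i (t i) (t' i)).map
      (Int.castRingHom ℚ) := by
    ext t t'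
    rw [hM, Matrix.of_apply, Matrix.map_apply, Matrix.of_apply, map_prod]
    rfl
  rw [h1, ← RingHom.mapMatrix_apply, ← RingHom.map_det, h0, map_zero]

end kron

end Pool.Agent.Helper84.TP
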