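import Pool.Agent.Helper84.TP.Torus
set_option autoImplicit false

/-!
Nonvanishing of the determinant of the regulators.
-/

namespace Pool.Agent.Helper84.TP

open Pool.Agent.TH826.MK

section tori

variable {K : Type*} [Field K] {ν : Type*} [Fintype ν] [DecidableEq ν] {k d : ℕ}
  {F : Fin k → Lau K ν} {W : Lau K ν}

omit [Fintype ν] [DecidableEq ν] in
theorem linearIndependent_of_minor {m : Fin k → ν → ℤ} {s : Fin k → ν}
    (h : (Matrix.of fun i j => m i (s j)).det ≠ 0) : LinearIndependent ℤ m := by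
  have h1 : LinearIndependent ℤ (fun i => (Matrix.of fun i j => m i (s j)) i) :=
    Matrix.linearIndependent_rows_of_det_ne_zero h
  refine LinearIndependent.of_comp (LinearMap.funLeft ℤ ℤ s) ?_
  exact h1

theorem exists_tori {T : Type*} [Fintype T] [DecidableEq T] (σ : K →+* ℂ)
    (hν : Fintype.card ν = k + (d + 1)) (c : T → MixedCell F W) (s : T → Fin k → ν)
    (g : T → Fin (d + 1) → ν) (hsg : ∀ t, Function.Bijective (Sum.elim (s t) (g t)))
    (hdet : (Matrix.of fun t t' : T => (Matrix.of fun i j => (c t).m i (s t' j)).det).det ≠ 0) :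
    ∃ Λ : ℝ, 1 < Λ ∧ ∀ lam : K, Λ ≤ ‖σ lam‖ → ∃ Γ : T → Torus (XRing F W lam) d,
      (∀ t θ x, (Γ t).e θ (xcst F W lam x) = σ x) ∧
      (Matrix.of fun t t' : T => (Γ t).reg (symb fun l => xu F W lam (g t' l))).det ≠ 0 := by
  classical
  have hν0 : 0 < Fintype.card ν := by omega
  have hcard : Fintype.card (Fin k ⊕ Fin (d + 1)) = Fintype.card ν := by
    rw [hν, Fintype.card_sum, Fintype.card_fin, Fintype.card_fin]
  set e0 : Fin k ⊕ Fin (d + 1) ≃ ν := Fintype.equivOfCardEq hcard with he0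
  have hm : ∀ t, LinearIndependent ℤ (c t).m := by
    intro t
    by_contra hc
    refine hdet (Matrix.det_eq_zero_of_row_eq_zero t fun t' => ?_)
    by_contra h
    exact hc (linearIndependent_of_minor h)
  have hψm : ∀ t i, dotp (c t).psi ((c t).m i) = 0 := by
    intro t i
    unfold MixedCell.m
    rw [dotp_sub, (c t).hab i, sub_self]
  choose p τ hpm hpv hτm hτv hinj using fun t => exists_cell hν (hm t) (hψm t) (c t).hpos
  set D : T → ℚ := fun t =>
    ((cellMat (p t) (c t).psi (c t).v (τ t)).submatrix e0 id).det with hD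
  have hD0 : ∀ t, D t ≠ 0 := fun t => cellMat_det_ne_zero e0 (hinj t)
  have hπ : (2 * Real.pi) ^ d ≠ 0 := pow_ne_zero _ (by have := Real.pi_pos; positivity)
  set lead : Matrix T T ℝ := Matrix.of fun t t' => (2 * Real.pi) ^ d *
    (Matrix.of fun l j => ((cellMat (p t) (c t).psi (c t).v (τ t) (g t' l) (Sum.inr j) : ℚ) :
      ℝ)).det with hlead
  have hlead0 : lead.det ≠ 0 := by
    have e1 : lead = Matrix.of fun t t' => ((2 * Real.pi) ^ d * (D t : ℝ)) *
        (Matrix.of fun t t' : T => (sgn e0 (hsg t') : ℝ) * (Matrix.of fun t t' : T =>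
          (((Matrix.of fun i j => (c t).m i (s t' j)).det : ℤ) : ℝ)) t t') t t' := by
      ext t t'
      simp only [hlead, Matrix.of_apply]
      have h1 := det_cell e0 (v := (c t).v) (hψm t) (hpm t) (hτm t) (hsg t')
      have h2 : (Matrix.of fun l j => ((cellMat (p t) (c t).psi (c t).v (τ t) (g t' l)
          (Sum.inr j) : ℚ) : ℝ)).det = (((Matrix.of fun l j =>
          cellMat (p t) (c t).psi (c t).v (τ t) (g t' l) (Sum.inr j)).det : ℚ) : ℝ) :=
        ((Rat.castHom ℝ).map_det _).symm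
      have h3 : (Matrix.of fun i j => ((c t).m i (s t' j) : ℚ)).det =
          (((Matrix.of fun i j => (c t).m i (s t' j)).det : ℤ) : ℚ) :=
        ((Int.castRingHom ℚ).map_det _).symm
      rw [h2, h1, h3, Rat.cast_mul, Rat.cast_mul, Rat.cast_intCast]
      ring
    rw [e1, Matrix.det_mul_column, Matrix.det_mul_row]
    refine mul_ne_zero (Finset.prod_ne_zero_iff.2 fun t _ => mul_ne_zero hπ ?_)
      (mul_ne_zero (Finset.prod_ne_zero_iff.2 fun t _ => ?_) ?_)
    · exact_mod_cast hD0 t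
    · exact_mod_cast sgn_ne_zero e0 (hsg t)
    · have h4 : (Matrix.of fun t t' : T =>
          (((Matrix.of fun i j => (c t).m i (s t' j)).det : ℤ) : ℝ)).det =
          (((Matrix.of fun t t' : T => (Matrix.of fun i j => (c t).m i (s t' j)).det).det : ℤ) :
            ℝ) := ((Int.castRingHom ℝ).map_det _).symm
      rw [h4]
      exact_mod_cast hdet
  obtain ⟨δ, hδ, hnear⟩ := Pool.Agent.TH826.SX.det_ne_zero_near lead hlead0
  choose Λ hΛ1 hΛ using fun t : T =>
    exists_torus hν0 σ (c t) (hpm t) (hpv t) (hτm t) (hτv t) (ε := δ / 2) (by linarith)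
  have hsum : 0 ≤ ∑ t, |Λ t| := Finset.sum_nonneg fun t _ => abs_nonneg _
  refine ⟨∑ t, |Λ t| + 2, by linarith, fun lam hlam => ?_⟩
  have hΛc : ∀ t, Λ t ≤ ∑ t, |Λ t| + 2 := by
    intro t
    have h1 : |Λ t| ≤ ∑ t, |Λ t| := Finset.single_le_sum (f := fun t => |Λ t|)
      (fun t _ => abs_nonneg _) (Finset.mem_univ t)
    have h2 := le_abs_self (Λ t)
    linarith
  choose Γ hΓ1 hΓ2 using fun t => hΛ t lam ((hΛc t).trans hlam)
  refine ⟨Γ, hΓ1, ?_⟩
  have hs : Real.log ‖σ lam‖ ≠ 0 := (Real.log_pos (by linarith)).ne'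
  have h1 : (Matrix.of fun t t' : T => (Γ t).reg (symb fun l => xu F W lam (g t' l)) /
      Real.log ‖σ lam‖).det ≠ 0 := by
    refine hnear _ fun t t' => ?_
    rw [Matrix.of_apply, hlead, Matrix.of_apply]
    exact (hΓ2 t (g t')).trans_lt (by linarith)
  have h2 : (Matrix.of fun t t' : T => (Γ t).reg (symb fun l => xu F W lam (g t' l))) =
      Real.log ‖σ lam‖ • (Matrix.of fun t t' : T =>
        (Γ t).reg (symb fun l => xu F W lam (g t' l)) / Real.log ‖σ lam‖) := by
    ext t t'
    rw [Matrix.smul_apply, Matrix.of_apply, Matrix.of_apply, smul_eq_mul]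
    field_simp
  rw [h2, Matrix.det_smul]
  exact mul_ne_zero (pow_ne_zero _ hs) h1

end tori

end Pool.Agent.Helper84.TP
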