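import Pool.Agent.Helper84.TP.Cellz
set_option autoImplicit false

/-!
The regulators on the torus of a mixed cell, for large `λ`.
-/

namespace Pool.Agent.Helper84.TP

open Pool.Agent.TH826.MK

section torus

variable {K : Type*} [Field K] {ν : Type*} [Fintype ν] [DecidableEq ν] {k d : ℕ}
  {F : Fin k → Lau K ν} {W : Lau K ν}

omit [Fintype ν] [DecidableEq ν] in
theorem abs_sum_le {ι : Type*} [Fintype ι] {f g : ι → ℝ} {C P : ℝ} (hf : ∀ x, |f x| ≤ C)
    (hP : ∑ x, |g x| ≤ P) (hC : 0 ≤ C) : |∑ x, f x * g x| ≤ C * P := by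
  refine (Finset.abs_sum_le_sum_abs _ _).trans ?_
  calc ∑ x, |f x * g x| ≤ ∑ x, C * |g x| := Finset.sum_le_sum fun x _ => by
        rw [abs_mul]
        exact mul_le_mul_of_nonneg_right (hf x) (abs_nonneg _)
    _ = C * ∑ x, |g x| := by rw [Finset.mul_sum]
    _ ≤ C * P := mul_le_mul_of_nonneg_left hP hC

theorem exists_torus (hν : 0 < Fintype.card ν) (σ : K →+* ℂ) (c : MixedCell F W)
    {p : Fin k → ν → ℚ} {τ : Fin d → ν → ℤ}
    (hpm : ∀ i j, ∑ l, (c.m i l : ℚ) * p j l = if i = j then 1 else 0)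
    (hpv : ∀ j, ∑ l, (c.v l : ℚ) * p j l = 0) (hτm : ∀ i j, dotp (c.m i) (τ j) = 0)
    (hτv : ∀ j, dotp c.v (τ j) = 0) {ε : ℝ} (hε : 0 < ε) :
    ∃ Λ : ℝ, 1 < Λ ∧ ∀ lam : K, Λ ≤ ‖σ lam‖ → ∃ Γ : Torus (XRing F W lam) d,
      (∀ θ x, Γ.e θ (xcst F W lam x) = σ x) ∧
      ∀ g : Fin (d + 1) → ν,
        |Γ.reg (symb fun l => xu F W lam (g l)) / Real.log ‖σ lam‖ - (2 * Real.pi) ^ d *
          (Matrix.of fun l j => ((cellMat p c.psi c.v τ (g l) (Sum.inr j) : ℚ) : ℝ)).det| ≤ ε := by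
  classical
  have : Nonempty ν := Fintype.card_pos_iff.1 hν
  choose δ hδ hclose using fun g : Fin (d + 1) → ν =>
    Pool.Agent.TH826.SX.pairing_close (Matrix.of fun l j => ((cellMat p c.psi c.v τ (g l) (Sum.inr j) : ℚ) : ℝ)) hε
  obtain ⟨g0, -, hg0⟩ := Finset.exists_min_image Finset.univ δ
    ⟨fun _ => Classical.arbitrary ν, Finset.mem_univ _⟩
  set δ0 : ℝ := δ g0 with hδ0
  have hδ0pos : 0 < δ0 := hδ g0
  have hδle : ∀ g, δ0 ≤ δ g := fun g => hg0 g (Finset.mem_univ g)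
  set ph := phat c.psi c.v p with hph
  set P : ℝ := ∑ l, ∑ x, |ph x l| with hP
  have hPl : ∀ l, ∑ x, |ph x l| ≤ P := fun l =>
    Finset.single_le_sum (f := fun l => ∑ x, |ph x l|)
      (fun l _ => Finset.sum_nonneg fun x _ => abs_nonneg _) (Finset.mem_univ l)
  have hP0 : 0 ≤ P := Finset.sum_nonneg fun l _ => Finset.sum_nonneg fun x _ => abs_nonneg _
  set ε' : ℝ := min 1 (δ0 / (P + 1)) with hε'
  have hε'0 : 0 < ε' := lt_min one_pos (by positivity)
  have hε'1 : ε' ≤ 1 := min_le_left _ _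
  have hε'P : ε' * P < δ0 := by
    have h1 : ε' ≤ δ0 / (P + 1) := min_le_right _ _
    rw [le_div_iff₀ (by linarith)] at h1
    linarith
  obtain ⟨Λ1, q, hz⟩ := exists_zeta σ c hpm hpv hτm hτv hε'0
  set Qs : ℝ := |Real.log ‖σ (W.coeff c.v)‖| + ∑ i, |(q i).re| with hQs
  have hQs0 : 0 ≤ Qs := add_nonneg (abs_nonneg _) (Finset.sum_nonneg fun i _ => abs_nonneg _)
  set L : ℝ := (Qs + 1) * P / δ0 + 1 with hL
  have hL0 : 1 ≤ L := by
    have : 0 ≤ (Qs + 1) * P / δ0 := by positivity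
    linarith
  refine ⟨max (max Λ1 2) (Real.exp L), lt_max_of_lt_left (lt_max_of_lt_right one_lt_two),
    fun lam hlam => ?_⟩
  have hlam1 : Λ1 ≤ ‖σ lam‖ := (le_max_left _ _).trans ((le_max_left _ _).trans hlam)
  have hlam2 : (2 : ℝ) ≤ ‖σ lam‖ := (le_max_right _ _).trans ((le_max_left _ _).trans hlam)
  have hlam3 : Real.exp L ≤ ‖σ lam‖ := (le_max_right _ _).trans hlam
  set s : ℝ := Real.log ‖σ lam‖ with hs
  have hsL : L ≤ s := by
    have h1 := Real.log_le_log (Real.exp_pos _) hlam3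
    rwa [Real.log_exp] at h1
  have hs0 : 0 < s := by linarith
  have hsδ : (Qs + 1) * P < s * δ0 := by
    have h1 : (Qs + 1) * P / δ0 < s := by linarith
    rwa [div_lt_iff₀ hδ0pos] at h1
  obtain ⟨h, hh1, hh2, hh3, hh4, hh5⟩ := hz lam hlam1
  have hσv : σ (W.coeff c.v) ≠ 0 := (map_ne_zero σ).2 c.hv
  have hln : 0 < ‖σ lam‖ := by linarith
  set Q : Fin (k + 1) → ℂ := Fin.cons (Complex.log (σ (W.coeff c.v) / σ lam)) q with hQ
  set ζ := zeta Q ph τ h with hζ
  set Γ : Torus (XRing F W lam) d := mkT ζ τ (contDiff_zeta Q ph τ h hh1)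
    (fun θ j => zeta_add_single Q ph τ h hh2 θ j) hh3 with hΓ
  refine ⟨Γ, fun θ x => mkT_xcst ζ τ _ _ _ θ x, fun g => ?_⟩
  rw [Torus.reg_symb]
  have hfn : ∀ l, Γ.fn (xu F W lam l : XRing F W lam) = fun θ => Complex.exp (ζ θ l) := fun l =>
    mkT_xu ζ τ _ _ _ l
  refine hclose g _ s hs0.ne' (fun l => Γ.good _) (fun l θ => ?_) (fun l j θ => ?_)
  · rw [hfn, log_norm_exp, re_zeta, Matrix.of_apply]
    refine lt_of_lt_of_le ?_ (hδle g)
    have e0 : ((cellMat p c.psi c.v τ (g l) (Sum.inr 0) : ℚ) : ℝ) =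
        (c.psi (g l) : ℝ) / dotp c.psi c.v := by
      unfold cellMat
      simp only [Matrix.of_apply, Sum.elim_inr, Fin.cons_zero]
      push_cast
      rfl
    rw [e0]
    set Q' : Fin (k + 1) → ℝ := Fin.cons (Real.log ‖σ (W.coeff c.v)‖) fun i => (q i).re with hQ'
    have e1 : ∑ x, ((Q x).re + (h θ x).re) * ph x (g l) =
        ∑ x, (Q' x + (h θ x).re) * ph x (g l) + s * ((c.psi (g l) : ℝ) / dotp c.psi c.v) := by
      rw [Fin.sum_univ_succ, Fin.sum_univ_succ]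
      simp only [hQ, hQ', Fin.cons_zero, Fin.cons_succ]
      rw [Complex.log_re, norm_div, Real.log_div (norm_ne_zero_iff.2 hσv) hln.ne', ← hs]
      have e2 : ph 0 (g l) = -((c.psi (g l) : ℝ) / dotp c.psi c.v) := rfl
      rw [e2]
      ring
    rw [e1]
    have h1 : |∑ x, (Q' x + (h θ x).re) * ph x (g l)| ≤ (Qs + 1) * P := by
      refine abs_sum_le (fun x => ?_) (hPl (g l)) (by linarith)
      refine (abs_add_le _ _).trans (add_le_add ?_ ?_)
      · refine Fin.cases ?_ (fun i => ?_) x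
        · simp only [hQ', Fin.cons_zero]
          rw [hQs]
          have : 0 ≤ ∑ i, |(q i).re| := Finset.sum_nonneg fun i _ => abs_nonneg _
          linarith
        · simp only [hQ', Fin.cons_succ]
          have h2 : |(q i).re| ≤ ∑ i, |(q i).re| :=
            Finset.single_le_sum (f := fun i => |(q i).re|) (fun i _ => abs_nonneg _)
              (Finset.mem_univ i)
          have h3 := abs_nonneg (Real.log ‖σ (W.coeff c.v)‖)
          rw [hQs]
          linarith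
      · exact (Complex.abs_re_le_norm _).trans ((norm_le_pi_norm (h θ) x).trans
          ((hh4 θ).trans hε'1))
    have e3 : (∑ x, (Q' x + (h θ x).re) * ph x (g l) + s * ((c.psi (g l) : ℝ) /
        dotp c.psi c.v)) / s - (c.psi (g l) : ℝ) / dotp c.psi c.v =
        (∑ x, (Q' x + (h θ x).re) * ph x (g l)) / s := by
      field_simp
      ring
    rw [e3, abs_div, abs_of_pos hs0, div_lt_iff₀ hs0]
    calc |∑ x, (Q' x + (h θ x).re) * ph x (g l)| ≤ (Qs + 1) * P := h1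
      _ < s * δ0 := hsδ
      _ = δ0 * s := mul_comm _ _
  · rw [hfn, lw_exp (contDiff_pi.1 (contDiff_zeta Q ph τ h hh1) (g l)), fderiv_zeta Q ph τ h hh1,
      Matrix.of_apply]
    refine lt_of_lt_of_le ?_ (hδle g)
    have e0 : (((cellMat p c.psi c.v τ (g l) (Sum.inr j.succ) : ℚ) : ℝ) : ℂ) =
        (τ j (g l) : ℂ) := by
      unfold cellMat
      simp only [Matrix.of_apply, Sum.elim_inr, Fin.cons_succ]
      push_cast
      rfl
    rw [e0, add_sub_cancel_right]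
    refine (norm_sum_le _ _).trans_lt ?_
    calc ∑ x, ‖fderiv ℝ h θ (Pi.single j 1) x * (ph x (g l) : ℂ)‖
        ≤ ∑ x, ε' * |ph x (g l)| := Finset.sum_le_sum fun x _ => by
          rw [norm_mul, Complex.norm_real, Real.norm_eq_abs]
          exact mul_le_mul_of_nonneg_right ((norm_le_pi_norm _ x).trans (hh5 θ j)) (abs_nonneg _)
      _ = ε' * ∑ x, |ph x (g l)| := by rw [Finset.mul_sum]
      _ ≤ ε' * P := mul_le_mul_of_nonneg_left (hPl _) hε'0.le
      _ < δ0 := hε'P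

end torus

end Pool.Agent.Helper84.TP
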