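import Pool.Agent.Helper84.TP.Laurent
import Pool.Agent.TH826.MK.Variety
set_option autoImplicit false

/-!
The symbols of the coordinates on tempered systems are unramified.
-/

namespace Pool.Agent.Helper84.TP

open scoped WithZero

open Pool.Agent.TH826.MK

open Pool.Agent.TH826.EF (onePart onePart_le mem_onePart_of_sum_lt)

section val

variable {K : Type*} [Field K] {ν : Type*} [Fintype ν] [DecidableEq ν] {L : Type*} [Field L]
  (F : Lau K ν →+* L)

/-- the image of `y_i` -/
noncomputable def yL (i : ν) : Lˣ := Units.map (F : Lau K ν →* L) (yu K i)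

/-- the constants -/
noncomputable def cF : K →+* L := F.comp AddMonoidAlgebra.singleZeroRingHom

theorem mono_yL (u : ν → ℤ) :
    mono (yL F) u = Units.map (F : Lau K ν →* L) (mono (yu K) u) := by
  unfold mono yL
  rw [map_prod]
  exact Finset.prod_congr rfl fun i _ => (map_zpow _ _ _).symm

theorem coe_mono_yL (u : ν → ℤ) :
    ((mono (yL F) u : Lˣ) : L) = F (AddMonoidAlgebra.single u 1) := by
  rw [mono_yL, ← coe_mono_yu]
  rfl

theorem map_single (u : ν → ℤ) (x : K) :
    F (AddMonoidAlgebra.single u x) = cF F x * (mono (yL F) u : Lˣ) := by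
  rw [coe_mono_yL]
  unfold cF
  rw [RingHom.comp_apply, ← map_mul]
  congr 1
  have h : AddMonoidAlgebra.singleZeroRingHom x = (AddMonoidAlgebra.single 0 x : Lau K ν) := rfl
  rw [h, AddMonoidAlgebra.single_mul_single, zero_add, mul_one]

theorem map_eq (P : Lau K ν) :
    F P = ∑ u ∈ P.coeff.support, cF F (P.coeff u) * (mono (yL F) u : Lˣ) := by
  conv_lhs => rw [← AddMonoidAlgebra.sum_coeff_single P]
  rw [Finsupp.sum, map_sum]
  exact Finset.sum_congr rfl fun u _ => map_single F u _

theorem map_sums (P : Sums K ν) :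
    F P.poly = ∑ j, cF F (P.co j) * (mono (yL F) (P.exp j) : Lˣ) := by
  unfold Sums.poly
  rw [map_sum]
  exact Finset.sum_congr rfl fun j _ => map_single F _ _

variable {F} {v : Valuation L ℤᵐ⁰} {φ : ν → ℤ}

omit [Fintype ν] [DecidableEq ν] in
theorem exp_sum' {ι : Type*} (s : Finset ι) (f : ι → ℤ) :
    (WithZero.exp (∑ i ∈ s, f i) : ℤᵐ⁰) = ∏ i ∈ s, WithZero.exp (f i) := by
  classical
  induction s using Finset.induction_on with
  | empty => simp
  | insert i s hi ih => rw [Finset.sum_insert hi, Finset.prod_insert hi, WithZero.exp_add, ih]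

theorem val_mono (hφ : ∀ i, v (yL F i : L) = WithZero.exp (-φ i)) (u : ν → ℤ) :
    v ((mono (yL F) u : Lˣ) : L) = WithZero.exp (-dotp φ u) := by
  have h1 : ((mono (yL F) u : Lˣ) : L) = ∏ i, (yL F i : L) ^ u i := by
    unfold mono
    rw [Units.coe_prod]
    exact Finset.prod_congr rfl fun i _ => Units.val_zpow_eq_zpow_val _ _
  rw [h1, map_prod]
  have h2 : ∀ i, v ((yL F i : L) ^ u i) = WithZero.exp (-(φ i * u i)) := by
    intro i
    rw [map_zpow₀, hφ, ← WithZero.exp_zsmul, smul_eq_mul]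
    congr 1
    ring
  simp only [h2]
  unfold dotp
  rw [← Finset.sum_neg_distrib]
  exact (exp_sum' Finset.univ fun i => -(φ i * u i)).symm

theorem val_le (hφ : ∀ i, v (yL F i : L) = WithZero.exp (-φ i)) {P : Lau K ν}
    (hP : ∀ u, IsIntegral ℤ (P.coeff u)) {β : ℤ} (hβ : ∀ u ∈ P.coeff.support, β ≤ dotp φ u) :
    v (F P) ≤ WithZero.exp (-β) := by
  rw [map_eq]
  refine Valuation.map_sum_le v fun u hu => ?_
  rw [map_mul, val_mono hφ]
  calc v (cF F (P.coeff u)) * WithZero.exp (-dotp φ u) ≤ 1 * WithZero.exp (-dotp φ u) :=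
        mul_le_mul_left (val_le_one_of_integral v (map_isIntegral_int _ (hP u))) _
    _ = WithZero.exp (-dotp φ u) := one_mul _
    _ ≤ WithZero.exp (-β) := by
        rw [WithZero.exp_le_exp]
        linarith [hβ u hu]

/-- One of the factors is small. -/
theorem exists_small (hφ : ∀ i, v (yL F i : L) = WithZero.exp (-φ i)) {H R : Lau K ν} {l : ℕ}
    {P : Fin l → Sums K ν} (hH : ∀ u, IsIntegral ℤ (H.coeff u))
    (hR : ∀ u, IsIntegral ℤ (R.coeff u)) (h : inForm φ H * R = ∏ j, (P j).poly) (hF : F H = 0) :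
    ∃ (j : Fin l) (i : Fin ((P j).k + 1)),
      (∀ i', v ((mono (yL F) ((P j).exp i') : Lˣ) : L) ≤
        v ((mono (yL F) ((P j).exp i) : Lˣ) : L)) ∧
      v (F (P j).poly) < v ((mono (yL F) ((P j).exp i) : Lˣ) : L) := by
  have h1 : ∀ j : Fin l, ∃ i : Fin ((P j).k + 1), ∀ i', dotp φ ((P j).exp i) ≤
      dotp φ ((P j).exp i') := by
    intro j
    obtain ⟨i, -, hi⟩ := Finset.exists_min_image Finset.univ (fun i => dotp φ ((P j).exp i))
      ⟨0, Finset.mem_univ _⟩
    exact ⟨i, fun i' => hi i' (Finset.mem_univ _)⟩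
  choose i hi using h1
  by_contra hcon
  push Not at hcon
  have h2 : ∀ j, WithZero.exp (-dotp φ ((P j).exp (i j))) ≤ v (F (P j).poly) := by
    intro j
    rw [← val_mono hφ]
    refine hcon j (i j) fun i' => ?_
    rw [val_mono hφ, val_mono hφ, WithZero.exp_le_exp]
    linarith [hi j i']
  have h3 : WithZero.exp (-∑ j, dotp φ ((P j).exp (i j))) ≤ v (F (inForm φ H)) * v (F R) := by
    rw [← map_mul, ← map_mul, h, map_prod, map_prod, ← Finset.sum_neg_distrib]
    rw [exp_sum' Finset.univ]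
    exact Finset.prod_le_prod' fun j _ => h2 j
  have h4 : v (F (inForm φ H)) * v (F R) ≠ 0 := by
    intro h0
    rw [h0] at h3
    exact absurd h3 (not_le.2 WithZero.exp_pos)
  have hin : inForm φ H ≠ 0 := by
    rintro h0
    rw [h0, map_zero, map_zero, zero_mul] at h4
    exact h4 rfl
  have hR0 : R ≠ 0 := by
    rintro rfl
    rw [map_zero, map_zero, mul_zero] at h4
    exact h4 rfl
  have hu0 : ∃ u, u ∈ (inForm φ H).coeff.support := by
    by_contra hcon
    push Not at hcon
    exact hin (AddMonoidAlgebra.ext (Finsupp.ext fun u => Finsupp.notMem_support_iff.1 (hcon u)))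
  obtain ⟨u0, hu0⟩ := hu0
  obtain ⟨w0, hw0⟩ := exists_mem_inForm (φ := φ) hR0
  have hμ : ∀ u ∈ (inForm φ H).coeff.support, dotp φ u = dotp φ u0 := fun u hu =>
    le_antisymm (inForm_le hu (inForm_subset hu0)) (inForm_le hu0 (inForm_subset hu))
  have hβ : ∀ u ∈ (inForm φ R).coeff.support, dotp φ u = dotp φ w0 := fun u hu =>
    le_antisymm (inForm_le hu (inForm_subset hw0)) (inForm_le hw0 (inForm_subset hu))
  obtain ⟨u, hu, hud⟩ := exists_mem_mul hin hR0 hμ hβ
  rw [h] at hu
  have h5 := le_of_mem_prod Finset.univ (fun j => (P j).poly) (fun j => dotp φ ((P j).exp (i j)))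
    (fun j _ u hu => by
      obtain ⟨i', rfl⟩ := Sums.exists_of_mem hu
      exact hi j i') hu
  have h6 : v (F (inForm φ H)) ≤ WithZero.exp (-(dotp φ u0 + 1)) := by
    have h7 : F (inForm φ H) = -F (H - inForm φ H) := by
      rw [map_sub, hF, zero_sub, neg_neg]
    rw [h7, Valuation.map_neg]
    refine val_le hφ (fun u => ?_) fun u hu => ?_
    · by_cases hu : ∀ w ∈ H.coeff.support, dotp φ u ≤ dotp φ w
      · rw [AddMonoidAlgebra.coeff_sub, Finsupp.sub_apply, inForm_apply_of_mem hu, sub_self]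
        exact isIntegral_zero
      · have h8 : (inForm φ H).coeff u = 0 := by
          unfold inForm
          rw [AddMonoidAlgebra.coeff_ofCoeff]
          exact Finsupp.filter_apply_neg _ _ hu
        rw [AddMonoidAlgebra.coeff_sub, Finsupp.sub_apply, h8, sub_zero]
        exact hH u
    · have h9 := sub_inForm_lt hu hu0
      omega
  have h7 : v (F R) ≤ WithZero.exp (-dotp φ w0) :=
    val_le hφ hR fun u hu => inForm_le hw0 hu
  have h8 := h3.trans (mul_le_mul' h6 h7)
  rw [← WithZero.exp_add, WithZero.exp_le_exp] at h8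
  rw [hud] at h5
  linarith

omit [Fintype ν] [DecidableEq ν] in
theorem Sums.co_ne_zero (P : Sums K ν) (j : Fin (P.k + 1)) : P.co j ≠ 0 := by
  obtain ⟨m, hm, h⟩ := P.tors j
  intro h0
  rw [h0, zero_pow hm.ne'] at h
  exact zero_ne_one h

/-- The coefficient as a unit of `L`. -/
noncomputable def tL (F : Lau K ν →+* L) (P : Sums K ν) (j : Fin (P.k + 1)) : Lˣ :=
  Units.map (cF F : K →* L) (Units.mk0 (P.co j) (P.co_ne_zero j))

theorem coe_tL (P : Sums K ν) (j : Fin (P.k + 1)) : (tL F P j : L) = cF F (P.co j) := rfl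

theorem tL_tors (P : Sums K ν) (j : Fin (P.k + 1)) : ∃ m : ℕ, 0 < m ∧ tL F P j ^ m = 1 := by
  obtain ⟨m, hm, h⟩ := P.tors j
  refine ⟨m, hm, Units.ext ?_⟩
  rw [Units.val_pow_eq_pow_val, coe_tL, ← map_pow, h, map_one, Units.val_one]

theorem val_tL (P : Sums K ν) (j : Fin (P.k + 1)) : v (tL F P j : L) = 1 := by
  obtain ⟨m, hm, h⟩ := tL_tors (F := F) P j
  have h1 : v (tL F P j : L) ^ m = 1 := by
    rw [← map_pow, ← Units.val_pow_eq_pow_val, h, Units.val_one, map_one]
  exact (pow_eq_one_iff.1 h1).resolve_right hm.ne'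

/-- The Steinberg relation. -/
theorem mem_onePart_of_small (P : Sums K ν) (i : Fin (P.k + 1))
    (hi : ∀ i', v ((mono (yL F) (P.exp i') : Lˣ) : L) ≤ v ((mono (yL F) (P.exp i) : Lˣ) : L))
    (h : v (F P.poly) < v ((mono (yL F) (P.exp i) : Lˣ) : L)) :
    symb (fun j => mono (yL F) (P.diff j)) ∈ onePart v P.k := by
  set z : Fin (P.k + 1) → Lˣ := fun j => tL F P j * mono (yL F) (P.exp j) with hz
  have hvz : ∀ j, v (z j : L) = v ((mono (yL F) (P.exp j) : Lˣ) : L) := by
    intro j
    rw [hz, Units.val_mul, map_mul, val_tL, one_mul]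
  have hsum : ∑ j, (z j : L) = F P.poly := by
    rw [map_sums]
    exact Finset.sum_congr rfl fun j _ => by rw [hz, Units.val_mul, coe_tL]
  have h1 := mem_onePart_of_sum_lt v z i (fun j => by rw [hvz, hvz]; exact hi j)
    (by rw [hsum, hvz]; exact h)
  have h2 : (fun j : Fin P.k => z j.succ / z 0) =
      fun j : Fin P.k => (tL F P j.succ / tL F P 0) * mono (yL F) (P.diff j) := by
    funext j
    unfold Sums.diff
    rw [mono_sub, hz]
    exact mul_div_mul_comm _ _ _ _
  rw [h2, symb_tors] at h1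
  · exact h1
  · intro j
    obtain ⟨m, hm, hm1⟩ := tL_tors (F := F) P j.succ
    obtain ⟨m', hm', hm1'⟩ := tL_tors (F := F) P 0
    refine ⟨m * m', Nat.mul_pos hm hm', ?_⟩
    rw [div_pow, pow_mul, hm1, one_pow, mul_comm m, pow_mul, hm1', one_pow, div_one]

/-- The symbols of the coordinates are unramified. -/
theorem symb_mem_unitPart {c p : ℕ} {H : Fin c → Lau K ν}
    (hint : ∀ i u, IsIntegral ℤ ((H i).coeff u)) (hH : Tempered H) (hF : ∀ i, F (H i) = 0)
    (hp : Fintype.card ν < p + c) (v : Valuation L ℤᵐ⁰) (g : Fin p → ν) :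
    symb (fun l => yL F (g l)) ∈ unitPart v p := by
  choose m hm using fun i => exists_ord v (yL F i)
  by_cases h0 : m = 0
  · refine Submodule.subset_span ⟨_, fun l => ?_, rfl⟩
    rw [hm, h0]
    rfl
  · have hφ0 : -m ≠ 0 := neg_ne_zero.2 h0
    have hφ : ∀ i, v (yL F i : L) = WithZero.exp (-(-m) i) := by
      intro i
      rw [hm, Pi.neg_apply, neg_neg]
    obtain ⟨R, l, P, hR, hprod, hind⟩ := hH (-m) hφ0
    choose j i hi hsmall using fun a => exists_small hφ (hint a) (hR a) (hprod a) (hF a)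
    refine onePart_le v (mem_onePart_of_blocks v (yL F) (fun a => (P a (j a)).k)
      (fun a => (P a (j a)).diff) (hind j fun a => ?_)
      (fun a => mem_onePart_of_small (P a (j a)) (i a) (hi a) (hsmall a)) hp g)
    by_contra hk
    have hk0 : (P a (j a)).k = 0 := by omega
    have h1 := hsmall a
    rw [map_sums] at h1
    have h2 : ∀ x : Fin ((P a (j a)).k + 1), x = i a := by
      intro x
      apply Fin.ext
      have := x.isLt
      have := (i a).isLt
      omega
    rw [Finset.sum_eq_single (i a)] at h1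
    · rw [map_mul, ← coe_tL, val_tL, one_mul] at h1
      exact lt_irrefl _ h1
    · intro b _ hb
      exact absurd (h2 b) hb
    · intro h
      exact absurd (Finset.mem_univ _) h

end val

end Pool.Agent.Helper84.TP
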