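import Pool.Agent.Helper84.TP.Point
import Pool.Agent.Helper84.TP.Perturb
import Pool.Agent.Helper84.TP.CellDet
set_option autoImplicit false

/-!
The logarithmic coordinates `ζ(θ)` of a torus, and estimates.
-/

namespace Pool.Agent.Helper84.TP

open Pool.Agent.TH826.MK Filter Topology

section small

theorem exists_tiny {S : Type*} [Fintype S] {k : ℕ} (T : S → ℂ) (α : S → Fin (k + 1) → ℝ)
    (q : Fin k → ℂ) (hα : ∀ s, T s ≠ 0 → 0 < α s 0) {η : ℝ} (hη : 0 < η) :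
    ∃ M : ℝ, ∀ q0 : ℂ, q0.re ≤ M → ∀ s,
      ‖T s * Complex.exp (∑ y, (Fin.cons q0 q : Fin (k + 1) → ℂ) y * (α s y : ℂ))‖ ≤ η := by
  have h1 : ∀ s, ∃ M : ℝ, ∀ q0 : ℂ, q0.re ≤ M →
      ‖T s * Complex.exp (∑ y, (Fin.cons q0 q : Fin (k + 1) → ℂ) y * (α s y : ℂ))‖ ≤ η := by
    intro s
    by_cases hT : T s = 0
    · exact ⟨0, fun q0 _ => by rw [hT, zero_mul, norm_zero]; exact hη.le⟩
    have h2 : Tendsto (fun r : ℝ => ‖T s‖ * Real.exp (r * α s 0 +
        (∑ y : Fin k, q y * (α s y.succ : ℂ)).re)) atBot (𝓝 (‖T s‖ * 0)) := by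
      refine Tendsto.const_mul _ (Real.tendsto_exp_atBot.comp ?_)
      refine tendsto_atBot_add_const_right _ _ ?_
      exact tendsto_id.atBot_mul_const (hα s hT)
    rw [mul_zero] at h2
    obtain ⟨M, hM⟩ := eventually_atBot.1 (h2.eventually_le_const hη)
    refine ⟨M, fun q0 hq => ?_⟩
    have h3 := hM q0.re hq
    rw [norm_mul, Complex.norm_exp, Fin.sum_univ_succ, Fin.cons_zero]
    simp only [Fin.cons_succ]
    rw [Complex.add_re, Complex.re_mul_ofReal]
    exact h3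
  choose M hM using h1
  refine ⟨-∑ s, |M s|, fun q0 hq s => hM s q0 (hq.trans ?_)⟩
  have h2 : |M s| ≤ ∑ s, |M s| := Finset.single_le_sum (f := fun s => |M s|)
    (fun s _ => abs_nonneg _) (Finset.mem_univ s)
  have h3 := neg_abs_le (M s)
  linarith

end small

section zeta

variable {ν : Type*} [Fintype ν] {c d : ℕ}

/-- The logarithmic coordinates. -/
noncomputable def zeta (Q : Fin c → ℂ) (ph : Fin c → ν → ℝ) (τ : Fin d → ν → ℤ)
    (h : (Fin d → ℝ) → Fin c → ℂ) (θ : Fin d → ℝ) : ν → ℂ := fun l =>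
  ∑ x, (Q x + h θ x) * (ph x l : ℂ) + 2 * Real.pi * Complex.I * ∑ j, (θ j : ℂ) * (τ j l : ℂ)

variable (Q : Fin c → ℂ) (ph : Fin c → ν → ℝ) (τ : Fin d → ν → ℤ)
  (h : (Fin d → ℝ) → Fin c → ℂ)

theorem dotz_zeta (θ : Fin d → ℝ) (u : ν → ℤ) : dotz u (zeta Q ph τ h θ) =
    ∑ x, (Q x + h θ x) * ((∑ l, (u l : ℝ) * ph x l : ℝ) : ℂ) +
      2 * Real.pi * Complex.I * ∑ j, (θ j : ℂ) * (dotp u (τ j) : ℂ) := by
  unfold dotz zeta dotp
  simp only [mul_add, Finset.sum_add_distrib]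
  congr 1
  · simp only [Finset.mul_sum]
    rw [Finset.sum_comm]
    refine Finset.sum_congr rfl fun x _ => ?_
    push_cast
    rw [Finset.mul_sum]
    exact Finset.sum_congr rfl fun l _ => by ring
  · push_cast
    simp only [Finset.mul_sum]
    rw [Finset.sum_comm]
    exact Finset.sum_congr rfl fun j _ => Finset.sum_congr rfl fun l _ => by ring

theorem dotz_zeta_of_dual (θ : Fin d → ℝ) (u : ν → ℤ) (x : Fin c)
    (hu : ∀ y, ∑ l, (u l : ℝ) * ph y l = if x = y then 1 else 0)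
    (hτ : ∀ j, dotp u (τ j) = 0) : dotz u (zeta Q ph τ h θ) = Q x + h θ x := by
  rw [dotz_zeta]
  simp only [hu, hτ]
  rw [Finset.sum_eq_single x]
  · simp
  · intro y _ hy
    rw [if_neg (Ne.symm hy), Complex.ofReal_zero, mul_zero]
  · intro h
    exact absurd (Finset.mem_univ x) h

theorem contDiff_zeta (hh : ContDiff ℝ 2 h) : ContDiff ℝ 2 (zeta Q ph τ h) := by
  unfold zeta
  refine contDiff_pi.2 fun l => ?_
  refine ContDiff.add (ContDiff.sum fun x _ => ?_) (contDiff_const.mul (ContDiff.sum fun j _ => ?_))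
  · exact (contDiff_const.add (contDiff_pi.1 hh x)).mul contDiff_const
  · exact (Complex.ofRealCLM.contDiff.comp (contDiff_apply ℝ ℝ j)).mul contDiff_const

omit [Fintype ν] in
theorem zeta_add_single (hh : ∀ θ j, h (θ + Pi.single j 1) = h θ) (θ : Fin d → ℝ) (j : Fin d) :
    zeta Q ph τ h (θ + Pi.single j 1) = zeta Q ph τ h θ +
      fun l => 2 * Real.pi * Complex.I * (τ j l : ℂ) := by
  funext l
  unfold zeta
  rw [hh, Pi.add_apply, add_assoc, ← mul_add]
  congr 2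
  simp only [Pi.add_apply, Complex.ofReal_add, add_mul, Finset.sum_add_distrib]
  congr 1
  rw [Finset.sum_eq_single j]
  · simp
  · intro i _ hi
    simp [Pi.single_eq_of_ne hi]
  · intro h
    exact absurd (Finset.mem_univ j) h

omit [Fintype ν] in
theorem fderiv_zeta (hh : ContDiff ℝ 2 h) (θ : Fin d → ℝ) (j : Fin d) (l : ν) :
    fderiv ℝ (fun θ => zeta Q ph τ h θ l) θ (Pi.single j 1) =
      ∑ x, fderiv ℝ h θ (Pi.single j 1) x * (ph x l : ℂ) + 2 * Real.pi * Complex.I * (τ j l : ℂ) := by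
  have h0 : HasFDerivAt h (fderiv ℝ h θ) θ := ((hh.differentiable (by norm_num)) θ).hasFDerivAt
  have h1 : ∀ x, HasFDerivAt (fun θ => h θ x)
      ((ContinuousLinearMap.proj x : (Fin c → ℂ) →L[ℝ] ℂ).comp (fderiv ℝ h θ)) θ :=
    fun x => hasFDerivAt_pi'.1 h0 x
  have h3 : HasFDerivAt (fun θ => zeta Q ph τ h θ l) ((∑ x, (ph x l : ℂ) •
      ((ContinuousLinearMap.proj x : (Fin c → ℂ) →L[ℝ] ℂ).comp (fderiv ℝ h θ))) +
      (2 * Real.pi * Complex.I : ℂ) • ∑ j, ((τ j l : ℂ) • (Complex.ofRealCLM.comp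
          (ContinuousLinearMap.proj j : (Fin d → ℝ) →L[ℝ] ℝ)))) θ := by
    unfold zeta
    refine HasFDerivAt.add (HasFDerivAt.fun_sum fun x _ => ?_)
      (HasFDerivAt.const_mul (HasFDerivAt.fun_sum fun j _ => ?_) _)
    · exact ((h1 x).const_add (Q x)).mul_const _
    · have h4 : HasFDerivAt (fun θ : Fin d → ℝ => (θ j : ℂ)) (Complex.ofRealCLM.comp
          (ContinuousLinearMap.proj j : (Fin d → ℝ) →L[ℝ] ℝ)) θ :=
        Complex.ofRealCLM.hasFDerivAt.comp θ (hasFDerivAt_apply j θ)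
      exact h4.mul_const _
  rw [h3.fderiv, add_apply, sum_apply, smul_apply, sum_apply]
  congr 1
  · refine Finset.sum_congr rfl fun x _ => ?_
    rw [smul_apply, smul_eq_mul, mul_comm]
    rfl
  · rw [smul_eq_mul]
    congr 1
    rw [Finset.sum_eq_single j]
    · simp
    · intro i _ hi
      simp [Pi.single_eq_of_ne hi]
    · intro h
      exact absurd (Finset.mem_univ j) h

omit [Fintype ν] in
theorem re_zeta (θ : Fin d → ℝ) (l : ν) :
    (zeta Q ph τ h θ l).re = ∑ x, ((Q x).re + (h θ x).re) * ph x l := by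
  unfold zeta
  rw [Complex.add_re, Complex.re_sum]
  have h1 : (2 * Real.pi * Complex.I * ∑ j, (θ j : ℂ) * (τ j l : ℂ)).re = 0 := by
    have e : (∑ j, (θ j : ℂ) * (τ j l : ℂ)) = ((∑ j, θ j * τ j l : ℝ) : ℂ) := by
      push_cast
      rfl
    rw [e, Complex.re_mul_ofReal]
    simp
  rw [h1, add_zero]
  refine Finset.sum_congr rfl fun x _ => ?_
  rw [Complex.re_mul_ofReal, Complex.add_re]

end zeta

end Pool.Agent.Helper84.TP
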